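import Pool.Agent.MP_1ba41f_an.S2.SpecK

/-! The collision state has the prescribed energies and angular momentum. -/

noncomputable section
open Set Complex
open scoped ComplexConjugate

namespace Pool.Agent.MP_1ba41f_an.S2

namespace AlgA

lemma sq_sq (z : ℂ) : sq z ^ 2 = z := by
  rw [sq, one_div]; exact cpow_ofNat_inv_pow z 2

lemma ne_of_re {z : ℂ} (h : 0 < z.re) : z ≠ 0 := fun e => by simp [e] at h

lemma sq_ne {z : ℂ} (h : 0 < z.re) : sq z ≠ 0 := fun e =>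
  ne_of_re h (by rw [← sq_sq z, e]; simp)

lemma sq_conj {z : ℂ} (h : 0 < z.re) : conj (sq z) = sq (conj z) := by
  have : z.arg ≠ Real.pi := fun e => by
    have := (arg_eq_pi_iff.1 e).1
    linarith
  rw [sq, sq, conj_cpow z _ this]
  congr 2
  simp only [map_div₀, map_one, map_ofNat]

lemma sq_real {z : ℂ} (h : 0 < z.re) (h' : conj z = z) : conj (sq z) = sq z := by
  rw [sq_conj h, h']

lemma norm_one_of {z : ℂ} (h : z * conj z = 1) : ‖z‖ = 1 := by
  rw [mul_conj'] at h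
  have h1 : ‖z‖ ^ 2 = 1 := by exact_mod_cast h
  nlinarith [norm_nonneg z]

lemma norm_sq_one {z : ℂ} (h : ‖z‖ = 1) : ‖sq z‖ = 1 := by
  have h1 : ‖sq z‖ ^ 2 = 1 := by rw [← norm_pow, sq_sq, h]
  nlinarith [norm_nonneg (sq z)]

lemma io_sq {σ : ℝ} (h : σ = 1 ∨ σ = -1) : io σ ^ 2 = -σ := by
  rcases h with rfl | rfl
  · simp [io]
  · norm_num [io]

lemma io_norm (σ : ℝ) : ‖io σ‖ = 1 := by
  unfold io; split_ifs <;> simp

lemma io_conj {σ : ℝ} (h : σ = 1 ∨ σ = -1) : -(σ : ℂ) * conj (io σ) = io σ := by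
  rcases h with rfl | rfl
  · simp [io]
  · norm_num [io]

lemma x4 (a σ : ℝ) (y : Fin 6 → ℂ) :
    xiY a σ y 4 = io σ * sq (z0 y) * sq (zz a σ y (y 4)) := rfl

lemma x5 (a σ : ℝ) (y : Fin 6 → ℂ) :
    xiY a σ y 5 = io σ * sq (z0 y) * sq (zz a (-σ) y (y 5)) := rfl

lemma n2_eq (y : Fin 6 → ℂ) : n2 y = (y 0 - I * y 3) * (y 0 + I * y 3) := by
  unfold n2; linear_combination (y 3 ^ 2) * I_mul_I

lemma wk (a : ℝ) (y : Fin 6 → ℂ) (k s : ℂ) (hs : s ^ 2 = 1) :
    (wh a y k - I * s * kh a y k) * (wh a y k + I * s * kh a y k) = e2 a y * n2 y := by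
  have := sq_sq (e2 a y * n2 y - kh a y k ^ 2)
  unfold wh
  linear_combination this - (s ^ 2 * kh a y k ^ 2) * I_mul_I + (kh a y k ^ 2) * hs

end AlgA

open AlgA in
theorem algA : AlgAStmt := by
  intro a σ y hσ ⟨ha0, ha1, hr, hN, hE, hz0, hW4, hW5, hzz⟩
  have hσ' : -σ = 1 ∨ -σ = -1 := by rcases hσ with rfl | rfl <;> simp
  have hs : (σ : ℂ) ^ 2 = 1 := by rcases hσ with rfl | rfl <;> simp
  have hs' : ((-σ : ℝ) : ℂ) ^ 2 = 1 := by push_cast; linear_combination hs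
  have hio : io σ ≠ 0 := fun e => by simpa [e] using io_norm σ
  have ha : (a : ℂ) ≠ 0 := by exact_mod_cast ha0.ne'
  have ha' : (1 - a : ℂ) ≠ 0 := by exact_mod_cast (sub_pos.2 ha1).ne'
  have hr0 := ne_of_re hr
  have hN0 := ne_of_re hN
  have hsE := sq_ne hE
  have hsN := sq_ne hN
  have h4 : xiY a σ y 4 ≠ 0 := by
    rw [x4]; exact mul_ne_zero (mul_ne_zero hio (sq_ne hz0)) (sq_ne (hzz σ hσ).1)
  have h5 : xiY a σ y 5 ≠ 0 := by
    rw [x5]; exact mul_ne_zero (mul_ne_zero hio (sq_ne hz0)) (sq_ne (hzz _ hσ').2)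
  have hu : uu a (xiY a σ y) =
      -σ * (y 0 - I * y 3) * (wh a y (y 4) - I * σ * kh a y (y 4)) / n2 y := by
    change sq (e2 a y) * xiY a σ y 4 ^ 2 = _
    rw [x4, mul_pow, mul_pow, sq_sq, sq_sq, io_sq hσ, z0, zz]
    have := sq_sq (n2 y)
    generalize sq (n2 y) = s at this hsN
    rw [← this]
    field_simp
  have huu : uu a (xiY a σ y) * ut a (xiY a σ y) = e2 a y := by
    change sq (e2 a y) * xiY a σ y 4 ^ 2 * (sq (e2 a y) / xiY a σ y 4 ^ 2) = _
    field_simp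
    exact sq_sq _
  have hu0 : uu a (xiY a σ y) ≠ 0 := left_ne_zero_of_mul (huu ▸ ne_of_re hE)
  have hwk := wk a y (y 4) σ hs
  have hut : ut a (xiY a σ y) =
      -σ * (y 0 + I * y 3) * (wh a y (y 4) + I * σ * kh a y (y 4)) / n2 y := by
    refine mul_left_cancel₀ hu0 ?_
    rw [huu, hu, div_mul_div_comm, eq_div_iff (mul_ne_zero hN0 hN0)]
    have h1 := n2_eq y
    linear_combination (-(n2 y)) * hwk -
      ((wh a y (y 4) - I * σ * kh a y (y 4)) * (wh a y (y 4) + I * σ * kh a y (y 4))) *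
        ((y 0 - I * y 3) * (y 0 + I * y 3) * hs - h1)
  have hrr : sq (y 2) * sq (y 2) = y 2 := by rw [← pow_two, sq_sq]
  have hyy : yy y * yt y = n2 y / y 2 ^ 2 := by
    unfold yy yt n2
    field_simp
    linear_combination (-(y 0 ^ 2)) * I_mul_I
  have hyu : yy y * ut a (xiY a σ y) + yt y * uu a (xiY a σ y) = 2 * kh a y (y 4) / y 2 := by
    rw [hu, hut, yy, yt]
    have h1 : n2 y = y 0 ^ 2 + y 3 ^ 2 := rfl
    field_simp
    linear_combination (2 * kh a y (y 4) * (y 0 ^ 2 + y 3 ^ 2)) * hs -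
      (2 * kh a y (y 4)) * h1 +
      (-2 * (σ : ℂ) ^ 2 * kh a y (y 4) * (y 0 ^ 2 + y 3 ^ 2)) * I_mul_I -
      (2 * σ * y 0 * y 3 * wh a y (y 4)) * I_mul_I
  have hEq : a * (1 - a) * e2 a y = 2 * y 1 - yy y * yt y + 2 / y 2 := by
    unfold e2
    field_simp
  have hK : kh a y (y 4) / y 2 =
      ((-2 * y 1 - (1 - a) * y 4) / a - y 4) / 2 - (2 * a - 1) * e2 a y / 2 := by
    unfold kh
    field_simp
  have hK' : (a : ℂ) * ((-2 * y 1 - (1 - a) * y 4) / a) = -2 * y 1 - (1 - a) * y 4 := by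
    field_simp
  refine ⟨⟨h4, h5, rfl, hu, hut, hrr, hrr, ?_, ?_, ?_⟩, fun hy => ?_⟩
  · change (2 - sq (y 2) * (yy y + a * uu a (xiY a σ y)) *
      (sq (y 2) * (yt y + a * ut a (xiY a σ y)))) / (sq (y 2) * sq (y 2)) = _
    rw [mul_mul_mul_comm, hrr, sub_div, mul_div_cancel_left₀ _ hr0]
    rw [mul_div_assoc, hK] at hyu
    linear_combination -hEq - a * hyu - (a : ℂ) ^ 2 * huu - hK'
  · change (2 - sq (y 2) * (yy y - (1 - a) * uu a (xiY a σ y)) *
      (sq (y 2) * (yt y - (1 - a) * ut a (xiY a σ y)))) / (sq (y 2) * sq (y 2)) = _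
    rw [mul_mul_mul_comm, hrr, sub_div, mul_div_cancel_left₀ _ hr0]
    rw [mul_div_assoc, hK] at hyu
    linear_combination -hEq + (1 - a) * hyu - (1 - a : ℂ) ^ 2 * huu - hK'
  · change a * ((sq (y 2) * (sq (y 2) * (yy y - (1 - a) * uu a (xiY a σ y))) -
      sq (y 2) * (sq (y 2) * (yt y - (1 - a) * ut a (xiY a σ y)))) / (2 * I)) +
      (1 - a) * ((sq (y 2) * (sq (y 2) * (yy y + a * uu a (xiY a σ y))) -
      sq (y 2) * (sq (y 2) * (yt y + a * ut a (xiY a σ y)))) / (2 * I)) = _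
    simp only [← mul_assoc, hrr]
    unfold yy yt
    field_simp
    ring
  have hc : ∀ i, conj (y i) = y i := fun i => conj_eq_iff_im.2 (hy i)
  have cN : conj (n2 y) = n2 y := by simp only [n2, map_add, map_pow, hc]
  have cyy : conj (yy y) = yt y := by
    simp only [yy, yt, map_add, map_mul, map_div₀, hc, conj_I]; ring
  have cyt : conj (yt y) = yy y := by rw [← cyy, conj_conj]
  have cE : conj (e2 a y) = e2 a y := by
    simp only [e2, map_add, map_sub, map_mul, map_div₀, hc, cyy, cyt, map_ofNat, map_one,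
      conj_ofReal]
    ring
  have cK : ∀ i, conj (kh a y (y i)) = kh a y (y i) := fun i => by
    simp only [kh, map_sub, map_mul, map_div₀, map_neg, hc, cE, map_ofNat, map_one, conj_ofReal]
  have cW : ∀ i, 0 < (e2 a y * n2 y - kh a y (y i) ^ 2).re → conj (wh a y (y i)) = wh a y (y i) :=
    fun i h => sq_real h (by simp only [map_sub, map_mul, map_pow, cE, cN, cK])
  have csE := sq_real hE cE
  have csN := sq_real hN cN
  have csr := sq_real hr (hc 2)
  have cz0 : conj (z0 y) = (y 0 + I * y 3) / sq (n2 y) := by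
    simp only [z0, map_sub, map_mul, map_div₀, hc, conj_I, csN]; ring
  have czz : ∀ (τ : ℝ) i, 0 < (e2 a y * n2 y - kh a y (y i) ^ 2).re →
      conj (zz a τ y (y i)) = zz a (-τ) y (y i) := fun τ i h => by
    simp only [zz, map_sub, map_mul, map_div₀, conj_I, csN, csE, cW i h, cK, conj_ofReal]
    push_cast; ring
  have nz0 : ‖z0 y‖ = 1 := norm_one_of (by
    rw [cz0, z0, div_mul_div_comm, ← pow_two, sq_sq, ← n2_eq, div_self hN0])
  have nzz : ∀ (τ : ℝ) i, (τ : ℂ) ^ 2 = 1 → 0 < (e2 a y * n2 y - kh a y (y i) ^ 2).re →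
      zz a τ y (y i) * conj (zz a τ y (y i)) = 1 := fun τ i hτ h => by
    rw [czz τ i h, zz, zz, div_mul_div_comm, ← pow_two, mul_pow, sq_sq, sq_sq,
      div_eq_one_iff_eq (mul_ne_zero (ne_of_re hE) hN0), ← wk a y (y i) τ hτ]
    push_cast; ring
  have cu : ut a (xiY a σ y) = conj (uu a (xiY a σ y)) := by
    rw [hu, hut]
    simp only [map_sub, map_mul, map_div₀, map_neg, conj_I, cN, cW 4 hW4, cK, hc, conj_ofReal]
    ring
  refine ⟨⟨hy 0, hy 1, hy 2, hy 3, ?_, ?_⟩, ⟨csr.symm, ?_, csr.symm, ?_, rfl⟩, ?_, fun h45 => ?_⟩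
  · rw [x4, norm_mul, norm_mul, io_norm, norm_sq_one nz0,
      norm_sq_one (norm_one_of (nzz σ 4 hs hW4))]
    simp
  · rw [x5, norm_mul, norm_mul, io_norm, norm_sq_one nz0,
      norm_sq_one (norm_one_of (nzz _ 5 hs' hW5))]
    simp
  · change sq (y 2) * (yt y - (1 - a) * ut a (xiY a σ y)) =
      conj (sq (y 2) * (yy y - (1 - a) * uu a (xiY a σ y)))
    simp only [map_sub, map_mul, map_one, csr, cyy, cu, conj_ofReal]
  · change sq (y 2) * (yt y + a * ut a (xiY a σ y)) =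
      conj (sq (y 2) * (yy y + a * uu a (xiY a σ y)))
    simp only [map_add, map_mul, csr, cyy, cu, conj_ofReal]
  · set y' : Fin 6 → ℂ := ![y 0, y 1, y 2, -y 3, y 5, y 4] with hy'
    have mN : n2 y' = n2 y := by
      change y 0 ^ 2 + (-y 3) ^ 2 = y 0 ^ 2 + y 3 ^ 2
      ring
    have mE : e2 a y' = e2 a y := by
      change 2 * (y 1 - (-y 3 + I * y 0) / y 2 * ((-y 3 - I * y 0) / y 2) / 2 + 1 / y 2) /
        (a * (1 - a)) = 2 * (y 1 - (y 3 + I * y 0) / y 2 * ((y 3 - I * y 0) / y 2) / 2 + 1 / y 2) /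
        (a * (1 - a))
      ring
    have mK : ∀ k, kh a y' k = kh a y k := fun k => by
      unfold kh; rw [mE]; rfl
    have mz : ∀ τ k, zz a τ y' k = zz a τ y k := fun τ k => by
      unfold zz wh; rw [mE, mN, mK]
    have m0 : z0 y' = conj (z0 y) := by
      rw [cz0, z0, mN]
      change (y 0 - I * -y 3) / _ = _
      ring
    have e4 : xiY a σ y' 4 = -σ * conj (xiY a σ y 5) := by
      rw [x4, x5, mz, m0, map_mul, map_mul, sq_conj hz0, sq_conj (hzz _ hσ').2, czz _ 5 hW5,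
        neg_neg, ← mul_assoc, ← mul_assoc, io_conj hσ]
      rfl
    have e5 : xiY a σ y' 5 = -σ * conj (xiY a σ y 4) := by
      rw [x4, x5, mz, m0, map_mul, map_mul, sq_conj hz0, sq_conj (hzz _ hσ).1, czz _ 4 hW4,
        ← mul_assoc, ← mul_assoc, io_conj hσ]
      rfl
    have e6 : xiY a σ y' = ![y 0, y 1, y 2, -y 3, xiY a σ y' 4, xiY a σ y' 5] := rfl
    rw [e6, e4, e5]
    rfl
  · refine ⟨2 * (zz a σ y (y 4)).re, by linarith [(hzz σ hσ).1], ?_⟩
    have h1 := nzz σ 4 hs hW4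
    have h2 := norm_sq_one (norm_one_of h1)
    have h3 : sq (zz a σ y (y 4)) * conj (sq (zz a σ y (y 4))) = 1 := by
      rw [mul_conj', h2]; simp
    have h6 := sq_sq (zz a σ y (y 4))
    rw [x4, x5, ← h45, ← czz σ 4 hW4, ← sq_conj (hzz σ hσ).1, ← add_conj, ← h6, map_pow, sq_sq]
    have h7 := sq_ne hz0
    generalize sq (zz a σ y (y 4)) = s at h3 h6 ⊢
    have h8 := left_ne_zero_of_mul_eq_one h3
    have h9 := right_ne_zero_of_mul_eq_one h3
    rw [← h6]
    field_simp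
    linear_combination (-(s ^ 2 + conj s ^ 2)) * h3

end Pool.Agent.MP_1ba41f_an.S2
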