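import Mathlib
import Pool.Agent.MP_1ba41f_an.S2.CV.Defs

/-! Second species tori: physical states, regularised states, half arcs. -/

noncomputable section
open Set Complex
open scoped ComplexConjugate

namespace Pool.Agent.MP_1ba41f_an.S2

/-- Energy (divided by `e`) for the masses `1, e a, e (1 - a)`. -/
def ham (a e : ℝ) (x : St) : ℝ :=
  a * ‖x.2.1‖ ^ 2 / 2 + (1 - a) * ‖x.2.2‖ ^ 2 / 2 - a / ‖x.1.1‖ - (1 - a) / ‖x.1.2‖ +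
    e * (‖a * x.2.1 + (1 - a) * x.2.2‖ ^ 2 / 2 - a * (1 - a) / ‖x.1.2 - x.1.1‖)

/-- Angular momentum (divided by `e`). -/
def ang (a : ℝ) (x : St) : ℝ :=
  a * (conj x.1.1 * x.2.1).im + (1 - a) * (conj x.1.2 * x.2.2).im

/-- Regularised state on an arc: `w2, w2~, p2, p2~, w3, w3~, p3, p3~, t`
with `q = w ^ 2`, `v = p / w~`. -/
abbrev Az : Type := Fin 9 → ℂ

/-- Regularised state at an encounter: `q2, q2~, w, w~, p, p~, y, y~, t`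
with `q3 - q2 = w ^ 2`, `v3 - v2 = p / w~`, `y = a v2 + (1 - a) v3`. -/
abbrev En : Type := Fin 9 → ℂ

/-- Centre data of an encounter: `c, h, r, P, e+, e-`. -/
abbrev Xi : Type := Fin 6 → ℂ

def physA (z : Az) : St := ((z 0 ^ 2, z 4 ^ 2), (z 2 / z 1, z 6 / z 5))

def physE (a : ℝ) (z : En) : St :=
  ((z 0, z 0 + z 2 ^ 2), (z 6 - (1 - a) * (z 4 / z 3), z 6 + a * (z 4 / z 3)))

/-- Real points of `Az` and of `En`. -/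
def RealZ (z : Fin 9 → ℂ) : Prop :=
  z 1 = conj (z 0) ∧ z 3 = conj (z 2) ∧ z 5 = conj (z 4) ∧ z 7 = conj (z 6) ∧ (z 8).im = 0

/-- Real centre data. -/
def RealXi (x : Xi) : Prop :=
  (x 0).im = 0 ∧ (x 1).im = 0 ∧ (x 2).im = 0 ∧ (x 3).im = 0 ∧ ‖x 4‖ = 1 ∧ ‖x 5‖ = 1

/-- Mirror image of real centre data, with a sign `s = 1` or `s = -1`. -/
def mirXi (s : ℂ) (x : Xi) : Xi := ![x 0, x 1, x 2, -x 3, s * conj (x 5), s * conj (x 4)]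

def rr2 (z : Az) : ℂ := z 0 * z 1
def rr3 (z : Az) : ℂ := z 4 * z 5
def nn (z : Az) : ℂ := rr2 z + rr3 z
def dd (z : Az) : ℂ := z 4 ^ 2 - z 0 ^ 2
def ddt (z : Az) : ℂ := z 5 ^ 2 - z 1 ^ 2
def kk2 (z : Az) : ℂ := (2 - z 2 * z 3) / rr2 z
def kk3 (z : Az) : ℂ := (2 - z 6 * z 7) / rr3 z

/-- Two Kepler problems in the time `tau2 + tau3`. -/
def X0 (k2 k3 : ℂ) (z : Az) : Az :=
  ![rr3 z * z 2 / (2 * nn z), rr3 z * z 3 / (2 * nn z),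
    -k2 * rr3 z * z 0 / (2 * nn z), -k2 * rr3 z * z 1 / (2 * nn z),
    rr2 z * z 6 / (2 * nn z), rr2 z * z 7 / (2 * nn z),
    -k3 * rr2 z * z 4 / (2 * nn z), -k3 * rr2 z * z 5 / (2 * nn z),
    rr2 z * rr3 z / nn z]

def yy (x : Xi) : ℂ := (x 3 + I * x 0) / x 2
def yt (x : Xi) : ℂ := (x 3 - I * x 0) / x 2
/-- Twice the relative energy. -/
def e2 (a : ℝ) (x : Xi) : ℂ := 2 * (x 1 - yy x * yt x / 2 + 1 / x 2) / (a * (1 - a))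
def sq (z : ℂ) : ℂ := z ^ (1 / 2 : ℂ)
def uu (a : ℝ) (x : Xi) : ℂ := sq (e2 a x) * x 4 ^ 2
def ut (a : ℝ) (x : Xi) : ℂ := sq (e2 a x) / x 4 ^ 2

/-- The collision state with outgoing direction `e+ ^ 2`. -/
def coll (a : ℝ) (x : Xi) : Az :=
  ![sq (x 2), sq (x 2), sq (x 2) * (yy x - (1 - a) * uu a x), sq (x 2) * (yt x - (1 - a) * ut a x),
    sq (x 2), sq (x 2), sq (x 2) * (yy x + a * uu a x), sq (x 2) * (yt x + a * ut a x), 0]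

/-- The unperturbed arc from the collision, of complex length `T`, free of further collisions
between the small bodies. -/
def BaseArc (a : ℝ) (x : Xi) (T : ℂ) (g : ℝ → Az) : Prop :=
  g 0 = coll a x ∧ ∀ u ∈ Icc (0 : ℝ) 1, nn (g u) ≠ 0 ∧ (0 < u → dd (g u) ≠ 0 ∧ ddt (g u) ≠ 0) ∧
    HasDerivWithinAt g (T • X0 (kk2 (coll a x)) (kk3 (coll a x)) (g u)) (Icc 0 1) u

/-- A narrow sector around the positive axis. -/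
def Sec (z : ℂ) : Prop := 4 * |z.im| < z.re

/-- Admissible data. -/
def Adm (k : ℝ × Xi × ℂ) : Prop :=
  0 < k.1 ∧ k.1 < 1 ∧ Sec (k.2.1 2) ∧ Sec (e2 k.1 k.2.1) ∧ k.2.1 4 ≠ 0 ∧ k.2.1 5 ≠ 0 ∧
    Sec (k.2.1 4 / k.2.1 5 + k.2.1 5 / k.2.1 4) ∧ Sec k.2.2 ∧ ∃ g, BaseArc k.1 k.2.1 k.2.2 g

/-- What a half arc (from the centre of an encounter along an arc) gives. -/
structure Half (a e η : ℝ) (K : Set (Xi × ℂ)) (S : ℝ) (enc : Xi × ℂ → En) (arc : Xi × ℂ → Az) :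
    Prop where
  spos : 0 < S
  hol : ∃ U V : Set (Xi × ℂ), IsOpen U ∧ IsOpen V ∧ DifferentiableOn ℂ enc U ∧
    DifferentiableOn ℂ arc V ∧ ∀ k ∈ K, (∀ s ∈ Icc (0 : ℝ) S, (k.1, (s : ℂ)) ∈ U) ∧
      ∀ u ∈ Icc (0 : ℝ) 1, (k.1, (u : ℂ) * k.2) ∈ V
  near : ∀ k ∈ K, ∀ g, BaseArc a k.1 k.2 g → ∀ u ∈ Icc (0 : ℝ) 1,
    ‖arc (k.1, (u : ℂ) * k.2) - g u‖ ≤ η
  encR : ∀ k ∈ K, RealXi k.1 → ∃ A : ℝ, 0 < A ∧ ∀ s ∈ Icc (0 : ℝ) S,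
    RealZ (enc (k.1, s)) ∧ ‖enc (k.1, s) 0 - k.1 2‖ ≤ η ∧ ‖enc (k.1, s) 2‖ ≤ η ∧
    ‖enc (k.1, s) 2 - A * (k.1 4 * Real.exp s - k.1 5 * Real.exp (-s))‖ ≤ η * A * Real.sinh s ∧
    (enc (k.1, s) 2 ≠ 0 → ∃ g : ℝ, 0 < g ∧
      HasDerivAt (fun s : ℝ => enc (k.1, s) 8) g s ∧
      HasDerivAt (fun s : ℝ => physE a (enc (k.1, s)))
        (g • NF (e * a) (e * (1 - a)) (physE a (enc (k.1, s)))) s)
  join : ∀ k ∈ K, RealXi k.1 → physE a (enc (k.1, S)) = physA (arc (k.1, 0))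
  symm : ∀ k ∈ K, ∀ k' ∈ K, RealXi k.1 → k.1 4 ≠ k.1 5 → ∀ s : ℂ, s = 1 ∨ s = -1 → k'.1 = mirXi s k.1 →
    physE a (enc (k'.1, 0)) = mir (physE a (enc (k.1, 0)))
  arcR : ∀ k ∈ K, RealXi k.1 → ∀ T : ℝ, k.2 = T → ∀ s ∈ Icc (0 : ℝ) T,
    RealZ (arc (k.1, s)) ∧ nn (arc (k.1, s)) ≠ 0 ∧ dd (arc (k.1, s)) ≠ 0 ∧
    (arc (k.1, s) 0 = 0 → deriv (fun τ : ℂ => arc (k.1, τ) 0) s ≠ 0) ∧
    (arc (k.1, s) 4 = 0 → deriv (fun τ : ℂ => arc (k.1, τ) 4) s ≠ 0) ∧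
    (arc (k.1, s) 0 ≠ 0 → arc (k.1, s) 4 ≠ 0 →
      ham a e (physA (arc (k.1, s))) = (k.1 1).re ∧ ang a (physA (arc (k.1, s))) = (k.1 0).re ∧
      ∃ g : ℝ, 0 < g ∧ HasDerivAt (fun s : ℝ => arc (k.1, s) 8) g s ∧
        HasDerivAt (fun s : ℝ => physA (arc (k.1, s)))
          (g • NF (e * a) (e * (1 - a)) (physA (arc (k.1, s)))) s)
  dir : ∀ k ∈ K, RealXi k.1 → ∀ T : ℝ, k.2 = T → ∃ R : ℝ, 0 < R ∧ R ≤ η ∧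
    ∀ g, BaseArc a k.1 k.2 g → ∀ u ∈ Icc (0 : ℝ) 1,
      ‖dd (arc (k.1, (u : ℂ) * k.2)) - R * k.1 4 ^ 2 - dd (g u)‖ ≤ η * (R + u * T)

/-- HALF: existence of half arcs. -/
def HalfStmt : Prop :=
  ∀ K : Set (ℝ × Xi × ℂ), IsCompact K → (∀ k ∈ K, Adm k) → ∀ η : ℝ, 0 < η →
    ∃ e0 : ℝ, 0 < e0 ∧ ∀ e : ℝ, 0 < e → e < e0 → ∀ a : ℝ,
      ∃ S enc arc, Half a e η {k | (a, k) ∈ K} S enc arc

end Pool.Agent.MP_1ba41f_an.S2
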