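import Mathlib
import Pool.Agent.MP_1ba41f_an.S2.Defs
import Pool.Agent.MP_1ba41f_an.S2.LB.Defs

/-! The integrable limit (mass ratio `3/5`), the matched quantities, the letters. -/

noncomputable section
open Set Complex

namespace Pool.Agent.MP_1ba41f_an.S2

/-! ### Collision states of the limit in the chart `m = (r, Π)` -/

def bEta (κ : ℂ) (m : C2) : ℂ := (m.2 ^ 2 + κ ^ 2 + m.1 ^ 2 - 68 / 25 * m.1) / (6 / 5 * m.1)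
def bD (κ : ℂ) (m : C2) : ℂ := 4 - 2 * m.1 - bEta κ m ^ 2
def bs (κ : ℂ) (m : C2) : ℂ := sq (bD κ m)
def bxi (κ : ℂ) (m : C2) : ℂ := bEta κ m + 6 / 5
def bL (κ : ℂ) (m : C2) : ℂ := bxi κ m ^ 2 + bD κ m
def bG (σ : ℝ) (κ : ℂ) (m : C2) : ℂ := 2 * (κ * bxi κ m + σ * bs κ m * m.2) / bL κ m
def bG2 (σ : ℝ) (κ : ℂ) (m : C2) : ℂ := κ - 3 / 5 * bG σ κ m
def bS (σ : ℝ) (κ : ℂ) (m : C2) : ℂ := σ * (bEta κ m * bG σ κ m - 2 * bG2 σ κ m) / bs κ m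
def bX (σ : ℝ) (κ : ℂ) (m : C2) : ℂ := (2 - bG σ κ m ^ 2 - bD κ m) / 2
def bY (σ : ℝ) (κ : ℂ) (m : C2) : ℂ :=
  -σ * (bEta κ m * (bG σ κ m ^ 2 + bD κ m) - 2 * bG σ κ m * bG2 σ κ m) / (2 * bs κ m)
def bK (κ : ℂ) (m : C2) : ℂ := (5 * m.1 - 4 + 2 * bEta κ m) / 8
def bv3 (σ : ℝ) (κ : ℂ) (m : C2) : ℂ := (bS σ κ m + I * bG σ κ m) / m.1
def bv3t (σ : ℝ) (κ : ℂ) (m : C2) : ℂ := (bS σ κ m - I * bG σ κ m) / m.1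
def bv2 (σ : ℝ) (κ : ℂ) (m : C2) : ℂ := (bEta κ m - I * σ * bs κ m) * bv3 σ κ m / 2
def bv2t (σ : ℝ) (κ : ℂ) (m : C2) : ℂ := (bEta κ m + I * σ * bs κ m) * bv3t σ κ m / 2
def bS2 (σ : ℝ) (κ : ℂ) (m : C2) : ℂ := m.1 * (bv2 σ κ m + bv2t σ κ m) / 2

/-- The pair of conics through the collision state, in a stereographic chart `(V, U)`. -/
def PP (σ : ℝ) (κ : ℂ) (m : C2) : C2 :=
  (bG2 σ κ m / (1 - bX σ κ m), bY σ κ m / (1 - bX σ κ m))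

/-- The phase of the second body at the collision state. -/
def Fc (σ : ℝ) (κ : ℂ) (m : C2) : ℂ :=
  -((1 - I * bv2 σ κ m) ^ 2 * (bS σ κ m - I * bG σ κ m) ^ 2) / (4 * (1 + bG2 σ κ m))

/-- The collision state of the limit. -/
def collB (σ : ℝ) (κ : ℂ) (m : C2) : Az :=
  ![sq m.1, sq m.1, sq m.1 * bv2 σ κ m, sq m.1 * bv2t σ κ m,
    sq m.1, sq m.1, sq m.1 * bv3 σ κ m, sq m.1 * bv3t σ κ m, 0]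

/-- The arcs of the limit. -/
def w2b (σ : ℝ) (κ : ℂ) (m : C2) (τ : ℂ) : ℂ := sq m.1 * (cos (τ / 2) + bv2 σ κ m * sin (τ / 2))
def w3b (σ : ℝ) (κ : ℂ) (m : C2) (τ : ℂ) : ℂ := sq m.1 * (1 + bv3 σ κ m * τ / 2)
def t2b (σ : ℝ) (κ : ℂ) (m : C2) (τ : ℂ) : ℂ :=
  τ - sin τ + m.1 * sin τ + bS2 σ κ m * (1 - cos τ)
def t3b (σ : ℝ) (κ : ℂ) (m : C2) (τ : ℂ) : ℂ := m.1 * τ + bS σ κ m * τ ^ 2 / 2 + τ ^ 3 / 6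

/-! ### The inverse chart -/

def qN (z : C2) : ℂ := z.1 ^ 2 + z.2 ^ 2 + 1
def qX (z : C2) : ℂ := (qN z - 2) / qN z
def qG2 (z : C2) : ℂ := 2 * z.1 / qN z
def qY (z : C2) : ℂ := 2 * z.2 / qN z
def qG (κ : ℂ) (z : C2) : ℂ := 5 / 3 * (κ - qG2 z)
def qD (κ : ℂ) (z : C2) : ℂ := 2 - qG κ z ^ 2 - 2 * qX z
def qs (κ : ℂ) (z : C2) : ℂ := sq (qD κ z)
def qEta (σ : ℝ) (κ : ℂ) (z : C2) : ℂ :=
  (2 * qG κ z * qG2 z - 2 * σ * qs κ z * qY z) / (qG κ z ^ 2 + qD κ z)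
def QQ (σ : ℝ) (κ : ℂ) (z : C2) : C2 :=
  ((4 - qD κ z - qEta σ κ z ^ 2) / 2,
    σ * (qG κ z * ((qEta σ κ z + 6 / 5) ^ 2 + qD κ z) / 2 - κ * (qEta σ κ z + 6 / 5)) / qs κ z)
def Fz (σ : ℝ) (κ : ℂ) (z : C2) : ℂ := Fc σ κ (QQ σ κ z)
def bet (κ : ℂ) (z : C2) : ℂ := I / 2 * log (Fz (-1) κ z / Fz 1 κ z * ((-7 + 24 * I) / 25))
def gz (κ : ℂ) (z : C2) : ℂ := Real.pi - Real.arccos (3 / 5) - bet κ z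

/-- No denominator vanishes, chart `m`. -/
def OkM (κ : ℂ) (m : C2) : Prop :=
  m.1 ≠ 0 ∧ 0 < (bD κ m).re ∧ bL κ m ≠ 0 ∧ κ ^ 2 + m.2 ^ 2 ≠ 0 ∧ bD κ m + bK κ m ^ 2 ≠ 0 ∧
    ∀ σ : ℝ, σ = 1 ∨ σ = -1 →
      1 - bX σ κ m ≠ 0 ∧ bG σ κ m ^ 2 + bD κ m ≠ 0 ∧ 1 + bG2 σ κ m ≠ 0

/-- No denominator vanishes, chart `z`. -/
def OkZ (κ : ℂ) (z : C2) : Prop :=
  qN z ≠ 0 ∧ 0 < (qD κ z).re ∧ qG κ z ^ 2 + qD κ z ≠ 0 ∧ OkM κ (QQ 1 κ z) ∧ OkM κ (QQ (-1) κ z) ∧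
    Fz 1 κ z ≠ 0 ∧ Fz (-1) κ z ≠ 0 ∧
    Fz (-1) κ z / Fz 1 κ z * ((-7 + 24 * I) / 25) ∈ slitPlane

/-! ### Letters: `0` = return with sign `-1`, `1` = return with sign `1`, `2` = transfer -/

def sg (j : Fin 3) : ℝ := if j = 0 then -1 else 1
def gj (j : Fin 3) (κ : ℂ) (z : C2) : ℂ := if j = 2 then gz κ z else 0
def mid (j : Fin 3) (κ : ℂ) (z : C2) : ℂ := Fz (sg j) κ z * exp (I * gj j κ z)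

/-! ### Matched quantities -/

def aG2 (z : Az) : ℂ := (z 1 * z 2 - z 0 * z 3) / (2 * I)
def aS2 (z : Az) : ℂ := (z 1 * z 2 + z 0 * z 3) / 2
def aG3 (z : Az) : ℂ := (z 5 * z 6 - z 4 * z 7) / (2 * I)
def aS3 (z : Az) : ℂ := (z 5 * z 6 + z 4 * z 7) / 2
def aA2 (z : Az) : ℂ := -(z 2 ^ 2 + kk2 z * z 0 ^ 2) / 2
def aA2t (z : Az) : ℂ := -(z 3 ^ 2 + kk2 z * z 1 ^ 2) / 2
def aA3 (z : Az) : ℂ := -(z 6 ^ 2 + kk3 z * z 4 ^ 2) / 2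
def aA3t (z : Az) : ℂ := -(z 7 ^ 2 + kk3 z * z 5 ^ 2) / 2
def ee3 (z : Az) : ℂ := sq (1 - kk3 z * aG3 z ^ 2)
def hX (z : Az) : ℂ := (aA2 z * aA3t z + aA2t z * aA3 z) / (2 * ee3 z)
def hY (z : Az) : ℂ := (aA2 z * aA3t z - aA2t z * aA3 z) / (2 * I * ee3 z)
def UV (z : Az) : C2 := (sq (kk2 z) * aG2 z / (1 - hX z), hY z / (1 - hX z))
def Fh (z : Az) : ℂ :=
  (sq (kk2 z) * z 0 - I * z 2) ^ 2 / (2 * (1 + sq (kk2 z) * aG2 z)) * aA3t z / ee3 z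
def Eap (z : Az) : ℂ := -I * log (-(1 - kk3 z * rr3 z + I * sq (kk3 z) * aS3 z) / ee3 z)
def xph (μ : ℂ) (z : Az) : ℂ := -I * log (Fh z / μ)
def LH (a : ℝ) (z : Az) : ℂ := -(a * kk2 z + (1 - a) * kk3 z) / 2
def LK (z : Az) : ℂ := 1 / sq (kk3 z) ^ 3
def LS (μ : ℂ) (z : Az) : ℂ := xph μ z / sq (kk2 z) + Eap z / sq (kk3 z)
def LP (μ : ℂ) (z : Az) : ℂ :=
  (xph μ z - sq (kk2 z) * aS2 z) / sq (kk2 z) ^ 3 - (Eap z - sq (kk3 z) * aS3 z) / sq (kk3 z) ^ 3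

/-- The six matched quantities of the letter `j`. -/
def LL (a : ℝ) (j : Fin 3) (κ : ℂ) (z : Az) : Fin 6 → ℂ :=
  ![LH a z, LK z, (UV z).1, (UV z).2, LS (mid j κ (UV z)) z, LP (mid j κ (UV z)) z]

/-- The matched quantities are regular at `z`. -/
def OkA (j : Fin 3) (κ : ℂ) (z : Az) : Prop :=
  z 0 ≠ 0 ∧ z 1 ≠ 0 ∧ z 4 ≠ 0 ∧ z 5 ≠ 0 ∧ 0 < (kk2 z).re ∧ 0 < (kk3 z).re ∧
    0 < (1 - kk3 z * aG3 z ^ 2).re ∧ 1 - hX z ≠ 0 ∧ 1 + sq (kk2 z) * aG2 z ≠ 0 ∧ OkZ κ (UV z) ∧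
    0 < (Fh z / mid j κ (UV z)).re ∧
    0 < (-(1 - kk3 z * rr3 z + I * sq (kk3 z) * aS3 z) / ee3 z).re

/-! ### Centre data with prescribed outgoing and incoming energies of the third body -/

def kh (a : ℝ) (x : Xi) (k : ℂ) : ℂ :=
  x 2 * (((-2 * x 1 - (1 - a) * k) / a - k) / 2 - (2 * a - 1) * e2 a x / 2)
def n2 (x : Xi) : ℂ := x 0 ^ 2 + x 3 ^ 2
def wh (a : ℝ) (x : Xi) (k : ℂ) : ℂ := sq (e2 a x * n2 x - kh a x k ^ 2)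
def z0 (x : Xi) : ℂ := (x 0 - I * x 3) / sq (n2 x)
def zz (a τ : ℝ) (x : Xi) (k : ℂ) : ℂ :=
  (wh a x k - I * τ * kh a x k) / (sq (e2 a x) * sq (n2 x))
def io (σ : ℝ) : ℂ := if σ = 1 then I else 1
def xiOf (a σ : ℝ) (c h r P ko ki : ℂ) : Xi :=
  ![c, h, r, P,
    io σ * sq (z0 ![c, h, r, P, 1, 1]) * sq (zz a σ ![c, h, r, P, 1, 1] ko),
    io σ * sq (z0 ![c, h, r, P, 1, 1]) * sq (zz a (-σ) ![c, h, r, P, 1, 1] ki)]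

/-- The centre data of the limit. -/
def xiB (σ : ℝ) (κ : ℂ) (m : C2) : Xi :=
  xiOf (5 / 8) σ (5 / 8 * κ) (-5 / 16) m.1 (5 / 8 * m.2) 0 0

/-- The directions of the limit, `τ = σ` outgoing and `τ = -σ` incoming. -/
def eb (σ τ : ℝ) (κ : ℂ) (m : C2) : ℂ :=
  io σ * sq ((κ - I * m.2) / sq (κ ^ 2 + m.2 ^ 2)) *
    sq ((bs κ m - I * τ * bK κ m) / sq (bD κ m + bK κ m ^ 2))

/-- Arguments of a letter: `((κ, m), (to, ti), dH, dT)`. -/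
abbrev Vv : Type := (ℂ × C2) × (ℂ × ℂ) × ℂ × ℂ

def nu (n : ℕ) (t : ℂ) : ℂ := ((n : ℂ) + t) ^ (1 / 3 : ℂ)
def hn (a : ℝ) (n : ℕ) : ℂ := -(a + (1 - a) / nu n 0 ^ 2) / 2
def xiN (a : ℝ) (n : ℕ) (j : Fin 3) (v : Vv) : Xi :=
  xiOf a (sg j) (5 / 8 * v.1.1) (hn a n + v.2.2.1) v.1.2.1 (5 / 8 * v.1.2.2)
    (1 / nu n v.2.1.1 ^ 2) (1 / nu n v.2.1.2 ^ 2)
def TN (n : ℕ) (j : Fin 3) (v : Vv) : ℂ :=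
  n * Real.pi + gj j v.1.1 (PP (sg j) v.1.1 v.1.2) + Real.pi * nu n v.2.1.1 -
    bS (sg j) v.1.1 v.1.2 + v.2.2.2

def RealV (v : Vv) : Prop :=
  v.1.1.im = 0 ∧ RealC2 v.1.2 ∧ v.2.1.1.im = 0 ∧ v.2.1.2.im = 0 ∧ v.2.2.1.im = 0 ∧ v.2.2.2.im = 0

/-- The resonant circles: a compact set of real points `(κ, r, Π)`. -/
def B1 : Set (ℂ × C2) :=
  {x | ∃ s ξ sb cb : ℝ, 18 / 25 ≤ s ∧ s ≤ 8 / 5 ∧ 1 / 6 ≤ ξ ∧ ξ ≤ 4 ∧ sb ^ 2 + cb ^ 2 = 1 ∧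
    2 * ξ * (cb + 3 / 5) = ξ ^ 2 + s ^ 2 ∧
    x = (((4 / 5 * s : ℝ) : ℂ), r2c ((4 - s ^ 2 - (ξ - 6 / 5) ^ 2) / 2, ξ * sb))}

/-- The closed domain of the arguments. -/
def DV (d R rH : ℝ) : Set Vv :=
  {v | v.1 ∈ Metric.cthickening d B1 ∧ ‖v.2.1.1‖ ≤ R ∧ ‖v.2.1.2‖ ≤ R ∧ ‖v.2.2.1‖ ≤ rH ∧
    ‖v.2.2.2‖ ≤ d}

/-! ### The two-parameter family of circles -/

def He : ℝ := √(1276 / 625)
def fD (M H : ℝ) : ℝ := 59 / 25 + 6 / (5 * M) - M ^ 2 - H ^ 2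
def fN (M H : ℝ) : ℝ := 12 / (5 * M) + M ^ 2 - H ^ 2
def fK (M H : ℝ) : ℝ := √((fN M H * (M ^ 2 - H ^ 2) + 4 - (41 / 25 - fD M H) ^ 2) / 4)
def fq (M H x : ℝ) : ℝ := (M + H * x) ^ 2 + 2 * M * (M + H * x) + fN M H
def fc (M H : ℝ) : ℝ := (4 - fD M H - (M - 3 / 5) ^ 2) / 2
def fx (M H φ : ℝ) : ℝ × ℝ :=
  ((4 - fD M H - (M - 3 / 5 + H * Real.cos φ) ^ 2) / 2,
    H * Real.sin φ * √(fq M H (Real.cos φ)) / 2)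

/-- The parameter box. -/
abbrev PB (δ : ℝ) : Type := ↥(Icc (1 - δ) 1 ×ˢ Icc (0 : ℝ) He)

end Pool.Agent.MP_1ba41f_an.S2
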