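import Mathlib
import Pool.Agent.MP_1ba41f_an.S2.Geo
import Pool.Agent.MP_1ba41f_an.S2.CV.End

/-! The top level: tori, gluing, covering, the main statement. -/

noncomputable section
open Set Complex

namespace Pool.Agent.MP_1ba41f_an.S2

/-- The six families of arcs: encounter part (`true`) and long part (`false`) of three letters. -/
def pcs (a S : ℝ) (enc : Xi × ℂ → En) (arc : Xi × ℂ → Az) (ξ : Fin 3 → ℝ → Xi)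
    (T : Fin 3 → ℝ → ℝ) (j : Fin 3 × Bool) (x : ℝ × ℝ) : ℂ × ℂ :=
  if j.2 then (physE a (enc (ξ j.1 x.1, ((x.2 * S : ℝ) : ℂ)))).1
  else (physA (arc (ξ j.1 x.1, ((x.2 * T j.1 x.1 : ℝ) : ℂ)))).1

/-- Three families of centre data and lengths along a circle. -/
structure Fam3 (η : ℝ) (K : Set (Xi × ℂ)) (arc : Xi × ℂ → Az) (ξ : Fin 3 → ℝ → Xi)
    (T : Fin 3 → ℝ → ℝ) : Prop where
  ana : ∀ j, AnalyticOnNhd ℝ (ξ j) univ ∧ AnalyticOnNhd ℝ (T j) univ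
  per : ∀ j θ, ξ j (θ + 2 * Real.pi) = ξ j θ ∧ T j (θ + 2 * Real.pi) = T j θ
  mem : ∀ j θ, (ξ j θ, (T j θ : ℂ)) ∈ K ∧ RealXi (ξ j θ) ∧ 0 < T j θ ∧ η + η ^ 2 < (ξ j θ 2).re
  fin : ∀ j θ, arc (ξ j θ, T j θ) 0 ≠ 0 ∧ arc (ξ j θ, T j θ) 4 ≠ 0 ∧
    1 ≤ (arc (ξ j θ, T j θ) 8 - arc (ξ j θ, 0) 8).re
  free : ∀ j, ∀ s ∈ Icc 0 (T j 0), arc (ξ j 0, s) 0 ≠ 0 ∧ arc (ξ j 0, s) 4 ≠ 0

/-- The three families fit together. -/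
structure Match (w : ℝ) (arc : Xi × ℂ → Az) (ξ : Fin 3 → ℝ → Xi) (T : Fin 3 → ℝ → ℝ) : Prop where
  m1 : ∀ θ, ξ 0 (-θ) = mirXi 1 (ξ 0 θ)
  m2 : ∀ θ, ξ 1 θ = mirXi (-1) (ξ 2 θ)
  m3 : ∀ θ, Rot (mir (physA (arc (ξ 1 θ, T 1 θ)))) (physA (arc (ξ 0 θ, T 0 θ)))
  m4 : ∀ θ, Rot (mir (physA (arc (ξ 2 (-θ - w), T 2 (-θ - w))))) (physA (arc (ξ 2 θ, T 2 θ)))

/-- GLUE: matched families give a solution. -/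
def GlueStmt : Prop :=
  ∀ (a e η w g S : ℝ) (K : Set (Xi × ℂ)) (enc : Xi × ℂ → En) (arc : Xi × ℂ → Az)
    (ξ : Fin 3 → ℝ → Xi) (T : Fin 3 → ℝ → ℝ), 0 < a → a < 1 → 0 < e → 0 < η → η < 1 → DioW w g →
    Half a e η K S enc arc → Fam3 η K arc ξ T → Match w arc ξ T →
    (∃ θ, ξ 0 θ 4 ≠ ξ 0 θ 5) → (∃ θ, ξ 2 θ 4 ≠ ξ 2 θ 5) →
    Att ![1, e * a, e * (1 - a)] (area (Img ![1, e * a, e * (1 - a)] (pcs a S enc arc ξ T)))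

/-- A family of half arcs close to the limit family on the largest circle. -/
structure CovFam (σ M μ δ c0 sa S : ℝ) (s1 : ℝ → ℝ) (q w w2 w3 : ℝ × ℝ → ℂ) : Prop where
  spos : 0 < S
  ce : ContinuousOn q (univ ×ˢ Icc 0 S) ∧ ContinuousOn w (univ ×ˢ Icc 0 S)
  ca : ContinuousOn w2 (univ ×ˢ Icc 0 sa) ∧ ContinuousOn w3 (univ ×ˢ Icc 0 sa)
  join : ∀ φ, q (φ, S) = w2 (φ, 0) ^ 2 ∧ q (φ, S) + w (φ, S) ^ 2 = w3 (φ, 0) ^ 2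
  enc : ∀ φ, ∃ (A R ρ : ℝ) (ep em : ℂ), 0 < A ∧ ‖ep‖ = 1 ∧ ‖em‖ = 1 ∧
    ‖ep - eb σ σ (fK M He) (r2c (fx M He φ))‖ ≤ μ ∧
    ‖em - eb σ (-σ) (fK M He) (r2c (fx M He φ))‖ ≤ μ ∧
    (∀ s ∈ Icc 0 S, ‖q (φ, s) - (fx M He φ).1‖ ≤ μ ∧ ‖w (φ, s)‖ ≤ μ ∧
      ‖w (φ, s) - A * (ep * Real.exp s - em * Real.exp (-s))‖ ≤ μ * A * Real.sinh s) ∧
    0 < R ∧ R ≤ μ ∧ c0 ≤ ρ ∧ ρ ≤ 1 / c0 ∧ ∀ e, 0 < e → ∀ s ∈ Icc 0 sa, s ≤ s1 e →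
      ‖w3 (φ, s) ^ 2 - w2 (φ, s) ^ 2 - (R + s * ρ) * ep ^ 2‖ ≤ μ * (R + s) + e * s
  near : ∀ φ, ∀ s ∈ Icc 0 sa, ∃ τ2 τ3 : ℝ, 0 ≤ τ2 ∧ 0 ≤ τ3 ∧ τ2 + τ3 = s ∧
    ‖t2b σ (fK 1 He) (r2c (fx 1 He φ)) τ2 - t3b σ (fK 1 He) (r2c (fx 1 He φ)) τ3‖ ≤ δ ∧
    ‖w2 (φ, s) - w2b σ (fK 1 He) (r2c (fx 1 He φ)) τ2‖ ≤ δ ∧
    ‖w3 (φ, s) - w3b σ (fK 1 He) (r2c (fx 1 He φ)) τ3‖ ≤ δ

/-- The family meets the complex line of `x`. -/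
def Hits (sa S : ℝ) (q w w2 w3 : ℝ × ℝ → ℂ) (x : ℂ × ℂ) : Prop :=
  ∃ φ, (∃ s ∈ Icc 0 S, x.2 * q (φ, s) = x.1 * (q (φ, s) + w (φ, s) ^ 2)) ∨
    ∃ s ∈ Icc 0 sa, x.2 * w2 (φ, s) ^ 2 = x.1 * w3 (φ, s) ^ 2

/-- COVER: the two families and their mirror images meet every complex line. -/
def CoverStmt : Prop :=
  ∀ (s1 : ℝ → ℝ) (c0 : ℝ), (∀ e, 0 < e → 0 < s1 e) → 0 < c0 →
    ∃ sa δ : ℝ, 0 < sa ∧ 0 < δ ∧ ∀ Mb : ℝ, Mb < 1 → ∃ μ : ℝ, 0 < μ ∧ ∀ M ∈ Icc (1 - δ) Mb,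
      ∀ (S : ℝ) (q w w2 w3 q' w' w2' w3' : ℝ × ℝ → ℂ),
        CovFam 1 M μ δ c0 sa S s1 q w w2 w3 → CovFam (-1) M μ δ c0 sa S s1 q' w' w2' w3' →
        ∀ x : ℂ × ℂ, x ≠ 0 → Hits sa S q w w2 w3 x ∨ Hits sa S q w w2 w3 (cj x) ∨
          Hits sa S q' w' w2' w3' x ∨ Hits sa S q' w' w2' w3' (cj x)

/-- TORUS: the family of invariant circles with a counterterm, in terms of half arcs. -/
def TorusStmt : Prop :=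
  ∃ (s1 : ℝ → ℝ) (c0 : ℝ), (∀ e, 0 < e → 0 < s1 e) ∧ 0 < c0 ∧ ∀ sa δ1 : ℝ, 0 < sa → 0 < δ1 →
    ∃ δ : ℝ, 0 < δ ∧ δ ≤ δ1 ∧ δ ≤ 1 / 10 ∧ ∃ (om : PB δ → ℝ) (chi : PB δ → ℝ → ℝ),
      Continuous om ∧ (∀ p, om p = -Real.pi ↔ p.1.1 = 1) ∧ (∀ p, Continuous (chi p)) ∧
      ∀ w g η μ : ℝ, DioW w g → 0 < η → 0 < μ → ∃ da e0 : ℝ, 0 < da ∧ 0 < e0 ∧
        ∀ a e : ℝ, |a - 5 / 8| < da → 0 < e → e < e0 →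
          ∃ (η' S : ℝ) (K : Set (Xi × ℂ)) (enc : Xi × ℂ → En) (arc : Xi × ℂ → Az)
            (ξ : PB δ → Fin 3 → ℝ → Xi) (T : PB δ → Fin 3 → ℝ → ℝ) (sig : PB δ → ℝ),
            0 < η' ∧ η' < 1 ∧ Half a e η' K S enc arc ∧ Continuous sig ∧ (∀ p, |sig p| ≤ η) ∧
            (∀ j, Continuous (fun x : PB δ × ℝ => ξ x.1 j x.2) ∧
              Continuous fun x : PB δ × ℝ => T x.1 j x.2) ∧
            ∀ p, Fam3 η' K arc (ξ p) (T p) ∧ (om p = w + 2 * sig p → Match w arc (ξ p) (T p)) ∧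
              (p.1.2 = 0 → ∀ j θ, ξ p j θ = ξ p j 0 ∧ T p j θ = T p j 0) ∧
              (∀ j, j ≠ 1 → ∀ φ,
                ‖ξ p j (chi p φ) 4 -
                  eb (sg j) (sg j) (fK p.1.1 p.1.2) (r2c (fx p.1.1 p.1.2 φ))‖ ≤ μ ∧
                ‖ξ p j (chi p φ) 5 -
                  eb (sg j) (-sg j) (fK p.1.1 p.1.2) (r2c (fx p.1.1 p.1.2 φ))‖ ≤ μ) ∧
              (∀ j θ, sa ≤ T p j θ) ∧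
              (p.1.2 = He → ∀ j, j ≠ 1 → CovFam (sg j) p.1.1 μ δ1 c0 sa S s1
                (fun x => enc (ξ p j (chi p x.1), x.2) 0) (fun x => enc (ξ p j (chi p x.1), x.2) 2)
                (fun x => arc (ξ p j (chi p x.1), x.2) 0) fun x => arc (ξ p j (chi p x.1), x.2) 4)

/-- The main statement. -/
def MainStmt : Prop :=
  ∃ δ : ℝ, 0 < δ ∧ ∀ m : Fin 3 → ℝ, 0 < m 0 → 0 < m 1 → |m 2 / m 1 - 3 / 5| < δ → m 1 < δ * m 0 →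
    ∀ A : ℝ, 0 < A → A ≤ Real.pi → Att m A

end Pool.Agent.MP_1ba41f_an.S2
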