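import Pool.Agent.MP_1ba41f_an.S2.SpecK

/-! The reflection and the real structure of the integrable limit. -/

noncomputable section
open Set Complex
open scoped ComplexConjugate

namespace Pool.Agent.MP_1ba41f_an.S2

namespace AlgM

theorem sq_real {z : ℂ} (h : conj z = z) (hp : 0 < z.re) :
    ∃ s : ℝ, 0 < s ∧ sq z = s ∧ z = (s : ℂ) ^ 2 := by
  obtain ⟨x, rfl⟩ := conj_eq_iff_real.1 h
  rw [ofReal_re] at hp
  refine ⟨√x, Real.sqrt_pos.2 hp, ?_, by rw [← ofReal_pow, Real.sq_sqrt hp.le]⟩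
  rw [Real.sqrt_eq_rpow, ofReal_cpow hp.le, sq]
  norm_num

theorem sq_sq {s : ℝ} (hs : 0 < s) : sq ((s : ℂ) ^ 2) = s := by
  obtain ⟨t, ht, h1, h2⟩ := sq_real (z := (s : ℂ) ^ 2) (by simp)
    (by rw [← ofReal_pow, ofReal_re]; positivity)
  rw [h1, (pow_left_inj₀ hs.le ht.le two_ne_zero).1 (by exact_mod_cast h2)]

variable (σ : ℝ) (κ : ℂ) (m : C2)

theorem eta_G : bEta κ (Gm m) = bEta κ m := by simp [bEta, Gm]
theorem D_G : bD κ (Gm m) = bD κ m := by rw [bD, eta_G]; rfl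
theorem s_G : bs κ (Gm m) = bs κ m := by rw [bs, D_G]; rfl
theorem xi_G : bxi κ (Gm m) = bxi κ m := by rw [bxi, eta_G]; rfl
theorem L_G : bL κ (Gm m) = bL κ m := by rw [bL, xi_G, D_G]; rfl
theorem K_G : bK κ (Gm m) = bK κ m := by rw [bK, eta_G]; rfl
theorem G_G : bG σ κ (Gm m) = bG (-σ) κ m := by
  rw [bG, xi_G, s_G, L_G]
  simp [bG, Gm]
theorem G2_G : bG2 σ κ (Gm m) = bG2 (-σ) κ m := by rw [bG2, G_G]; rfl
theorem S_G : bS σ κ (Gm m) = -bS (-σ) κ m := by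
  rw [bS, eta_G, G_G, G2_G, s_G, bS]
  push_cast
  ring
theorem X_G : bX σ κ (Gm m) = bX (-σ) κ m := by rw [bX, G_G, D_G]; rfl
theorem Y_G : bY σ κ (Gm m) = -bY (-σ) κ m := by
  rw [bY, eta_G, G_G, G2_G, s_G, D_G, bY]
  push_cast
  ring
theorem v3_G : bv3 σ κ (Gm m) = -bv3t (-σ) κ m := by
  rw [bv3, S_G, G_G, bv3t, show (Gm m).1 = m.1 from rfl]
  ring
theorem v2_G : bv2 σ κ (Gm m) = -bv2t (-σ) κ m := by
  rw [bv2, eta_G, s_G, v3_G, bv2t]
  push_cast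
  ring
theorem PP_G : PP σ κ (Gm m) = Gm (PP (-σ) κ m) := by
  rw [PP, G2_G, X_G, Y_G, neg_div]
  rfl

theorem qN_G : qN (Gm m) = qN m := by simp [qN, Gm]
theorem qG_G : qG κ (Gm m) = qG κ m := by rw [qG, qG2, qN_G]; rfl
theorem qD_G : qD κ (Gm m) = qD κ m := by rw [qD, qG_G, qX, qN_G]; rfl
theorem qEta_G : qEta σ κ (Gm m) = qEta (-σ) κ m := by
  rw [qEta, qG_G, qs, qD_G, qG2, qY, qN_G]
  simp [qEta, Gm, qs, qG2, qY, neg_div]
theorem QQ_G : QQ σ κ (Gm m) = Gm (QQ (-σ) κ m) := by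
  rw [QQ, qG_G, qs, qD_G, qEta_G]
  simp [QQ, Gm, qs, neg_div]

theorem ok_G (h : OkM κ m) : OkM κ (Gm m) := by
  obtain ⟨h1, h2, h3, h4, h5, h6⟩ := h
  refine ⟨h1, by rwa [D_G], by rwa [L_G], by simpa [Gm] using h4, by rwa [D_G, K_G], fun σ hσ => ?_⟩
  rw [X_G, G_G, G2_G, D_G]
  exact h6 _ (by rcases hσ with rfl | rfl <;> simp)

variable {κ m}

/-- the real structure in the chart `m` -/
theorem real (hκ : κ.im = 0) (hm : RealC2 m) (hD : 0 < (bD κ m).re) :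
    conj (bD κ m) = bD κ m ∧ conj (bK κ m) = bK κ m ∧ conj (bs κ m) = bs κ m ∧
      0 < (bs κ m).re ∧ conj (bG σ κ m) = bG σ κ m ∧ conj (bG2 σ κ m) = bG2 σ κ m ∧
      conj (bS σ κ m) = bS σ κ m ∧ conj (bX σ κ m) = bX σ κ m ∧ conj (bY σ κ m) = bY σ κ m ∧
      conj (bv3 σ κ m) = bv3t σ κ m ∧ conj (bv2 σ κ m) = bv2t σ κ m := by
  have k := conj_eq_iff_im.2 hκ
  have m1 := conj_eq_iff_im.2 hm.1
  have m2 := conj_eq_iff_im.2 hm.2
  have e : conj (bEta κ m) = bEta κ m := by simp [bEta, k, m1, m2, map_ofNat]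
  have D : conj (bD κ m) = bD κ m := by simp [bD, e, m1, map_ofNat]
  obtain ⟨s, s0, hs, -⟩ := sq_real D hD
  have s1 : conj (bs κ m) = bs κ m := by rw [bs, hs, conj_ofReal]
  have G : conj (bG σ κ m) = bG σ κ m := by simp [bG, bL, bxi, k, m2, e, D, s1, map_ofNat]
  have G2 : conj (bG2 σ κ m) = bG2 σ κ m := by simp [bG2, k, G, map_ofNat]
  have S : conj (bS σ κ m) = bS σ κ m := by simp [bS, e, G, G2, s1, map_ofNat]
  have v3 : conj (bv3 σ κ m) = bv3t σ κ m := by simp [bv3, bv3t, S, G, m1, sub_eq_add_neg]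
  exact ⟨D, by simp [bK, e, m1, map_ofNat], s1, by rwa [bs, hs], G, G2, S,
    by simp [bX, G, D, map_ofNat], by simp [bY, e, G, G2, D, s1, map_ofNat], v3,
    by simp [bv2, bv2t, e, s1, v3, map_ofNat]⟩

theorem conj_Fc (hκ : κ.im = 0) (hm : RealC2 m) (hD : 0 < (bD κ m).re) :
    conj (Fc σ κ m) = -((1 + I * bv2t σ κ m) ^ 2 * (bS σ κ m + I * bG σ κ m) ^ 2) /
      (4 * (1 + bG2 σ κ m)) := by
  obtain ⟨-, -, -, -, G, G2, S, -, -, -, v2⟩ := real σ hκ hm hD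
  simp [Fc, G, G2, S, v2, map_ofNat]

theorem Fc_G (hκ : κ.im = 0) (hm : RealC2 m) (hD : 0 < (bD κ m).re) :
    Fc σ κ (Gm m) = conj (Fc (-σ) κ m) := by
  rw [conj_Fc _ hκ hm hD, Fc, v2_G, S_G, G_G, G2_G]
  ring

theorem Fc_unit (hB : AlgBStmt) (hσ : σ = 1 ∨ σ = -1) (hκ : κ.im = 0) (hm : RealC2 m)
    (h : OkM κ m) : Fc σ κ m * conj (Fc σ κ m) = 1 := by
  obtain ⟨-, ⟨r, -, k2, -, g2, -⟩, -, hs, -⟩ := hB σ κ m hσ h
  have r0 := h.1
  have g0 := (h.2.2.2.2.2 σ hσ).2.2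
  rw [kk2, r, div_eq_one_iff_eq r0] at k2
  rw [aG2, div_eq_iff (by simp)] at g2
  change sq m.1 * sq m.1 = m.1 at r
  change 2 - sq m.1 * bv2 σ κ m * (sq m.1 * bv2t σ κ m) = m.1 at k2
  change sq m.1 * (sq m.1 * bv2 σ κ m) - sq m.1 * (sq m.1 * bv2t σ κ m) = _ at g2
  have a1 : m.1 * ((1 - I * bv2 σ κ m) * (1 + I * bv2t σ κ m)) = 2 * (1 + bG2 σ κ m) := by
    linear_combination (-1 : ℂ) * k2 - I * g2 +
      (I * (bv2 σ κ m - bv2t σ κ m) - bv2 σ κ m * bv2t σ κ m) * r -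
      (m.1 * bv2 σ κ m * bv2t σ κ m + 2 * bG2 σ κ m) * I_sq
  have a2 : (bS σ κ m - I * bG σ κ m) * (bS σ κ m + I * bG σ κ m) = 2 * m.1 := by
    linear_combination hs - bG σ κ m ^ 2 * I_sq
  rw [conj_Fc _ hκ hm h.2.1, Fc, div_mul_div_comm, div_eq_one_iff_eq (by simp [g0])]
  calc _ = ((1 - I * bv2 σ κ m) * (1 + I * bv2t σ κ m) *
        ((bS σ κ m - I * bG σ κ m) * (bS σ κ m + I * bG σ κ m))) ^ 2 := by ring
    _ = (2 * (m.1 * ((1 - I * bv2 σ κ m) * (1 + I * bv2t σ κ m)))) ^ 2 := by rw [a2]; ring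
    _ = _ := by rw [a1]; ring

theorem norm_one {a : ℂ} (h : a * conj a = 1) : ‖a‖ = 1 := by
  rw [mul_conj, normSq_eq_norm_sq] at h
  exact (pow_eq_one_iff_of_nonneg (norm_nonneg a) two_ne_zero).1 (by exact_mod_cast h)

theorem real_QQ (hκ : κ.im = 0) (hm : RealC2 m) (hD : 0 < (qD κ m).re) : RealC2 (QQ σ κ m) := by
  have k := conj_eq_iff_im.2 hκ
  have m1 := conj_eq_iff_im.2 hm.1
  have m2 := conj_eq_iff_im.2 hm.2
  have N : conj (qN m) = qN m := by simp [qN, m1, m2]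
  have G2 : conj (qG2 m) = qG2 m := by simp [qG2, N, m1, map_ofNat]
  have G : conj (qG κ m) = qG κ m := by simp [qG, k, G2, map_ofNat]
  have D : conj (qD κ m) = qD κ m := by simp [qD, qX, G, N, map_ofNat]
  obtain ⟨s, -, hs, -⟩ := sq_real D hD
  have s1 : conj (qs κ m) = qs κ m := by rw [qs, hs, conj_ofReal]
  have e : conj (qEta σ κ m) = qEta σ κ m := by
    simp [qEta, qY, G, G2, D, s1, N, m2, map_ofNat]
  exact ⟨conj_eq_iff_im.1 (by simp [QQ, D, e, map_ofNat]),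
    conj_eq_iff_im.1 (by simp [QQ, D, e, G, k, s1, map_ofNat])⟩

theorem exp_arccos : exp (Real.arccos (3 / 5) * I) = (3 + 4 * I) / 5 := by
  rw [exp_mul_I, ← ofReal_cos, ← ofReal_sin, Real.cos_arccos (by norm_num) (by norm_num),
    Real.sin_arccos, show (1 - (3 / 5 : ℝ) ^ 2) = (4 / 5) ^ 2 by norm_num,
    Real.sqrt_sq (by norm_num)]
  push_cast
  ring

theorem xi45 (a σ : ℝ) (c h r P k k' : ℂ) :
    xiOf a σ c h r P k k' 4 =
      io σ * sq (z0 ![c, h, r, P, 0, 0]) * sq (zz a σ ![c, h, r, P, 0, 0] k) ∧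
    xiOf a σ c h r P k k' 5 =
      io σ * sq (z0 ![c, h, r, P, 0, 0]) * sq (zz a (-σ) ![c, h, r, P, 0, 0] k') := by
  have h1 : z0 ![c, h, r, P, 1, 1] = z0 ![c, h, r, P, 0, 0] := by simp [z0, n2]
  have h2 : ∀ τ k, zz a τ ![c, h, r, P, 1, 1] k = zz a τ ![c, h, r, P, 0, 0] k := fun τ k => by
    simp [zz, wh, kh, e2, n2, yy, yt]
  rw [xiOf, h1, h2, h2]
  simp

end AlgM

open AlgM in
theorem algM (hB : AlgBStmt) (_hQ : AlgQStmt) : AlgMStmt := by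
  refine ⟨fun σ κ m => ⟨PP_G σ κ m, QQ_G σ κ m, qD_G κ m, ok_G κ m⟩, fun σ κ m hκ hm h => ?_,
    fun κ z hκ hz h => ?_, fun σ x hσ hκ hm h hx => ?_⟩
  · obtain ⟨-, -, s, s0, G, G2, S, X, Y, v3, v2⟩ := real σ hκ hm h.2.1
    have m1 := conj_eq_iff_im.2 hm.1
    refine ⟨⟨conj_eq_iff_im.1 (by simp [PP, G2, X]), conj_eq_iff_im.1 (by simp [PP, Y, X])⟩,
      conj_eq_iff_im.1 S, conj_eq_iff_im.1 ?_, conj_eq_iff_im.1 G, conj_eq_iff_im.1 s, s0,
      v2.symm, v3.symm⟩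
    simp [bS2, ← v2, m1, map_ofNat, add_comm]
  · obtain ⟨-, hD, -, o1, o2, n1, n2, -⟩ := h
    have rQ := fun σ => real_QQ σ hκ hz hD
    have u1 : Fz 1 κ z * conj (Fz 1 κ z) = 1 := Fc_unit 1 hB (.inl rfl) hκ (rQ 1) o1
    have u2 : Fz (-1) κ z * conj (Fz (-1) κ z) = 1 := Fc_unit (-1) hB (.inr rfl) hκ (rQ _) o2
    have g1 : Fz 1 κ (Gm z) = conj (Fz (-1) κ z) := by
      rw [Fz, QQ_G, Fc_G _ hκ (rQ _) o2.2.1, Fz]
    have g2 : Fz (-1) κ (Gm z) = conj (Fz 1 κ z) := by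
      rw [Fz, QQ_G, neg_neg, Fc_G _ hκ (rQ _) o1.2.1, neg_neg, Fz]
    have c1 : conj (Fz 1 κ z) = (Fz 1 κ z)⁻¹ := eq_inv_of_mul_eq_one_right u1
    have c2 : conj (Fz (-1) κ z) = (Fz (-1) κ z)⁻¹ := eq_inv_of_mul_eq_one_right u2
    have g3 : gz κ (Gm z) = gz κ z := by
      rw [gz, bet, g1, g2, c1, c2, inv_div_inv, gz, bet]
    have nc : ‖((-7 + 24 * I) / 25 : ℂ)‖ = 1 := norm_one (by
      simp only [map_div₀, map_add, map_neg, map_mul, map_ofNat, conj_I]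
      linear_combination (-576 / 625 : ℂ) * I_sq)
    have nw : ‖Fz (-1) κ z / Fz 1 κ z * ((-7 + 24 * I) / 25)‖ = 1 := by
      rw [norm_mul, norm_div, norm_one u1, norm_one u2, nc]
      norm_num
    have gr : (gz κ z).im = 0 := by
      rw [gz, bet, sub_im, sub_im, ofReal_im, ofReal_im, mul_im, log_re, nw]
      simp
    have ne : ‖exp (I * gz κ z)‖ = 1 := by simp [norm_exp, gr]
    refine ⟨rQ, gr, fun j => ?_, by simp [mid, sg, gj, g1], ?_⟩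
    · fin_cases j <;> simp [mid, sg, gj, norm_one u1, norm_one u2, ne]
    · have e2 : exp (I * gz κ z) * exp (I * gz κ z) = Fz (-1) κ z / Fz 1 κ z := by
        have e0 : I * gz κ z + I * gz κ z = 2 * Real.pi * I +
            log (Fz (-1) κ z / Fz 1 κ z * ((-7 + 24 * I) / 25)) -
            (Real.arccos (3 / 5) * I + Real.arccos (3 / 5) * I) := by
          rw [gz, bet]
          linear_combination (-log (Fz (-1) κ z / Fz 1 κ z * ((-7 + 24 * I) / 25))) * I_sq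
        have e1 : (3 + 4 * I) / 5 * ((3 + 4 * I) / 5) = ((-7 + 24 * I) / 25 : ℂ) := by
          linear_combination (16 / 25 : ℂ) * I_sq
        rw [← exp_add, e0, exp_sub, exp_add, exp_add, exp_arccos, exp_two_pi_mul_I, one_mul,
          exp_log (norm_ne_zero_iff.1 (by rw [nw]; exact one_ne_zero)), e1,
          mul_div_cancel_right₀ _ (norm_ne_zero_iff.1 (by rw [nc]; exact one_ne_zero))]
      have e3 : conj (exp (I * gz κ z)) = (exp (I * gz κ z))⁻¹ := by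
        rw [← exp_conj, map_mul, conj_I, conj_eq_iff_im.2 gr, neg_mul, exp_neg]
      have e4 := exp_ne_zero (I * gz κ z)
      simp only [mid, sg, gj, if_true, show (2 : Fin 3) ≠ 0 by decide, if_false, g1, g3, map_mul,
        c1, c2, e3]
      rw [eq_div_iff n1] at e2
      field_simp
      linear_combination e2
  · obtain ⟨⟨k, en, w, -⟩, -⟩ := hB σ x.1 x.2 hσ h
    obtain ⟨D, K, -⟩ := real σ hκ hm h.2.1
    have k0 := conj_eq_iff_im.2 hκ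
    have m2 := conj_eq_iff_im.2 hm.2
    have n0 : n2 (yB x) = (5 / 8 * x.1) ^ 2 + (5 / 8 * x.2.2) ^ 2 := rfl
    have nr : conj (n2 (yB x)) = n2 (yB x) := by simp [n0, k0, m2, map_ofNat]
    obtain ⟨t, t0, ht, ht2⟩ := sq_real nr hx.2.2.2.1
    have tc : (t : ℂ) ≠ 0 := by exact_mod_cast t0.ne'
    change e2 (5 / 8) (yB x) * n2 (yB x) = _ at en
    have er : conj (e2 (5 / 8) (yB x)) = e2 (5 / 8) (yB x) :=
      mul_right_cancel₀ (b := n2 (yB x)) (by rw [ht2]; exact pow_ne_zero _ tc) (by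
        have := congrArg conj en
        rw [map_mul, nr, map_add, map_pow, D, K] at this
        rw [this, en])
    obtain ⟨u, u0, hu, hu2⟩ := sq_real er hx.2.2.2.2.1
    have q1 : sq (x.1 ^ 2 + x.2.2 ^ 2) = (8 / 5 * t : ℝ) := by
      rw [← sq_sq (by positivity)]
      congr 1
      push_cast
      linear_combination (64 / 25 : ℂ) * (ht2 - n0)
    have q2 : sq (bD x.1 x.2 + bK x.1 x.2 ^ 2) = (u * t : ℝ) := by
      rw [← sq_sq (by positivity), ← en, hu2, ht2]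
      push_cast
      rw [mul_pow]
    have z1 : z0 (yB x) = (x.1 - I * x.2.2) / sq (x.1 ^ 2 + x.2.2 ^ 2) := by
      rw [z0, ht, q1]
      change (5 / 8 * x.1 - I * (5 / 8 * x.2.2)) / _ = _
      push_cast
      field_simp
    have z2 : ∀ τ : ℝ, zz (5 / 8) τ (yB x) 0 =
        (bs x.1 x.2 - I * τ * bK x.1 x.2) / sq (bD x.1 x.2 + bK x.1 x.2 ^ 2) := fun τ => by
      rw [zz, ht, hu, q2, ← k, ← w, ofReal_mul]
    rw [eb, eb, ← z1, ← z2, ← z2]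
    exact xi45 _ _ _ _ _ _ _ _

end Pool.Agent.MP_1ba41f_an.S2
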