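import Pool.Agent.MP_1ba41f_an.S2.Ana1

/-! Regular sets are open and the formulas are holomorphic: centre data, matched quantities. -/

noncomputable section
open Set Complex Filter Topology

namespace Pool.Agent.MP_1ba41f_an.S2

namespace Ana

variable {E : Type} [NormedAddCommGroup E] [NormedSpace ℂ E] {x : E}

theorem d_vec6 {f0 f1 f2 f3 f4 f5 : E → ℂ} (h0 : DifferentiableAt ℂ f0 x)
    (h1 : DifferentiableAt ℂ f1 x) (h2 : DifferentiableAt ℂ f2 x) (h3 : DifferentiableAt ℂ f3 x)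
    (h4 : DifferentiableAt ℂ f4 x) (h5 : DifferentiableAt ℂ f5 x) :
    DifferentiableAt ℂ (fun y => ![f0 y, f1 y, f2 y, f3 y, f4 y, f5 y]) x :=
  differentiableAt_pi.2 fun i => by fin_cases i <;> assumption

theorem d_vec9 {f0 f1 f2 f3 f4 f5 f6 f7 f8 : E → ℂ} (h0 : DifferentiableAt ℂ f0 x)
    (h1 : DifferentiableAt ℂ f1 x) (h2 : DifferentiableAt ℂ f2 x) (h3 : DifferentiableAt ℂ f3 x)
    (h4 : DifferentiableAt ℂ f4 x) (h5 : DifferentiableAt ℂ f5 x) (h6 : DifferentiableAt ℂ f6 x)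
    (h7 : DifferentiableAt ℂ f7 x) (h8 : DifferentiableAt ℂ f8 x) :
    DifferentiableAt ℂ (fun y => ![f0 y, f1 y, f2 y, f3 y, f4 y, f5 y, f6 y, f7 y, f8 y]) x :=
  differentiableAt_pi.2 fun i => by fin_cases i <;> assumption

theorem d_app {n : ℕ} {f : E → Fin n → ℂ} (h : DifferentiableAt ℂ f x) (i : Fin n) :
    DifferentiableAt ℂ (fun y => f y i) x := differentiableAt_pi.1 h i

/-! ### Centre data with a complex mass ratio -/

def e2C (a : ℂ) (y : Xi) : ℂ := 2 * (y 1 - yy y * yt y / 2 + 1 / y 2) / (a * (1 - a))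
def khC (a : ℂ) (y : Xi) (k : ℂ) : ℂ :=
  y 2 * (((-2 * y 1 - (1 - a) * k) / a - k) / 2 - (2 * a - 1) * e2C a y / 2)
def zzC (a : ℂ) (τ : ℝ) (y : Xi) (k : ℂ) : ℂ :=
  (sq (e2C a y * n2 y - khC a y k ^ 2) - I * τ * khC a y k) / (sq (e2C a y) * sq (n2 y))
def xiC (a : ℂ) (σ : ℝ) (y : Xi) : Xi :=
  ![y 0, y 1, y 2, y 3, io σ * sq (z0 y) * sq (zzC a σ y (y 4)),
    io σ * sq (z0 y) * sq (zzC a (-σ) y (y 5))]
def collC (a : ℂ) (y : Xi) (w : ℂ) : Az :=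
  ![sq (y 2), sq (y 2), sq (y 2) * (yy y - (1 - a) * (sq (e2C a y) * w ^ 2)),
    sq (y 2) * (yt y - (1 - a) * (sq (e2C a y) / w ^ 2)),
    sq (y 2), sq (y 2), sq (y 2) * (yy y + a * (sq (e2C a y) * w ^ 2)),
    sq (y 2) * (yt y + a * (sq (e2C a y) / w ^ 2)), 0]

theorem xi_eq (a σ : ℝ) (y : Xi) : xiY a σ y = xiC a σ y := rfl

theorem coll_eq (a σ : ℝ) (y : Xi) : coll a (xiY a σ y) =
    collC a y (io σ * sq (z0 y) * sq (zzC a σ y (y 4))) := rfl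

/-- The first conditions. -/
def Ok0 (a : ℂ) (y : Xi) : Prop :=
  a ≠ 0 ∧ 1 - a ≠ 0 ∧ 0 < (y 2).re ∧ 0 < (n2 y).re ∧ 0 < (e2C a y).re ∧ 0 < (z0 y).re

theorem ok0 {a : ℝ} {y : Xi} (h : OkX a y) : Ok0 a y :=
  ⟨ofReal_ne_zero.2 h.1.ne', by exact_mod_cast (sub_pos.2 h.2.1).ne', h.2.2.1, h.2.2.2.1,
    h.2.2.2.2.1, h.2.2.2.2.2.1⟩

section X

variable {a k : E → ℂ} {y : E → Xi}

@[fun_prop]
theorem d_yy (hy : DifferentiableAt ℂ y x) (h : y x 2 ≠ 0) :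
    DifferentiableAt ℂ (fun t => yy (y t)) x := by
  unfold yy
  fun_prop (disch := assumption)

@[fun_prop]
theorem d_yt (hy : DifferentiableAt ℂ y x) (h : y x 2 ≠ 0) :
    DifferentiableAt ℂ (fun t => yt (y t)) x := by
  unfold yt
  fun_prop (disch := assumption)

@[fun_prop]
theorem d_n2 (hy : DifferentiableAt ℂ y x) : DifferentiableAt ℂ (fun t => n2 (y t)) x := by
  unfold n2
  fun_prop

@[fun_prop]
theorem d_z0 (hy : DifferentiableAt ℂ y x) (h : 0 < (n2 (y x)).re) :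
    DifferentiableAt ℂ (fun t => z0 (y t)) x := by
  have := sq_ne (ne_of_re h)
  unfold z0
  fun_prop (disch := assumption)

@[fun_prop]
theorem d_e2 (ha : DifferentiableAt ℂ a x) (hy : DifferentiableAt ℂ y x) (h : Ok0 (a x) (y x)) :
    DifferentiableAt ℂ (fun t => e2C (a t) (y t)) x := by
  have := ne_of_re h.2.2.1
  have := mul_ne_zero h.1 h.2.1
  unfold e2C
  fun_prop (disch := assumption)

@[fun_prop]
theorem d_kh (ha : DifferentiableAt ℂ a x) (hy : DifferentiableAt ℂ y x)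
    (hk : DifferentiableAt ℂ k x) (h : Ok0 (a x) (y x)) :
    DifferentiableAt ℂ (fun t => khC (a t) (y t) (k t)) x := by
  have := h.1
  unfold khC
  fun_prop (disch := assumption)

theorem d_rad (ha : DifferentiableAt ℂ a x) (hy : DifferentiableAt ℂ y x)
    (hk : DifferentiableAt ℂ k x) (h : Ok0 (a x) (y x)) :
    DifferentiableAt ℂ (fun t => e2C (a t) (y t) * n2 (y t) - khC (a t) (y t) (k t) ^ 2) x := by
  fun_prop (disch := assumption)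

theorem d_zz (τ : ℝ) (ha : DifferentiableAt ℂ a x) (hy : DifferentiableAt ℂ y x)
    (hk : DifferentiableAt ℂ k x) (h : Ok0 (a x) (y x))
    (hr : 0 < (e2C (a x) (y x) * n2 (y x) - khC (a x) (y x) (k x) ^ 2).re) :
    DifferentiableAt ℂ (fun t => zzC (a t) τ (y t) (k t)) x := by
  have := h.2.2.2.1
  have := h.2.2.2.2.1
  have := mul_ne_zero (sq_ne (ne_of_re h.2.2.2.2.1)) (sq_ne (ne_of_re h.2.2.2.1))
  unfold zzC
  fun_prop (disch := assumption)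

theorem d_dir (σ τ : ℝ) (ha : DifferentiableAt ℂ a x) (hy : DifferentiableAt ℂ y x)
    (hk : DifferentiableAt ℂ k x) (h : Ok0 (a x) (y x))
    (hr : 0 < (e2C (a x) (y x) * n2 (y x) - khC (a x) (y x) (k x) ^ 2).re)
    (hz : 0 < (zzC (a x) τ (y x) (k x)).re) :
    DifferentiableAt ℂ (fun t => io σ * sq (z0 (y t)) * sq (zzC (a t) τ (y t) (k t))) x :=
  d_mul (d_mul (differentiableAt_const _) (d_sq (d_z0 hy h.2.2.2.1) h.2.2.2.2.2))
    (d_sq (d_zz τ ha hy hk h hr) hz)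

theorem d_coll (ha : DifferentiableAt ℂ a x) (hy : DifferentiableAt ℂ y x)
    (hk : DifferentiableAt ℂ k x) (h : Ok0 (a x) (y x)) (hw : k x ≠ 0) :
    DifferentiableAt ℂ (fun t => collC (a t) (y t) (k t)) x := by
  have := h.2.2.1
  have := ne_of_re h.2.2.1
  have := h.2.2.2.2.1
  have := pow_ne_zero 2 hw
  unfold collC
  refine d_vec9 ?_ ?_ ?_ ?_ ?_ ?_ ?_ ?_ ?_ <;> fun_prop (disch := assumption)

theorem d_xi {σ b : ℝ} (hσ : σ = 1 ∨ σ = -1) (ha : DifferentiableAt ℂ a x)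
    (hy : DifferentiableAt ℂ y x) (hb : a x = b) (h : OkX b (y x)) :
    DifferentiableAt ℂ (fun t => xiC (a t) σ (y t)) x := by
  have h0 : Ok0 (a x) (y x) := hb ▸ ok0 h
  have hσ' : -σ = 1 ∨ -σ = -1 := by rcases hσ with rfl | rfl <;> simp
  exact d_vec6 (d_app hy 0) (d_app hy 1) (d_app hy 2) (d_app hy 3)
    (d_dir σ σ ha hy (d_app hy 4) h0 (hb ▸ h.2.2.2.2.2.2.1) (hb ▸ (h.2.2.2.2.2.2.2.2 σ hσ).1))
    (d_dir σ (-σ) ha hy (d_app hy 5) h0 (hb ▸ h.2.2.2.2.2.2.2.1)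
      (hb ▸ (h.2.2.2.2.2.2.2.2 (-σ) hσ').2))

end X

theorem io_ne (σ : ℝ) : io σ ≠ 0 := by
  unfold io
  split_ifs
  exacts [I_ne_zero, one_ne_zero]

/-- Restriction to a real first variable. -/
theorem c_real {F G : Type} [NormedAddCommGroup F] [NormedSpace ℂ F] [NormedAddCommGroup G]
    [NormedSpace ℂ G] {f : ℂ × F → G} {p : ℝ × F} (h : DifferentiableAt ℂ f ((p.1 : ℂ), p.2)) :
    ContinuousAt (fun q : ℝ × F => f ((q.1 : ℂ), q.2)) p :=
  ContinuousAt.comp (f := fun q : ℝ × F => ((q.1 : ℂ), q.2)) h.continuousAt (by fun_prop)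

theorem ev_real {F : Type} [NormedAddCommGroup F] [NormedSpace ℂ F] {f : ℂ × F → ℂ} {p : ℝ × F}
    (h : DifferentiableAt ℂ f ((p.1 : ℂ), p.2)) (h0 : 0 < (f ((p.1 : ℂ), p.2)).re) :
    ∀ᶠ q : ℝ × F in 𝓝 p, 0 < (f ((q.1 : ℂ), q.2)).re :=
  continuousAt_const.eventually_lt (continuous_re.continuousAt.comp (c_real h)) h0

theorem ev_OkX {p : ℝ × (Fin 6 → ℂ)} (h : OkX p.1 p.2) : ∀ᶠ q in 𝓝 p, OkX q.1 q.2 := by
  have h1 : DifferentiableAt ℂ (fun t : ℂ × Xi => t.1) ((p.1 : ℂ), p.2) := differentiableAt_fst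
  have h2 : DifferentiableAt ℂ (fun t : ℂ × Xi => t.2) ((p.1 : ℂ), p.2) := differentiableAt_snd
  have h0 := ok0 h
  have h9 : ∀ τ : ℝ, τ = 1 ∨ τ = -1 → ∀ᶠ q : ℝ × (Fin 6 → ℂ) in 𝓝 p,
      0 < (zz q.1 τ q.2 (q.2 4)).re ∧ 0 < (zz q.1 τ q.2 (q.2 5)).re := fun τ hτ =>
    (ev_real (d_zz τ h1 h2 (d_app h2 4) h0 h.2.2.2.2.2.2.1) (h.2.2.2.2.2.2.2.2 τ hτ).1).and
      (ev_real (d_zz τ h1 h2 (d_app h2 5) h0 h.2.2.2.2.2.2.2.1) (h.2.2.2.2.2.2.2.2 τ hτ).2)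
  filter_upwards [continuousAt_const.eventually_lt continuousAt_fst h.1,
    continuousAt_fst.eventually_lt continuousAt_const h.2.1, ev_real (d_app h2 2) h.2.2.1,
    ev_real (d_n2 h2) h.2.2.2.1, ev_real (d_e2 h1 h2 h0) h.2.2.2.2.1,
    ev_real (d_z0 h2 h.2.2.2.1) h.2.2.2.2.2.1,
    ev_real (d_rad h1 h2 (d_app h2 4) h0) h.2.2.2.2.2.2.1,
    ev_real (d_rad h1 h2 (d_app h2 5) h0) h.2.2.2.2.2.2.2.1, h9 1 (Or.inl rfl),
    h9 (-1) (Or.inr rfl)] with q a1 a2 a3 a4 a5 a6 a7 a8 a9 a10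
  refine ⟨a1, a2, a3, a4, a5, a6, a7, a8, fun τ hτ => ?_⟩
  rcases hτ with rfl | rfl
  exacts [a9, a10]

/-! ### Matched quantities -/

/-- The conditions that do not involve the letter. -/
def Ok1 (z : Az) : Prop :=
  z 0 ≠ 0 ∧ z 1 ≠ 0 ∧ z 4 ≠ 0 ∧ z 5 ≠ 0 ∧ 0 < (kk2 z).re ∧ 0 < (kk3 z).re ∧
    0 < (1 - kk3 z * aG3 z ^ 2).re ∧ 1 - hX z ≠ 0 ∧ 1 + sq (kk2 z) * aG2 z ≠ 0

theorem ok1 {j : Fin 3} {k : ℂ} {z : Az} (h : OkA j k z) : Ok1 z :=
  ⟨h.1, h.2.1, h.2.2.1, h.2.2.2.1, h.2.2.2.2.1, h.2.2.2.2.2.1, h.2.2.2.2.2.2.1,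
    h.2.2.2.2.2.2.2.1, h.2.2.2.2.2.2.2.2.1⟩

theorem ee3_ne {z : Az} (h : Ok1 z) : ee3 z ≠ 0 := sq_ne (ne_of_re h.2.2.2.2.2.2.1)

section A

variable {κ a : E → ℂ} {z : E → Az}

@[fun_prop]
theorem d_rr2 (hz : DifferentiableAt ℂ z x) : DifferentiableAt ℂ (fun t => rr2 (z t)) x := by
  unfold rr2
  fun_prop

@[fun_prop]
theorem d_rr3 (hz : DifferentiableAt ℂ z x) : DifferentiableAt ℂ (fun t => rr3 (z t)) x := by
  unfold rr3
  fun_prop

@[fun_prop]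
theorem d_kk2 (hz : DifferentiableAt ℂ z x) (h : Ok1 (z x)) :
    DifferentiableAt ℂ (fun t => kk2 (z t)) x := by
  have : rr2 (z x) ≠ 0 := mul_ne_zero h.1 h.2.1
  unfold kk2
  fun_prop (disch := assumption)

@[fun_prop]
theorem d_kk3 (hz : DifferentiableAt ℂ z x) (h : Ok1 (z x)) :
    DifferentiableAt ℂ (fun t => kk3 (z t)) x := by
  have : rr3 (z x) ≠ 0 := mul_ne_zero h.2.2.1 h.2.2.2.1
  unfold kk3
  fun_prop (disch := assumption)

@[fun_prop]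
theorem d_aG2 (hz : DifferentiableAt ℂ z x) : DifferentiableAt ℂ (fun t => aG2 (z t)) x := by
  unfold aG2
  fun_prop

@[fun_prop]
theorem d_aS2 (hz : DifferentiableAt ℂ z x) : DifferentiableAt ℂ (fun t => aS2 (z t)) x := by
  unfold aS2
  fun_prop

@[fun_prop]
theorem d_aG3 (hz : DifferentiableAt ℂ z x) : DifferentiableAt ℂ (fun t => aG3 (z t)) x := by
  unfold aG3
  fun_prop

@[fun_prop]
theorem d_aS3 (hz : DifferentiableAt ℂ z x) : DifferentiableAt ℂ (fun t => aS3 (z t)) x := by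
  unfold aS3
  fun_prop

@[fun_prop]
theorem d_aA2 (hz : DifferentiableAt ℂ z x) (h : Ok1 (z x)) :
    DifferentiableAt ℂ (fun t => aA2 (z t)) x := by
  unfold aA2
  fun_prop (disch := assumption)

@[fun_prop]
theorem d_aA2t (hz : DifferentiableAt ℂ z x) (h : Ok1 (z x)) :
    DifferentiableAt ℂ (fun t => aA2t (z t)) x := by
  unfold aA2t
  fun_prop (disch := assumption)

@[fun_prop]
theorem d_aA3 (hz : DifferentiableAt ℂ z x) (h : Ok1 (z x)) :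
    DifferentiableAt ℂ (fun t => aA3 (z t)) x := by
  unfold aA3
  fun_prop (disch := assumption)

@[fun_prop]
theorem d_aA3t (hz : DifferentiableAt ℂ z x) (h : Ok1 (z x)) :
    DifferentiableAt ℂ (fun t => aA3t (z t)) x := by
  unfold aA3t
  fun_prop (disch := assumption)

theorem d_ee0 (hz : DifferentiableAt ℂ z x) (h : Ok1 (z x)) :
    DifferentiableAt ℂ (fun t => 1 - kk3 (z t) * aG3 (z t) ^ 2) x := by
  fun_prop (disch := assumption)

@[fun_prop]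
theorem d_ee3 (hz : DifferentiableAt ℂ z x) (h : Ok1 (z x)) :
    DifferentiableAt ℂ (fun t => ee3 (z t)) x := d_sq (d_ee0 hz h) h.2.2.2.2.2.2.1

@[fun_prop]
theorem d_hX (hz : DifferentiableAt ℂ z x) (h : Ok1 (z x)) :
    DifferentiableAt ℂ (fun t => hX (z t)) x := by
  have := mul_ne_zero (two_ne_zero (α := ℂ)) (ee3_ne h)
  unfold hX
  fun_prop (disch := assumption)

@[fun_prop]
theorem d_hY (hz : DifferentiableAt ℂ z x) (h : Ok1 (z x)) :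
    DifferentiableAt ℂ (fun t => hY (z t)) x := by
  have := mul_ne_zero (mul_ne_zero (two_ne_zero (α := ℂ)) I_ne_zero) (ee3_ne h)
  unfold hY
  fun_prop (disch := assumption)

theorem d_UV (hz : DifferentiableAt ℂ z x) (h : Ok1 (z x)) :
    DifferentiableAt ℂ (fun t => UV (z t)) x := by
  have := h.2.2.2.2.1
  have := h.2.2.2.2.2.2.2.1
  unfold UV
  fun_prop (disch := assumption)

@[fun_prop]
theorem d_Fh (hz : DifferentiableAt ℂ z x) (h : Ok1 (z x)) :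
    DifferentiableAt ℂ (fun t => Fh (z t)) x := by
  have := h.2.2.2.2.1
  have := ee3_ne h
  have := mul_ne_zero (two_ne_zero (α := ℂ)) h.2.2.2.2.2.2.2.2
  unfold Fh
  fun_prop (disch := assumption)

theorem d_ea0 (hz : DifferentiableAt ℂ z x) (h : Ok1 (z x)) : DifferentiableAt ℂ
    (fun t => -(1 - kk3 (z t) * rr3 (z t) + I * sq (kk3 (z t)) * aS3 (z t)) / ee3 (z t)) x := by
  have := h.2.2.2.2.2.1
  have := ee3_ne h
  fun_prop (disch := assumption)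

theorem d_q0 (hz : DifferentiableAt ℂ z x) (h : Ok1 (z x)) :
    DifferentiableAt ℂ (fun t => 1 + sq (kk2 (z t)) * aG2 (z t)) x := by
  have := h.2.2.2.2.1
  fun_prop (disch := assumption)

theorem d_fm (j : Fin 3) (hκ : DifferentiableAt ℂ κ x) (hz : DifferentiableAt ℂ z x)
    (h : OkA j (κ x) (z x)) :
    DifferentiableAt ℂ (fun t => Fh (z t) / mid j (κ t) (UV (z t))) x :=
  d_div (d_Fh hz (ok1 h)) (d_mid j hκ (d_UV hz (ok1 h)) h.2.2.2.2.2.2.2.2.2.1)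
    (mid_ne j h.2.2.2.2.2.2.2.2.2.1)

theorem d_LL (j : Fin 3) (ha : DifferentiableAt ℂ a x) (hκ : DifferentiableAt ℂ κ x)
    (hz : DifferentiableAt ℂ z x) (h : OkA j (κ x) (z x)) : DifferentiableAt ℂ (fun t =>
      ![-(a t * kk2 (z t) + (1 - a t) * kk3 (z t)) / 2, LK (z t), (UV (z t)).1, (UV (z t)).2,
        LS (mid j (κ t) (UV (z t))) (z t), LP (mid j (κ t) (UV (z t))) (z t)]) x := by
  have h1 := ok1 h
  have k2 := h1.2.2.2.2.1
  have k3 := h1.2.2.2.2.2.1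
  have s2 := sq_ne (ne_of_re k2)
  have s3 := sq_ne (ne_of_re k3)
  have hx : DifferentiableAt ℂ (fun t => xph (mid j (κ t) (UV (z t))) (z t)) x :=
    d_mul (differentiableAt_const _) (d_log (d_fm j hκ hz h) (Or.inl h.2.2.2.2.2.2.2.2.2.2.1))
  have he : DifferentiableAt ℂ (fun t => Eap (z t)) x :=
    d_mul (differentiableAt_const _) (d_log (d_ea0 hz h1) (Or.inl h.2.2.2.2.2.2.2.2.2.2.2))
  have q2 := d_sq (d_kk2 hz h1) k2
  have q3 := d_sq (d_kk3 hz h1) k3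
  refine d_vec6 (by fun_prop (disch := assumption))
    (d_div (differentiableAt_const _) (q3.fun_pow 3) (pow_ne_zero 3 s3)) (d_UV hz h1).fst
    (d_UV hz h1).snd ((d_div hx q2 s2).fun_add (d_div he q3 s3)) ?_
  exact (d_div (hx.fun_sub (d_mul q2 (d_aS2 hz))) (q2.fun_pow 3) (pow_ne_zero 3 s2)).fun_sub
    (d_div (he.fun_sub (d_mul q3 (d_aS3 hz))) (q3.fun_pow 3) (pow_ne_zero 3 s3))

theorem ev_OkA (j : Fin 3) (hκ : DifferentiableAt ℂ κ x) (hz : DifferentiableAt ℂ z x)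
    (h : OkA j (κ x) (z x)) : ∀ᶠ t in 𝓝 x, OkA j (κ t) (z t) := by
  have h1 := ok1 h
  filter_upwards [ev_ne (d_app hz 0) h.1, ev_ne (d_app hz 1) h.2.1, ev_ne (d_app hz 4) h.2.2.1,
    ev_ne (d_app hz 5) h.2.2.2.1, ev_re (d_kk2 hz h1) h.2.2.2.2.1,
    ev_re (d_kk3 hz h1) h.2.2.2.2.2.1, ev_re (d_ee0 hz h1) h.2.2.2.2.2.2.1,
    ev_ne ((d_hX hz h1).const_sub 1) h.2.2.2.2.2.2.2.1, ev_ne (d_q0 hz h1) h.2.2.2.2.2.2.2.2.1,
    ev_OkZ hκ (d_UV hz h1) h.2.2.2.2.2.2.2.2.2.1, ev_re (d_fm j hκ hz h) h.2.2.2.2.2.2.2.2.2.2.1,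
    ev_re (d_ea0 hz h1) h.2.2.2.2.2.2.2.2.2.2.2] with t a1 a2 a3 a4 a5 a6 a7 a8 a9 a10 a11 a12
  exact ⟨a1, a2, a3, a4, a5, a6, a7, a8, a9, a10, a11, a12⟩

end A

end Ana

open Ana in
theorem anaS : AnaStmt := by
  refine ⟨anaM, anaZ, ⟨isOpen_iff_mem_nhds.2 fun _ hp => ev_OkX hp, fun σ hσ =>
    ⟨fun p hp => ?_, fun a y hy => ?_⟩⟩, fun j => ⟨isOpen_iff_mem_nhds.2 fun _ hx =>
      ev_OkA j differentiableAt_fst differentiableAt_snd hx, fun p hp => ?_, fun a p hp => ?_⟩⟩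
  · have hp : OkX p.1 p.2 := hp
    have h1 : DifferentiableAt ℂ (fun t : ℂ × Xi => t.1) ((p.1 : ℂ), p.2) := differentiableAt_fst
    have h2 : DifferentiableAt ℂ (fun t : ℂ × Xi => t.2) ((p.1 : ℂ), p.2) := differentiableAt_snd
    have h0 := ok0 hp
    have hz := (hp.2.2.2.2.2.2.2.2 σ hσ).1
    have hw := d_dir σ σ h1 h2 (d_app h2 4) h0 hp.2.2.2.2.2.2.1 hz
    have hc := d_coll h1 h2 hw h0 (mul_ne_zero (mul_ne_zero (io_ne σ)
      (sq_ne (ne_of_re hp.2.2.2.2.2.1))) (sq_ne (ne_of_re hz)))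
    exact ((c_real (d_xi hσ h1 h2 rfl hp)).prodMk ((c_real hc).prodMk
      (c_real (d_e2 h1 h2 h0)))).continuousWithinAt
  · exact (d_xi (a := fun _ => (a : ℂ)) (y := fun t => t) hσ (differentiableAt_const _)
      differentiableAt_id rfl hy).differentiableWithinAt
  · have h2 : DifferentiableAt ℂ (fun t : ℂ × ℂ × Az => t.2) ((p.1 : ℂ), p.2) :=
      differentiableAt_snd
    exact (c_real (d_LL (x := ((p.1 : ℂ), p.2)) (a := fun t => t.1) (κ := fun t => t.2.1)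
      (z := fun t => t.2.2) j differentiableAt_fst h2.fst h2.snd hp)).continuousWithinAt
  · exact (d_LL (a := fun _ => (a : ℂ)) j (differentiableAt_const _) differentiableAt_fst
      differentiableAt_snd hp).differentiableWithinAt

end Pool.Agent.MP_1ba41f_an.S2
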