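import Mathlib.Analysis.Convex.Measure
import Mathlib.MeasureTheory.Integral.Indicator
import Mathlib.MeasureTheory.Measure.Lebesgue.VolumeOfBalls
import Mathlib.Analysis.InnerProductSpace.Calculus
import Pool.Agent.Lib.helper79.Brouwer
import Pool.Agent.MP_1ba41f_an.Shape

/-! The area of the image of finitely many differentiable pieces depends continuously on a
parameter. -/

set_option autoImplicit false

noncomputable section
open MeasureTheory Filter Topology Set Metric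
open scoped Pointwise

namespace Pool.Agent.MP_1ba41f_an.S2

abbrev E3 : Type := EuclideanSpace ℝ (Fin 3)

namespace Area

/-- the tube lemma for maps that are continuous on a product with a compact set -/
theorem tube {P Y Z : Type} [TopologicalSpace P] [TopologicalSpace Y] [TopologicalSpace Z]
    {K : Set Y} (hK : IsCompact K) {f : P × Y → Z} (hf : ContinuousOn f (univ ×ˢ K)) {V : Set Z}
    (hV : IsOpen V) {p₀ : P} (h : ∀ y ∈ K, f (p₀, y) ∈ V) :
    ∀ᶠ p in 𝓝 p₀, ∀ y ∈ K, f (p, y) ∈ V := by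
  have := hK.eventually_forall_of_forall_eventually (x₀ := p₀)
    (P := fun p y => y ∈ K → f (p, y) ∈ V) fun y hy => by
      have h1 := (hf (p₀, y) ⟨mem_univ _, hy⟩).eventually (hV.mem_nhds (h y hy))
      rw [eventually_nhdsWithin_iff] at h1
      exact h1.mono fun z hz hz' => hz ⟨mem_univ _, hz'⟩
  exact this.mono fun p hp y hy => hp y hy hy

section Vol

variable {P E : Type} [TopologicalSpace P] [NormedAddCommGroup E] [NormedSpace ℝ E]
  [FiniteDimensional ℝ E]

/-- a regular value stays in the image under small continuous perturbations -/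
theorem stable {F : P → E → E} {K : Set E} (hc : ContinuousOn (Function.uncurry F) (univ ×ˢ K))
    {p₀ : P} {x₀ : E} (hK : K ∈ 𝓝 x₀) {A : E →L[ℝ] E} (hA : HasFDerivAt (F p₀) A x₀)
    (h0 : A.det ≠ 0) : ∀ᶠ p in 𝓝 p₀, F p₀ x₀ ∈ F p '' K := by
  let e : E ≃L[ℝ] (Fin (Module.finrank ℝ E) → ℝ) := ContinuousLinearEquiv.ofFinrankEq (by simp)
  let B := (A.toContinuousLinearEquivOfDetNeZero h0).trans e
  have hB : ∀ z, e (A (B.symm z)) = z := fun z => B.apply_symm_apply z
  have h1 : HasFDerivAt (fun z => e (F p₀ (x₀ + B.symm z) - F p₀ x₀))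
      (ContinuousLinearMap.id ℝ _) 0 := by
    have a1 : HasFDerivAt (fun z => x₀ + B.symm z) (B.symm : _ →L[ℝ] E) 0 :=
      (B.symm.hasFDerivAt).const_add x₀
    have a2 : HasFDerivAt (F p₀) A (x₀ + B.symm 0) := by simpa using hA
    have a3 := e.hasFDerivAt.comp 0 ((a2.comp 0 a1).sub_const (F p₀ x₀))
    refine a3.congr_fderiv ?_
    ext1 z
    exact hB z
  have h2 : ∀ᶠ z in 𝓝 (0 : Fin (Module.finrank ℝ E) → ℝ),
      ‖e (F p₀ (x₀ + B.symm z) - F p₀ x₀) - z‖ ≤ 1 / 8 * ‖z‖ ∧ x₀ + B.symm z ∈ K := by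
    refine Eventually.and ?_ ?_
    · simpa using h1.isLittleO.def (c := 1 / 8) (by norm_num)
    · have : ContinuousAt (fun z => x₀ + B.symm z) 0 := by fun_prop
      exact this.preimage_mem_nhds (by simpa using hK)
  obtain ⟨r, hr, h3⟩ := nhds_basis_closedBall.eventually_iff.1 h2
  have hm : ∀ z : Fin (Module.finrank ℝ E) → ℝ, ‖z‖ ≤ 1 → r • z ∈ closedBall 0 r := fun z hz => by
    rw [mem_closedBall_zero_iff, norm_smul, Real.norm_of_nonneg hr.le]
    nlinarith
  have hco : ContinuousOn (fun q : P × (Fin (Module.finrank ℝ E) → ℝ) =>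
      F q.1 (x₀ + B.symm (r • q.2))) (univ ×ˢ closedBall 0 1) :=
    hc.comp (f := fun q : P × (Fin (Module.finrank ℝ E) → ℝ) => (q.1, x₀ + B.symm (r • q.2)))
      (by fun_prop) fun q hq => ⟨mem_univ _, (h3 (hm _ (mem_closedBall_zero_iff.1 hq.2))).2⟩
  have h4 : ∀ᶠ p in 𝓝 p₀, ∀ z ∈ closedBall (0 : Fin (Module.finrank ℝ E) → ℝ) 1,
      ‖e (F p (x₀ + B.symm (r • z)) - F p₀ (x₀ + B.symm (r • z)))‖ < r / 8 := by
    have h5 : ContinuousOn (fun q : P × (Fin (Module.finrank ℝ E) → ℝ) =>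
        ‖e (F q.1 (x₀ + B.symm (r • q.2)) - F p₀ (x₀ + B.symm (r • q.2)))‖)
        (univ ×ˢ closedBall 0 1) := by
      refine (e.continuous.comp_continuousOn (hco.sub ?_)).norm
      exact hco.comp (f := fun q : P × (Fin (Module.finrank ℝ E) → ℝ) => (p₀, q.2)) (by fun_prop)
        fun q hq => ⟨mem_univ _, hq.2⟩
    exact tube (isCompact_closedBall _ _) h5 isOpen_Iio (V := Iio (r / 8)) fun z _ => by
      simpa using hr
  filter_upwards [h4] with p hp
  obtain ⟨z, hz, h7⟩ := Pool.Agent.Lib.helper79.exists_zero_of_near_id'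
    (Φ := fun z => r⁻¹ • e (F p (x₀ + B.symm (r • z)) - F p₀ x₀))
    ((e.continuous.comp_continuousOn ((hco.comp (f := fun z => (p, z)) (by fun_prop)
      fun z hz => ⟨mem_univ _, hz⟩).sub (continuousOn_const (c := F p₀ x₀)))).const_smul r⁻¹)
    fun z hz => by
      have b1 := (h3 (hm z hz)).1
      have b2 := hp z (mem_closedBall_zero_iff.2 hz)
      have b3 := mem_closedBall_zero_iff.1 (hm z hz)
      have : r⁻¹ • e (F p (x₀ + B.symm (r • z)) - F p₀ x₀) - z = r⁻¹ •
          (e (F p (x₀ + B.symm (r • z)) - F p₀ (x₀ + B.symm (r • z))) +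
            (e (F p₀ (x₀ + B.symm (r • z)) - F p₀ x₀) - r • z)) := by
        rw [← add_sub_assoc, ← map_add, sub_add_sub_cancel, smul_sub, smul_smul,
          inv_mul_cancel₀ hr.ne', one_smul]
      rw [this, norm_smul, Real.norm_of_nonneg (inv_nonneg.2 hr.le), inv_mul_le_iff₀ hr]
      linarith [norm_add_le (e (F p (x₀ + B.symm (r • z)) - F p₀ (x₀ + B.symm (r • z))))
        (e (F p₀ (x₀ + B.symm (r • z)) - F p₀ x₀) - r • z)]
  refine ⟨_, (h3 (hm z hz)).2, sub_eq_zero.1 (e.map_eq_zero_iff.1 ?_)⟩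
  exact (smul_eq_zero.1 h7).resolve_left (inv_ne_zero hr.ne')

variable [MeasurableSpace E] [BorelSpace E] [FirstCountableTopology P]

/-- continuity of the volume of a finite union of images -/
theorem vol (μ : Measure E) [μ.IsAddHaarMeasure] {ι : Type} [Finite ι] {F : ι → P → E → E}
    {K B : Set E} (hK : IsCompact K) (hK' : Convex ℝ K) (hB : IsCompact B)
    (hc : ∀ i, ContinuousOn (Function.uncurry (F i)) (univ ×ˢ K))
    (hd : ∀ i p, DifferentiableOn ℝ (F i p) K) (hm : ∀ i p, F i p '' K ⊆ B) :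
    Continuous fun p => (μ (⋃ i, F i p '' K)).toReal := by
  have hcp : ∀ p, IsCompact (⋃ i, F i p '' K) := fun p => isCompact_iUnion fun i =>
    hK.image_of_continuousOn (hd i p).continuousOn
  refine continuous_iff_continuousAt.2 fun p₀ => ?_
  refine (ENNReal.tendsto_toReal (hcp p₀).measure_lt_top.ne).comp ?_
  refine tendsto_measure_of_ae_tendsto_indicator (𝓝 p₀) (hcp p₀).measurableSet
    (fun p => (hcp p).measurableSet) hB.measurableSet hB.measure_lt_top.ne
    (Eventually.of_forall fun p => iUnion_subset (hm · p)) ?_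
  have h1 : ∀ i, μ (F i p₀ '' (K ∩ frontier K)) = 0 := fun i =>
    addHaar_image_eq_zero_of_differentiableOn_of_addHaar_eq_zero μ
      ((hd i p₀).mono inter_subset_left) (measure_mono_null inter_subset_right (hK'.addHaar_frontier μ))
  have h2 : ∀ i, μ (F i p₀ '' {x | K ∈ 𝓝 x ∧ (fderiv ℝ (F i p₀) x).det = 0}) = 0 := fun i =>
    addHaar_image_eq_zero_of_det_fderivWithin_eq_zero μ
      (fun x hx => ((hd i p₀).differentiableAt hx.1).hasFDerivAt.hasFDerivWithinAt) fun x hx => hx.2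
  filter_upwards [ae_all_iff.2 fun i => measure_eq_zero_iff_ae_notMem.1 (h1 i),
    ae_all_iff.2 fun i => measure_eq_zero_iff_ae_notMem.1 (h2 i)] with v v1 v2
  by_cases hv : v ∈ ⋃ i, F i p₀ '' K
  · obtain ⟨i, x, hx, rfl⟩ := mem_iUnion.1 hv
    have hn : K ∈ 𝓝 x := by
      by_contra h
      exact v1 i ⟨x, ⟨hx, subset_closure hx, fun h' => h (mem_interior_iff_mem_nhds.1 h')⟩, rfl⟩
    filter_upwards [stable (hc i) hn ((hd i p₀).differentiableAt hn).hasFDerivAt
      fun h => v2 i ⟨x, ⟨hn, h⟩, rfl⟩] with p hp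
    exact iff_of_true (mem_iUnion.2 ⟨i, hp⟩) hv
  · have h3 : ∀ i, ∀ᶠ p in 𝓝 p₀, ∀ x ∈ K, F i p x ∈ ({v}ᶜ : Set E) := fun i =>
      tube hK (hc i) isOpen_compl_singleton fun x hx h => hv (mem_iUnion.2 ⟨i, x, hx, h⟩)
    filter_upwards [eventually_all.2 h3] with p hp
    refine iff_of_false (fun h => ?_) hv
    obtain ⟨i, x, hx, e⟩ := mem_iUnion.1 h
    exact hp i x hx e

end Vol

/-- the cone over a subset of the sphere of radius one half -/
def cone (A : Set E3) : Set E3 := {y | ∃ s ∈ Icc (0 : ℝ) 1, ∃ a ∈ A, (2 * s) • a = y}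

theorem area_eq {A : Set E3} (hA : IsClosed A) (h : ∀ a ∈ A, ‖a‖ = 1 / 2) :
    area A = 3 / 4 * (volume (cone A)).toReal := by
  have hm : MeasurableSet {x : sphere (0 : E3) 1 | (1 / 2 : ℝ) • (x : E3) ∈ A} :=
    (hA.preimage (f := fun x : sphere (0 : E3) 1 => (1 / 2 : ℝ) • (x : E3))
      (by fun_prop)).measurableSet
  have he : volume (Ioo (0 : ℝ) 1 • ((↑) '' {x : sphere (0 : E3) 1 |
      (1 / 2 : ℝ) • (x : E3) ∈ A} : Set E3)) = volume (cone A) := by
    refine le_antisymm (measure_mono ?_) ?_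
    · rintro _ ⟨s, hs, _, ⟨x, hx, rfl⟩, rfl⟩
      refine ⟨s, Ioo_subset_Icc_self hs, _, hx, ?_⟩
      rw [smul_smul]; congr 1; ring
    · have h0 : volume (sphere (0 : E3) 0 ∪ sphere (0 : E3) 1) = 0 :=
        measure_union_null (Measure.addHaar_sphere _ _ _) (Measure.addHaar_sphere _ _ _)
      refine (measure_mono ?_).trans ((measure_union_le (μ := volume) (Ioo (0 : ℝ) 1 •
        ((↑) '' {x : sphere (0 : E3) 1 | (1 / 2 : ℝ) • (x : E3) ∈ A} : Set E3))
        (sphere (0 : E3) 0 ∪ sphere (0 : E3) 1)).trans_eq (by rw [h0, add_zero]))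
      rintro _ ⟨s, hs, a, ha, rfl⟩
      have hn : ‖(2 * s) • a‖ = s := by
        rw [norm_smul, h a ha, Real.norm_of_nonneg (by linarith [hs.1])]; ring
      rcases hs.1.eq_or_lt with h0 | h0
      · exact Or.inr (Or.inl (by rw [mem_sphere_zero_iff_norm, hn, h0]))
      rcases hs.2.eq_or_lt with h1 | h1
      · exact Or.inr (Or.inr (by rw [mem_sphere_zero_iff_norm, hn, h1]))
      refine Or.inl ⟨s, ⟨h0, h1⟩, (2 : ℝ) • a, ⟨⟨(2 : ℝ) • a, ?_⟩, ?_, rfl⟩, ?_⟩
      · rw [mem_sphere_zero_iff_norm, norm_smul, h a ha]; norm_num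
      · show (1 / 2 : ℝ) • (2 : ℝ) • a ∈ A
        rwa [smul_smul, show (1 / 2 : ℝ) * 2 = 1 by norm_num, one_smul]
      · show s • (2 : ℝ) • a = _
        rw [smul_smul, mul_comm]
  rw [area, Measure.toSphere_apply' _ hm, he, ENNReal.toReal_mul]
  simp only [finrank_euclideanSpace, Fintype.card_fin, ENNReal.toReal_natCast]
  push_cast
  ring

/-- the box over a plane domain -/
def box (K : Set (ℝ × ℝ)) : Set E3 := {v | v 0 ∈ Icc (0 : ℝ) 1 ∧ (v 1, v 2) ∈ K}

theorem box_convex {K : Set (ℝ × ℝ)} (h : Convex ℝ K) : Convex ℝ (box K) :=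
  fun _ hx _ hy _ _ ha hb hab =>
    ⟨convex_Icc (0 : ℝ) 1 hx.1 hy.1 ha hb hab, h hx.2 hy.2 ha hb hab⟩

theorem box_compact {K : Set (ℝ × ℝ)} (h : IsCompact K) : IsCompact (box K) := by
  have : box K = (fun q : ℝ × ℝ × ℝ => (!₂[q.1, q.2.1, q.2.2] : E3)) '' (Icc 0 1 ×ˢ K) := by
    ext v
    constructor
    · intro hv
      refine ⟨(v 0, v 1, v 2), hv, ?_⟩
      ext i; fin_cases i <;> rfl
    · rintro ⟨q, hq, rfl⟩
      exact hq
  rw [this]
  exact (isCompact_Icc.prod h).image (by fun_prop)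

/-- the cone map -/
def cm (S : ℝ × ℝ → E3) (v : E3) : E3 := (2 * v 0) • S (v 1, v 2)

theorem cone_eq {ι : Type} (S : ι → ℝ × ℝ → E3) (K : Set (ℝ × ℝ)) :
    cone (⋃ i, S i '' K) = ⋃ i, cm (S i) '' box K := by
  ext y
  simp only [cone, mem_iUnion, mem_ofPred_eq]
  constructor
  · rintro ⟨s, hs, _, ⟨i, x, hx, rfl⟩, rfl⟩
    exact ⟨i, !₂[s, x.1, x.2], ⟨hs, hx⟩, rfl⟩
  · rintro ⟨i, v, hv, rfl⟩
    exact ⟨v 0, hv.1, _, ⟨i, _, hv.2, rfl⟩, rfl⟩

theorem cm_diff {S : ℝ × ℝ → E3} {K : Set (ℝ × ℝ)} (h : DifferentiableOn ℝ S K) :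
    DifferentiableOn ℝ (cm S) (box K) :=
  DifferentiableOn.smul (c := fun v : E3 => 2 * v 0) (by fun_prop)
    (h.comp (f := fun v : E3 => (v 1, v 2)) (by fun_prop) fun _ hv => hv.2)

end Area

open Area

/-- The area of a finite union of differentiable pieces is continuous in the parameter. -/
theorem area_cont {P ι : Type} [TopologicalSpace P] [FirstCountableTopology P] [Finite ι]
    {S : ι → P → ℝ × ℝ → E3} {K : Set (ℝ × ℝ)} (hK : IsCompact K) (hK' : Convex ℝ K)
    (hc : ∀ i, ContinuousOn (Function.uncurry (S i)) (univ ×ˢ K))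
    (hd : ∀ i p, DifferentiableOn ℝ (S i p) K) (hn : ∀ i p, ∀ x ∈ K, ‖S i p x‖ = 1 / 2) :
    Continuous fun p => area (⋃ i, S i p '' K) := by
  have e : ∀ p, area (⋃ i, S i p '' K) = 3 / 4 * (volume (⋃ i, cm (S i p) '' box K)).toReal :=
    fun p => by
      rw [area_eq (isCompact_iUnion fun i =>
        hK.image_of_continuousOn (hd i p).continuousOn).isClosed, cone_eq]
      intro a ha
      obtain ⟨i, x, hx, rfl⟩ := mem_iUnion.1 ha
      exact hn i p x hx
  simp only [e]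
  refine continuous_const.mul (vol volume (F := fun i p => cm (S i p)) (box_compact hK)
    (box_convex hK') (isCompact_closedBall 0 1) (fun i => ?_) (fun i p => cm_diff (hd i p)) ?_)
  · exact ContinuousOn.smul (f := fun q : P × E3 => 2 * q.2 0) (by fun_prop)
      ((hc i).comp (f := fun q : P × E3 => (q.1, q.2 1, q.2 2)) (by fun_prop)
        fun q hq => ⟨mem_univ _, hq.2.2⟩)
  · rintro i p _ ⟨v, hv, rfl⟩
    rw [mem_closedBall_zero_iff, cm, norm_smul, hn i p _ hv.2,
      Real.norm_of_nonneg (by linarith [hv.1.1])]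
    linarith [hv.1.2]

/-- Pieces that do not depend on the first variable have area zero. -/
theorem area_zero {ι : Type} [Finite ι] {S : ι → ℝ × ℝ → E3} {K : Set (ℝ × ℝ)} (hK : IsCompact K)
    (hd : ∀ i, DifferentiableOn ℝ (S i) K) (hn : ∀ i, ∀ x ∈ K, ‖S i x‖ = 1 / 2) (a : ℝ)
    (h : ∀ i, ∀ x ∈ K, (a, x.2) ∈ K ∧ S i (a, x.2) = S i x) : area (⋃ i, S i '' K) = 0 := by
  rw [area_eq (isCompact_iUnion fun i =>
    hK.image_of_continuousOn (hd i).continuousOn).isClosed fun y hy => by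
      obtain ⟨i, x, hx, rfl⟩ := mem_iUnion.1 hy
      exact hn i x hx, cone_eq]
  have h0 : volume {v : E3 | v 1 = a} = 0 := by
    let L : AffineSubspace ℝ E3 := AffineSubspace.comap
      (EuclideanSpace.proj (1 : Fin 3) : E3 →L[ℝ] ℝ).toLinearMap.toAffineMap
      (AffineSubspace.mk' a ⊥)
    have hL : ∀ v : E3, v ∈ L ↔ v 1 = a := fun v => by
      simp [L, AffineSubspace.mem_mk', sub_eq_zero]
    have := Measure.addHaar_affineSubspace (volume : Measure E3) L fun h => by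
      have h1 : (!₂[0, a + 1, 0] : E3) ∈ L := h ▸ AffineSubspace.mem_top _ _ _
      simpa using (hL _).1 h1
    exact measure_mono_null (fun v hv => (hL v).2 hv) this
  have : volume (⋃ i, cm (S i) '' box K) = 0 := measure_iUnion_null fun i => by
    refine measure_mono_null (t := cm (S i) '' (box K ∩ {v | v 1 = a})) ?_
      (addHaar_image_eq_zero_of_differentiableOn_of_addHaar_eq_zero _
        ((cm_diff (hd i)).mono inter_subset_left) (measure_mono_null inter_subset_right h0))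
    rintro _ ⟨v, hv, rfl⟩
    refine ⟨!₂[v 0, a, v 2], ⟨⟨hv.1, (h i _ hv.2).1⟩, rfl⟩, ?_⟩
    exact congrArg (fun y => (2 * v 0) • y) (h i _ hv.2).2
  rw [this]; simp

/-- The whole sphere has area `π`. -/
theorem area_full {A : Set E3} (h : ∀ a : E3, ‖a‖ = 1 / 2 → a ∈ A) : area A = Real.pi := by
  have : {x : sphere (0 : E3) 1 | (1 / 2 : ℝ) • (x : E3) ∈ A} = univ :=
    eq_univ_of_forall fun x => h _ (by rw [norm_smul, mem_sphere_zero_iff_norm.1 x.2]; norm_num)
  rw [area, this, Measure.toSphere_apply_univ, EuclideanSpace.volume_ball_fin_three,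
    ENNReal.toReal_mul, ENNReal.toReal_mul, ENNReal.toReal_ofReal (by positivity)]
  simp
  ring

end Pool.Agent.MP_1ba41f_an.S2
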