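import Pool.Agent.MP_1ba41f_an.S2.Area

/-! The shape as a function of the heliocentric positions; zeros on rectangles. -/

set_option autoImplicit false

noncomputable section
open MeasureTheory Filter Topology Set Metric

namespace Pool.Agent.MP_1ba41f_an.S2

/-- the shape of the configuration with positions `x, y` relative to the first body -/
def sh (m : Fin 3 → ℝ) (x : ℂ × ℂ) : E3 := shape m ![0, x.1, x.2]

namespace Hopf

theorem norm_wv (z1 z2 : ℂ) : ‖wv z1 z2‖ = (‖z1‖ ^ 2 + ‖z2‖ ^ 2) / 2 := by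
  rw [EuclideanSpace.norm_eq, Fin.sum_univ_three, Real.sqrt_eq_iff_mul_self_eq (by positivity)
    (by positivity)]
  simp only [wv, Real.norm_eq_abs, sq_abs, Complex.sq_norm, Complex.normSq_apply]
  simp
  ring

theorem wv_mul (l z1 z2 : ℂ) : wv (l * z1) (l * z2) = ‖l‖ ^ 2 • wv z1 z2 := by
  ext i
  fin_cases i <;> simp [wv, mul_pow, Complex.sq_norm, Complex.normSq_apply] <;> ring

/-- the normalised vector -/
def hp (z1 z2 : ℂ) : E3 := (2 * ‖wv z1 z2‖)⁻¹ • wv z1 z2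

theorem hp_mul {l : ℂ} (hl : l ≠ 0) (z1 z2 : ℂ) : hp (l * z1) (l * z2) = hp z1 z2 := by
  have h : 0 < ‖l‖ ^ 2 := by positivity
  rw [hp, hp, wv_mul, norm_smul, smul_smul, Real.norm_of_nonneg h.le]
  congr 1
  field_simp

theorem wv_pos {z1 z2 : ℂ} (h : z1 ≠ 0 ∨ z2 ≠ 0) : 0 < ‖wv z1 z2‖ := by
  rw [norm_wv]
  rcases h with h | h <;> positivity

variable {m : Fin 3 → ℝ}

/-- first coefficient -/
def k1 (m : Fin 3 → ℝ) : ℝ := √(m 0 * m 1 / (m 0 + m 1))

/-- second coefficient -/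
def k2 (m : Fin 3 → ℝ) : ℝ := √(m 2 * (m 0 + m 1) / (m 0 + m 1 + m 2))

/-- third coefficient -/
def k3 (m : Fin 3 → ℝ) : ℝ := m 1 / (m 0 + m 1)

theorem k1_ne (hm : ∀ i, 0 < m i) : (k1 m : ℂ) ≠ 0 := by
  have := hm 0; have := hm 1
  exact_mod_cast (Real.sqrt_pos.2 (by positivity)).ne'

theorem k2_ne (hm : ∀ i, 0 < m i) : (k2 m : ℂ) ≠ 0 := by
  have := hm 0; have := hm 1; have := hm 2
  exact_mod_cast (Real.sqrt_pos.2 (by positivity)).ne'

theorem shape_eq (hm : ∀ i, 0 < m i) (c : Fin 3 → ℂ) :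
    shape m c = hp (k1 m * (c 1 - c 0)) (k2 m * (c 2 - c 0 - k3 m * (c 1 - c 0))) := by
  have h : ((m 0 : ℂ) + m 1) ≠ 0 := by exact_mod_cast (add_pos (hm 0) (hm 1)).ne'
  have e : jac2 m c = k2 m * (c 2 - c 0 - k3 m * (c 1 - c 0)) := by
    rw [jac2, k2, k3]
    congr 1
    push_cast
    field_simp
    ring
  rw [shape, e]; rfl

theorem sh_eq (hm : ∀ i, 0 < m i) (x : ℂ × ℂ) :
    sh m x = hp (k1 m * x.1) (k2 m * (x.2 - k3 m * x.1)) := by
  rw [sh, shape_eq hm]; simp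

theorem ne (hm : ∀ i, 0 < m i) {x : ℂ × ℂ} (hx : x ≠ 0) :
    k1 m * x.1 ≠ 0 ∨ k2 m * (x.2 - k3 m * x.1) ≠ 0 := by
  by_contra h
  push Not at h
  have h1 : x.1 = 0 := (mul_eq_zero.1 h.1).resolve_left (k1_ne hm)
  have h2 := (mul_eq_zero.1 h.2).resolve_left (k2_ne hm)
  rw [h1, mul_zero, sub_zero] at h2
  exact hx (Prod.ext h1 h2)

theorem wv_diff : Differentiable ℝ fun z : ℂ × ℂ => wv z.1 z.2 := by
  have e : (fun z : ℂ × ℂ => wv z.1 z.2) = fun z : ℂ × ℂ => (!₂[(z.1.re ^ 2 + z.1.im ^ 2 -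
      (z.2.re ^ 2 + z.2.im ^ 2)) / 2, z.1.re * z.2.re + z.1.im * z.2.im,
      z.1.im * z.2.re - z.1.re * z.2.im] : E3) := by
    funext z
    ext i
    fin_cases i <;> simp [wv, Complex.sq_norm, Complex.normSq_apply] <;> ring
  rw [e, differentiable_euclidean]
  have a : Differentiable ℝ fun z : ℂ × ℂ => z.1.re := Complex.reCLM.differentiable.comp (by fun_prop)
  have b : Differentiable ℝ fun z : ℂ × ℂ => z.1.im := Complex.imCLM.differentiable.comp (by fun_prop)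
  have c : Differentiable ℝ fun z : ℂ × ℂ => z.2.re := Complex.reCLM.differentiable.comp (by fun_prop)
  have d : Differentiable ℝ fun z : ℂ × ℂ => z.2.im := Complex.imCLM.differentiable.comp (by fun_prop)
  intro i
  fin_cases i <;> simp <;> fun_prop

end Hopf

open Hopf

variable {m : Fin 3 → ℝ}

theorem shape_eq_sh (hm : ∀ i, 0 < m i) (c : Fin 3 → ℂ) :
    shape m c = sh m (c 1 - c 0, c 2 - c 0) := by
  rw [shape_eq hm, sh_eq hm]

theorem sh_smul (hm : ∀ i, 0 < m i) {l : ℂ} (hl : l ≠ 0) (x : ℂ × ℂ) : sh m (l • x) = sh m x := by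
  rw [sh_eq hm, sh_eq hm, ← hp_mul hl (k1 m * x.1)]
  simp only [Prod.smul_fst, Prod.smul_snd, smul_eq_mul]
  congr 1 <;> ring

theorem norm_sh (hm : ∀ i, 0 < m i) {x : ℂ × ℂ} (hx : x ≠ 0) : ‖sh m x‖ = 1 / 2 := by
  have h := wv_pos (Hopf.ne hm hx)
  rw [sh_eq hm, hp, norm_smul, Real.norm_of_nonneg (by positivity), mul_inv, mul_assoc,
    inv_mul_cancel₀ h.ne']
  norm_num

theorem sh_diff (hm : ∀ i, 0 < m i) {x : ℂ × ℂ} (hx : x ≠ 0) : DifferentiableAt ℝ (sh m) x := by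
  have h := wv_pos (Hopf.ne hm hx)
  have e : sh m = fun x : ℂ × ℂ => hp (k1 m * x.1) (k2 m * (x.2 - k3 m * x.1)) :=
    funext (sh_eq hm)
  have d : Differentiable ℝ fun x : ℂ × ℂ => wv (k1 m * x.1) (k2 m * (x.2 - k3 m * x.1)) :=
    wv_diff.comp (f := fun x : ℂ × ℂ => ((k1 m : ℂ) * x.1, (k2 m : ℂ) * (x.2 - k3 m * x.1)))
      (by fun_prop)
  rw [e]
  exact ((((d x).norm ℝ (norm_pos_iff.1 h)).const_mul 2).inv (by positivity)).smul (d x)

theorem sh_cont (hm : ∀ i, 0 < m i) : ContinuousOn (sh m) {x | x ≠ 0} :=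
  fun _ hx => (sh_diff hm hx).continuousAt.continuousWithinAt

/-- proportional pairs have the same shape -/
theorem sh_of_prop (hm : ∀ i, 0 < m i) {x w : ℂ × ℂ} (hx : x ≠ 0) (hw : w ≠ 0)
    (h : w.2 * x.1 = w.1 * x.2) : sh m x = sh m w := by
  obtain ⟨l, rfl⟩ : ∃ l : ℂ, x = l • w := by
    by_cases h1 : w.1 = 0
    · have h2 : w.2 ≠ 0 := fun h2 => hw (Prod.ext h1 h2)
      rw [h1, zero_mul] at h
      refine ⟨x.2 / w.2, Prod.ext ?_ ?_⟩
      · simp [h1, (mul_eq_zero.1 h).resolve_left h2]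
      · simp [h2]
    · refine ⟨x.1 / w.1, Prod.ext (by simp [h1]) ?_⟩
      simp only [Prod.smul_snd, smul_eq_mul]
      field_simp
      linear_combination -h
  exact sh_smul hm (fun hl => hx (by simp [hl])) w

/-- every point of the sphere is a shape -/
theorem sh_surj (hm : ∀ i, 0 < m i) {y : E3} (hy : ‖y‖ = 1 / 2) : ∃ w, w ≠ 0 ∧ sh m w = y := by
  have key : ∀ z1 z2 : ℂ, z1 ≠ 0 ∨ z2 ≠ 0 → hp z1 z2 = y → ∃ w, w ≠ 0 ∧ sh m w = y :=
    fun z1 z2 h e => by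
      have a1 := k1_ne hm
      have a2 := k2_ne hm
      have b1 : (k1 m : ℂ) * (z1 / k1 m) = z1 := by field_simp
      have b2 : (k2 m : ℂ) * (z2 / k2 m + k3 m * (z1 / k1 m) - k3 m * (z1 / k1 m)) = z2 := by
        field_simp; ring
      refine ⟨(z1 / k1 m, z2 / k2 m + k3 m * (z1 / k1 m)), fun h0 => ?_, by
        rw [sh_eq hm, b1, b2, e]⟩
      rw [Prod.mk_eq_zero] at h0
      rw [h0.2, h0.1] at b2
      rw [h0.1] at b1
      simp only [mul_zero, sub_zero] at b1 b2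
      exact h.elim (fun h => h b1.symm) fun h => h b2.symm
  have h2 : y 0 ^ 2 + y 1 ^ 2 + y 2 ^ 2 = 1 / 4 := by
    have := EuclideanSpace.norm_sq_eq y
    rw [hy, Fin.sum_univ_three] at this
    simp only [Real.norm_eq_abs, sq_abs] at this
    linarith
  have h3 : 0 ≤ 1 / 2 + y 0 := by nlinarith [sq_nonneg (y 1), sq_nonneg (y 2)]
  rcases h3.eq_or_lt with h3 | h3
  · have e0 : y 0 = -(1 / 2) := by linarith
    have e1 : y 1 = 0 := by rw [e0] at h2; nlinarith [sq_nonneg (y 1), sq_nonneg (y 2)]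
    have e2 : y 2 = 0 := by rw [e0] at h2; nlinarith [sq_nonneg (y 1), sq_nonneg (y 2)]
    refine key 0 1 (Or.inr one_ne_zero) ?_
    rw [hp, norm_wv]
    ext i
    fin_cases i <;> simp [wv, e0, e1, e2]
    norm_num
  · have e : wv ((1 / 2 + y 0 : ℝ) : ℂ) ⟨y 1, -y 2⟩ = (1 / 2 + y 0) • y := by
      ext i
      fin_cases i <;> simp [wv, Complex.sq_norm, Complex.normSq_apply]
      nlinarith
    refine key ((1 / 2 + y 0 : ℝ) : ℂ) ⟨y 1, -y 2⟩ (Or.inl (Complex.ofReal_ne_zero.2 h3.ne')) ?_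
    rw [hp, e, norm_smul, hy, smul_smul, Real.norm_of_nonneg h3.le]
    rw [show 2 * ((1 / 2 + y 0) * (1 / 2)) = 1 / 2 + y 0 by ring, inv_mul_cancel₀ h3.ne', one_smul]

/-- a set of pairs that meets every complex line has the whole sphere as its shape image -/
theorem area_of_cover (hm : ∀ i, 0 < m i) {A : Set E3}
    (h : ∀ w : ℂ × ℂ, w ≠ 0 → ∃ x : ℂ × ℂ, x ≠ 0 ∧ w.2 * x.1 = w.1 * x.2 ∧ sh m x ∈ A) :
    area A = Real.pi := area_full fun a ha => by
  obtain ⟨w, hw, rfl⟩ := sh_surj hm ha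
  obtain ⟨x, hx, e, hA⟩ := h w hw
  rwa [← sh_of_prop hm hx hw e]

/-- the theorem of Poincare and Miranda on a rectangle -/
theorem miranda {a b c d : ℝ} (hab : a ≤ b) (hcd : c ≤ d) {f g : ℝ × ℝ → ℝ}
    (hf : ContinuousOn f (Icc a b ×ˢ Icc c d)) (hg : ContinuousOn g (Icc a b ×ˢ Icc c d))
    (fa : ∀ t ∈ Icc c d, f (a, t) ≤ 0) (fb : ∀ t ∈ Icc c d, 0 ≤ f (b, t))
    (gc : ∀ s ∈ Icc a b, g (s, c) ≤ 0) (gd : ∀ s ∈ Icc a b, 0 ≤ g (s, d)) :
    ∃ x ∈ Icc a b ×ˢ Icc c d, f x = 0 ∧ g x = 0 := by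
  open Pool.Agent.Lib.helper79 in
  let T : (Fin 2 → ℝ) → ℝ × ℝ := fun z => (a + (z 0 + 1) / 2 * (b - a), c + (z 1 + 1) / 2 * (d - c))
  have hT : ∀ z ∈ closedBall (0 : Fin 2 → ℝ) 1, T z ∈ Icc a b ×ˢ Icc c d := fun z hz => by
    have h0 := abs_le.1 ((norm_le_pi_norm z 0).trans (mem_closedBall_zero_iff.1 hz))
    have h1 := abs_le.1 ((norm_le_pi_norm z 1).trans (mem_closedBall_zero_iff.1 hz))
    refine ⟨⟨?_, ?_⟩, ?_, ?_⟩ <;> simp only [T] <;> nlinarith [h0.1, h0.2, h1.1, h1.2]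
  have hG : ContinuousOn (fun z => (![f (T z), g (T z)] : Fin 2 → ℝ)) (closedBall 0 1) :=
    continuousOn_pi.2 fun i => by
      fin_cases i
      · exact hf.comp (by fun_prop) hT
      · exact hg.comp (by fun_prop) hT
  obtain ⟨z, hz, hfix⟩ := brouwer_cube (f := fun z => clamp (z - ![f (T z), g (T z)]))
    (clamp_cont.comp_continuousOn (continuousOn_id.sub hG))
    (fun z _ => mem_closedBall_zero_iff.2 (norm_clamp_le _))
  have key : ∀ u v : ℝ, max (-1) (min 1 (u - v)) = u → (u = -1 → v ≤ 0) → (u = 1 → 0 ≤ v) →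
      v = 0 := fun u v hk a0 a1 => by
    rcases le_total 1 (u - v) with h | h
    · rw [min_eq_left h, max_eq_right (by norm_num)] at hk
      linarith [a1 hk.symm]
    · rw [min_eq_right h] at hk
      rcases le_total (-1) (u - v) with h' | h'
      · rw [max_eq_right h'] at hk
        linarith
      · rw [max_eq_left h'] at hk
        linarith [a0 hk.symm]
  refine ⟨T z, hT z hz, key (z 0) _ (congrFun hfix 0) (fun h => ?_) fun h => ?_,
    key (z 1) _ (congrFun hfix 1) (fun h => ?_) fun h => ?_⟩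
  · have := fa _ (hT z hz).2
    simpa [T, h] using this
  · have := fb _ (hT z hz).2
    simpa [T, h] using this
  · have := gc _ (hT z hz).1
    simpa [T, h] using this
  · have := gd _ (hT z hz).1
    simpa [T, h] using this

end Pool.Agent.MP_1ba41f_an.S2
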