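import Pool.Agent.MP_1ba41f_an.S2.Main
import Pool.Agent.MP_1ba41f_an.S2.SpecK

/-! The two directions of the limit differ at the angle `π`. -/

noncomputable section
open Set Complex

namespace Pool.Agent.MP_1ba41f_an.S2

namespace Eb

theorem sq_sq (z : ℂ) : sq z ^ 2 = z := by
  unfold sq
  rw [one_div]
  exact cpow_ofNat_inv_pow z 2

theorem sq_real {x : ℝ} (hx : 0 ≤ x) : sq (x : ℂ) = (√x : ℝ) := by
  rw [Real.sqrt_eq_rpow, ofReal_cpow hx]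
  unfold sq
  norm_num

theorem norm_sq_one {z : ℂ} (h : ‖z‖ = 1) : ‖sq z‖ = 1 := by
  have h1 : ‖sq z‖ ^ 2 = 1 := by rw [← norm_pow, sq_sq, h]
  exact (pow_eq_one_iff_of_nonneg (norm_nonneg _) two_ne_zero).1 h1

theorem gap {u v : ℂ} (hu : ‖u‖ = 1) (hv : ‖v‖ = 1) : ‖u - v‖ ≤ 2 * ‖sq u - sq v‖ := by
  have e : u - v = (sq u + sq v) * (sq u - sq v) := by
    conv_lhs => rw [← sq_sq u, ← sq_sq v]
    ring
  have h1 := norm_add_le (sq u) (sq v)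
  rw [norm_sq_one hu, norm_sq_one hv] at h1
  rw [e, norm_mul]
  exact mul_le_mul_of_nonneg_right (by linarith only [h1]) (norm_nonneg _)

theorem unit {D K τ : ℝ} (hD : 0 < D) (hτ : τ ^ 2 = 1) :
    ‖(((√D : ℝ) : ℂ) - I * τ * K) / ((√(D + K ^ 2) : ℝ) : ℂ)‖ = 1 := by
  have h0 : 0 < D + K ^ 2 := by positivity
  have e : ((√D : ℝ) : ℂ) - I * τ * K = ((√D : ℝ) : ℂ) + ((-(τ * K) : ℝ) : ℂ) * I := by
    push_cast
    ring
  rw [norm_div, e, norm_add_mul_I, Real.sq_sqrt hD.le, neg_sq, mul_pow, hτ, one_mul, norm_real,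
    Real.norm_of_nonneg (Real.sqrt_nonneg _), div_self (Real.sqrt_pos.2 h0).ne']

theorem core {D K σ t : ℝ} (hD : 0 < D) (h9 : D + K ^ 2 ≤ 9) (hσ : σ = 1 ∨ σ = -1) (ht : 0 < t)
    (hK : t ≤ -K) : t / 5 < ‖sq ((((√D : ℝ) : ℂ) - I * σ * K) / ((√(D + K ^ 2) : ℝ) : ℂ)) -
      sq ((((√D : ℝ) : ℂ) - I * ((-σ : ℝ) : ℂ) * K) / ((√(D + K ^ 2) : ℝ) : ℂ))‖ := by
  have h1 : σ ^ 2 = 1 := by rcases hσ with rfl | rfl <;> norm_num
  have h2 : |σ| = 1 := by rcases hσ with rfl | rfl <;> norm_num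
  have h3 := gap (unit (K := K) hD h1) (unit (K := K) (τ := -σ) hD (by rw [neg_sq, h1]))
  have h0 : 0 < √(D + K ^ 2) := Real.sqrt_pos.2 (by positivity)
  have h4 : √(D + K ^ 2) ≤ 3 := Real.sqrt_le_iff.2 ⟨by norm_num, by linarith only [h9]⟩
  have e : (((√D : ℝ) : ℂ) - I * σ * K) / ((√(D + K ^ 2) : ℝ) : ℂ) -
      (((√D : ℝ) : ℂ) - I * ((-σ : ℝ) : ℂ) * K) / ((√(D + K ^ 2) : ℝ) : ℂ) =
      I * ((σ * (2 * -K / √(D + K ^ 2)) : ℝ) : ℂ) := by
    push_cast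
    ring
  have h5 : 2 * t / 3 ≤ 2 * -K / √(D + K ^ 2) :=
    div_le_div₀ (by linarith only [ht, hK]) (by linarith only [hK]) h0 h4
  rw [e, norm_mul, norm_I, one_mul, norm_real, Real.norm_eq_abs, abs_mul, h2, one_mul] at h3
  have h6 := (le_abs_self _).trans h3
  linarith only [h5, h6, ht]

end Eb

open Eb in
theorem ebS (h0 : Fam0Stmt) : EbStmt := by
  intro Mb hMb
  refine ⟨(1 - Mb) / 10, by linarith only [hMb], fun M hM H hH σ hσ => ?_⟩
  obtain ⟨-, hHe, hHe2, h1⟩ := h0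
  obtain ⟨k0, -, d0, -, h2⟩ := h1 M ⟨hM.1, hM.2.trans hMb.le⟩ H hH
  obtain ⟨-, e1, e2, -⟩ := h2 Real.pi
  have hM0 : 0 < M := by linarith only [hM.1]
  have hH2 : H ≤ 2 := by nlinarith only [hH.2, hHe, hHe2]
  set K : ℝ := (M - 1) * (5 + 3 / M + 5 * H) / 8 with hK
  have m1 : 3 ≤ 3 / M := by
    rw [le_div_iff₀ hM0]
    linarith only [hM.2, hMb]
  have m2 : 3 / M ≤ 4 := by
    rw [div_le_iff₀ hM0]
    linarith only [hM.1]
  have k1 : 1 - Mb ≤ -K := by nlinarith only [hK, m1, hH.1, hM.2, hMb]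
  have k2 : -K ≤ 1 := by nlinarith only [hK, m2, hH2, hM.1, hM.2, hMb, m1, hH.1]
  have d1 : fD M H ≤ 8 := by
    have : 6 / (5 * M) = 2 / 5 * (3 / M) := by field_simp; ring
    unfold fD
    nlinarith only [this, m2, sq_nonneg M, sq_nonneg H]
  have e3 : (r2c (fx M H Real.pi)).2 = 0 := by simp [r2c, fx]
  have e4 : bK (fK M H) (r2c (fx M H Real.pi)) = K := by
    have : K = (5 * (fx M H Real.pi).1 - 4 + 2 * (M - 3 / 5 + H * Real.cos Real.pi)) / 8 := by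
      simp only [hK, fx, fD, Real.cos_pi]
      field_simp
      ring
    rw [bK, e1, this]
    simp only [r2c]
    push_cast
    ring
  have hD : 0 < fD M H := by linarith only [d0]
  have e5 : bs (fK M H) (r2c (fx M H Real.pi)) = (√(fD M H) : ℝ) := by rw [bs, e2, sq_real hD.le]
  have e6 : sq ((fD M H : ℂ) + (K : ℂ) ^ 2) = (√(fD M H + K ^ 2) : ℝ) := by
    rw [← sq_real (by positivity)]
    push_cast
    rfl
  have e7 : sq (((fK M H : ℂ) - I * 0) / sq ((fK M H : ℂ) ^ 2 + 0 ^ 2)) = 1 := by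
    have a1 : (fK M H : ℂ) ^ 2 + 0 ^ 2 = ((fK M H ^ 2 : ℝ) : ℂ) := by
      push_cast
      ring
    rw [a1, sq_real (sq_nonneg _), Real.sqrt_sq k0.le, mul_zero, sub_zero,
      div_self (ofReal_ne_zero.2 k0.ne')]
    exact one_cpow _
  have e8 : ‖io σ‖ = 1 := by
    unfold io
    split_ifs <;> simp
  unfold eb
  rw [e3, e4, e5, e2, e6, e7, mul_one, ← mul_sub, norm_mul, e8, one_mul]
  have := core (t := 1 - Mb) hD (by nlinarith only [d1, k1, k2, hMb]) hσ (by linarith only [hMb]) k1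
  linarith only [this]

end Pool.Agent.MP_1ba41f_an.S2
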