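import Pool.Agent.MP_1ba41f_an.S2.SpecK

/-! Elementary facts on the family of circles. -/

noncomputable section
open Set Complex

namespace Pool.Agent.MP_1ba41f_an.S2

namespace Fam0

theorem he_sq : He ^ 2 = 1276 / 625 := Real.sq_sqrt (by norm_num)

theorem sq_real {D : ℝ} (h : 0 ≤ D) : sq (D : ℂ) = (√D : ℝ) := by
  rw [sq, Real.sqrt_eq_rpow, ofReal_cpow h]
  norm_num

theorem ident {M : ℝ} (hM : M ≠ 0) (H x : ℝ) :
    (4 - fD M H - (M - 3 / 5 + H * x) ^ 2) * ((M - 3 / 5 + H * x + 6 / 5) ^ 2 + fD M H) -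
      (fN M H * (M ^ 2 - H ^ 2) + 4 - (41 / 25 - fD M H) ^ 2) = H ^ 2 * (1 - x ^ 2) * fq M H x := by
  unfold fq fN fD
  field_simp
  ring

theorem bounds {M H : ℝ} (hM : M ∈ Icc (9 / 10 : ℝ) 1) (hH : H ∈ Icc 0 He) :
    H ≤ 143 / 100 ∧ 324 / 625 ≤ fD M H ∧
    16 / 25 ≤ fN M H * (M ^ 2 - H ^ 2) + 4 - (41 / 25 - fD M H) ^ 2 ∧
    ∀ x ∈ Icc (-1 : ℝ) 1, 1 / 4 ≤ fq M H x ∧ 0 < 4 - fD M H - (M - 3 / 5 + H * x) ^ 2 := by
  obtain ⟨m1, m2⟩ := hM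
  obtain ⟨h0, h1⟩ := hH
  have hh : H ^ 2 ≤ 1276 / 625 := he_sq ▸ pow_le_pow_left₀ h0 h1 2
  have h2 : H ≤ 143 / 100 := by nlinarith
  obtain ⟨u, hu, u0, u1, u2⟩ : ∃ u, u = 6 / (5 * M) ∧ u * M = 6 / 5 ∧ 6 / 5 ≤ u ∧
      u ≤ 4 / 3 * (19 / 10 - M) := by
    refine ⟨_, rfl, by field_simp, ?_, ?_⟩
    · rw [le_div_iff₀ (by linarith)]; linarith
    · rw [div_le_iff₀ (by linarith)]; nlinarith
  have eD : fD M H = 59 / 25 + u - M ^ 2 - H ^ 2 := by rw [hu, fD]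
  have eN : fN M H = 2 * u + M ^ 2 - H ^ 2 := by rw [hu, fN]; ring
  have a1 : M ^ 2 ≤ 1 := by nlinarith
  have a2 : 81 / 100 ≤ M ^ 2 := by nlinarith
  refine ⟨h2, by linarith, ?_, fun x hx => ⟨?_, ?_⟩⟩
  · have e : fN M H * (M ^ 2 - H ^ 2) + 4 - (41 / 25 - fD M H) ^ 2 = H ^ 2 * (36 / 25 - 4 * M ^ 2) +
        24 / 5 * M + 4 + 36 / 25 * M ^ 2 - (u + 18 / 25) ^ 2 := by
      rw [eD, eN]; linear_combination 4 * M * u0
    have b1 : (u + 18 / 25) ^ 2 ≤ (4 / 3 + 18 / 25) ^ 2 :=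
      pow_le_pow_left₀ (by linarith) (by linarith) 2
    have b2 := mul_nonneg (sub_nonneg.2 hh) (by linarith : 0 ≤ 4 * M ^ 2 - 36 / 25)
    have b3 := mul_nonneg (sub_nonneg.2 m2) (by linarith : 0 ≤ 4204 / 625 * M + 1204 / 625)
    rw [e]
    nlinarith
  · rw [fq, eN]
    nlinarith [sq_nonneg (2 * M + H * x)]
  · have b1 := mul_nonneg (mul_nonneg (by linarith : 0 ≤ M - 3 / 5) h0) (sub_nonneg.2 hx.2)
    have b2 := mul_nonneg (sq_nonneg H) (by nlinarith [hx.1, hx.2] : 0 ≤ 1 - x ^ 2)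
    have b3 := mul_nonneg (by linarith : 0 ≤ M - 3 / 5) (sub_nonneg.2 h2)
    rw [eD]
    nlinarith

theorem point {k r P η D : ℝ} (hk : 2 / 5 ≤ k) (hr : 0 < r) (hD : 1 / 2 ≤ D)
    (e1 : 2 * r = 4 - D - η ^ 2) (e2 : 4 * P ^ 2 + 4 * k ^ 2 = 2 * r * ((η + 6 / 5) ^ 2 + D)) :
    bEta k (r2c (r, P)) = η ∧ bD k (r2c (r, P)) = D ∧ OkM k (r2c (r, P)) := by
  have m1 : (r2c (r, P)).1 = r := rfl
  have m2 : (r2c (r, P)).2 = P := rfl
  have hE : bEta k (r2c (r, P)) = η := by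
    have : (P ^ 2 + k ^ 2 + r ^ 2 - 68 / 25 * r) / (6 / 5 * r) = η := by
      rw [div_eq_iff (by positivity)]
      linear_combination (1 / 4 : ℝ) * e2 + r / 2 * e1
    rw [bEta, m1, m2, ← this]
    push_cast
    rfl
  have hb : bD k (r2c (r, P)) = D := by
    rw [bD, hE, m1]
    exact_mod_cast (by linarith : 4 - 2 * r - η ^ 2 = D)
  have hL0 : 0 < (η + 6 / 5) ^ 2 + D := by positivity
  have hL : bL k (r2c (r, P)) = ((η + 6 / 5) ^ 2 + D : ℝ) := by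
    rw [bL, bxi, hE, hb]; push_cast; rfl
  refine ⟨hE, hb, by rw [m1]; exact_mod_cast hr.ne', by rw [hb, ofReal_re]; linarith,
    by rw [hL]; exact_mod_cast hL0.ne', ?_, ?_, fun σ hσ => ?_⟩
  · rw [m2]
    exact_mod_cast (by positivity : k ^ 2 + P ^ 2 ≠ 0)
  · have : D + ((5 * r - 4 + 2 * η) / 8) ^ 2 ≠ 0 := by positivity
    rw [hb, bK, hE, m1]
    exact_mod_cast this
  · obtain ⟨G, hG, eG⟩ : ∃ G : ℝ, bG σ k (r2c (r, P)) = G ∧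
        G * ((η + 6 / 5) ^ 2 + D) = 2 * (k * (η + 6 / 5) + σ * √D * P) :=
      ⟨2 * (k * (η + 6 / 5) + σ * √D * P) / ((η + 6 / 5) ^ 2 + D), by
        rw [bG, hL, bxi, bs, hE, hb, m2, sq_real (by linarith)]; push_cast; rfl,
        div_mul_cancel₀ _ hL0.ne'⟩
    have s2 : (σ * √D) ^ 2 = D := by
      rcases hσ with rfl | rfl <;> simp [Real.sq_sqrt (by linarith : 0 ≤ D)]
    have hG2 : G ^ 2 ≤ 2 * r := by
      refine le_of_mul_le_mul_right ?_ (pow_pos hL0 2)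
      have e : 2 * r * ((η + 6 / 5) ^ 2 + D) ^ 2 - G ^ 2 * ((η + 6 / 5) ^ 2 + D) ^ 2 =
          4 * (k * (σ * √D) - P * (η + 6 / 5)) ^ 2 := by
        linear_combination (-((η + 6 / 5) ^ 2 + D)) * e2 - 4 * (k ^ 2 + P ^ 2) * s2 -
          (G * ((η + 6 / 5) ^ 2 + D) + 2 * (k * (η + 6 / 5) + σ * √D * P)) * eG
      nlinarith [sq_nonneg (k * (σ * √D) - P * (η + 6 / 5))]
    have n1 : G ^ 2 + D ≠ 0 := by positivity
    have n2 : 1 - (2 - G ^ 2 - D) / 2 ≠ 0 := fun h => n1 (by linarith)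
    have n3 : 1 + (k - 3 / 5 * G) ≠ 0 := fun h => by nlinarith [sq_nonneg η]
    rw [bX, bG2, hG, hb]
    exact ⟨by exact_mod_cast n2, by exact_mod_cast n1,
      fun h => n3 (ofReal_injective (by push_cast; exact h))⟩

end Fam0

open Fam0

theorem fam0S (_hB : AlgBStmt) : Fam0Stmt := by
  refine ⟨fun x hx => ContinuousAt.continuousWithinAt ?_, Real.sqrt_pos.2 (by norm_num), he_sq,
    fun M hM H hH => ?_⟩
  · have h : 5 * x.1 ≠ 0 := by linarith [hx.1.1]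
    unfold fK fx fq fN fD
    fun_prop (disch := assumption)
  obtain ⟨b0, b1, b2, b3⟩ := bounds hM hH
  have hK : 4 * fK M H ^ 2 = fN M H * (M ^ 2 - H ^ 2) + 4 - (41 / 25 - fD M H) ^ 2 := by
    rw [fK, Real.sq_sqrt (by linarith)]; ring
  have hK0 : 0 ≤ fK M H := Real.sqrt_nonneg _
  have hK1 : 2 / 5 ≤ fK M H := Real.le_sqrt_of_sq_le (by linarith)
  refine ⟨by linarith, hK, by linarith, fun x hx => (b3 x hx).1, fun φ => ?_⟩
  obtain ⟨c1, c2⟩ := b3 (Real.cos φ) ⟨Real.neg_one_le_cos φ, Real.cos_le_one φ⟩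
  have hr : 0 < (fx M H φ).1 := half_pos c2
  have e1 : 2 * (fx M H φ).1 = 4 - fD M H - (M - 3 / 5 + H * Real.cos φ) ^ 2 := by
    simp only [fx]; ring
  have e2 : 4 * (fx M H φ).2 ^ 2 + 4 * fK M H ^ 2 =
      2 * (fx M H φ).1 * ((M - 3 / 5 + H * Real.cos φ + 6 / 5) ^ 2 + fD M H) := by
    have i := ident (by linarith [hM.1] : M ≠ 0) H (Real.cos φ)
    have q := Real.sq_sqrt (by linarith : 0 ≤ fq M H (Real.cos φ))
    rw [e1, hK]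
    simp only [fx]
    linear_combination -i + H ^ 2 * Real.sin φ ^ 2 * q +
      H ^ 2 * fq M H (Real.cos φ) * Real.sin_sq_add_cos_sq φ
  obtain ⟨p1, p2, p3⟩ := point hK1 hr (by linarith : 1 / 2 ≤ fD M H) e1 e2
  refine ⟨hr, p1, p2, p3, ?_⟩
  rintro rfl
  have eD : fD 1 H = 64 / 25 - H ^ 2 := by rw [fD]; ring
  have s2 : √(fD 1 H) ^ 2 = fD 1 H := Real.sq_sqrt (by linarith)
  have s0 : 0 ≤ √(fD 1 H) := Real.sqrt_nonneg _
  have k2 : 4 * fK 1 H ^ 2 = 64 / 25 * fD 1 H := by rw [hK, eD, fN]; ring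
  have k1 : fK 1 H = 4 / 5 * √(fD 1 H) := by
    refine (pow_left_inj₀ hK0 (by positivity) two_ne_zero).1 ?_
    rw [mul_pow, s2]; linarith
  have x1 : -H ≤ H * Real.cos φ := by
    linarith [mul_le_mul_of_nonneg_left (Real.neg_one_le_cos φ) hH.1]
  have x2 : H * Real.cos φ ≤ H := by
    linarith [mul_le_mul_of_nonneg_left (Real.cos_le_one φ) hH.1]
  obtain ⟨ξ, hξ⟩ : ∃ ξ, ξ = 1 - 3 / 5 + H * Real.cos φ + 6 / 5 := ⟨_, rfl⟩
  have ξ0 : ξ ≠ 0 := (by linarith : 0 < ξ).ne'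
  have e3 : 1 - 3 / 5 + H * Real.cos φ = ξ - 6 / 5 := by linarith
  rw [← hξ] at e2
  rw [e3] at e1
  refine ⟨√(fD 1 H), ξ, (fx 1 H φ).2 / ξ, (ξ ^ 2 + fD 1 H) / (2 * ξ) - 3 / 5,
    Real.le_sqrt_of_sq_le (by linarith), Real.sqrt_le_iff.2 ⟨by norm_num, by linarith [sq_nonneg H]⟩,
    by linarith, by linarith, ?_, ?_, ?_⟩
  · field_simp
    linear_combination 25 * e2 + 25 * (ξ ^ 2 + fD 1 H) * e1 - 25 * k2
  · rw [s2]; field_simp; ring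
  · rw [k1, s2, ← e1, mul_div_cancel₀ _ ξ0, mul_div_cancel_left₀ _ two_ne_zero]

end Pool.Agent.MP_1ba41f_an.S2
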