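import Mathlib.Analysis.Complex.CauchyIntegral
import Mathlib.Analysis.Complex.Liouville
import Mathlib.Analysis.Calculus.ImplicitContDiff
import Mathlib.Analysis.Analytic.IsolatedZeros
import Mathlib.Analysis.Calculus.ContDiff.RestrictScalars
import Mathlib.Analysis.Calculus.Deriv.Prod
import Mathlib.Analysis.Complex.RealDeriv
import Mathlib.Topology.DerivedSet

/-! Simple zeros of a holomorphic family of arcs occur for countably many arcs only. -/

set_option autoImplicit false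

noncomputable section
open Filter Topology Set Metric

namespace Pool.Agent.MP_1ba41f_an.S2

/-- a holomorphic map on an open subset of a finite dimensional space is of class `C¹` -/
theorem contDiffOn_one {E F : Type} [NormedAddCommGroup E] [NormedSpace ℂ E]
    [FiniteDimensional ℂ E] [NormedAddCommGroup F] [NormedSpace ℂ F] [CompleteSpace F]
    {U : Set E} (hU : IsOpen U) {f : E → F} (hf : DifferentiableOn ℂ f U) :
    ContDiffOn ℂ 1 f U := by
  have : ProperSpace E := FiniteDimensional.proper ℂ E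
  rw [show (1 : WithTop ℕ∞) = 0 + 1 from rfl, contDiffOn_succ_iff_fderiv_of_isOpen hU]
  refine ⟨hf, by simp, contDiffOn_zero.2 fun x hx => ContinuousAt.continuousWithinAt ?_⟩
  obtain ⟨r, hr, hb⟩ := nhds_basis_closedBall.mem_iff.1 (hU.mem_nhds hx)
  have hu := (isCompact_closedBall x r).uniformContinuousOn_of_continuous
    (hf.continuousOn.mono hb)
  refine Metric.continuousAt_iff.2 fun ε hε => ?_
  obtain ⟨δ, hδ, h1⟩ := Metric.uniformContinuousOn_iff.1 hu (ε / 2 * (r / 2)) (by positivity)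
  refine ⟨min δ (r / 2), by positivity, fun y hy => ?_⟩
  have y1 : dist y x < δ := hy.trans_le (min_le_left _ _)
  have y2 : dist y x < r / 2 := hy.trans_le (min_le_right _ _)
  rw [dist_eq_norm]
  refine lt_of_le_of_lt (ContinuousLinearMap.opNorm_le_of_unit_norm (C := ε / 2) (by positivity)
    fun v hv => ?_) (by linarith)
  have hm : ∀ w : E, dist w x ≤ r / 2 → ∀ ζ ∈ closedBall (0 : ℂ) (r / 2),
      w + ζ • v ∈ closedBall x r := fun w hw ζ hζ => by
    have := mem_closedBall_zero_iff.1 hζ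
    have h2 : dist (w + ζ • v) w ≤ r / 2 := by simpa [norm_smul, hv] using this
    exact mem_closedBall.2 (by linarith [dist_triangle (w + ζ • v) w x])
  have hd : ∀ w : E, dist w x ≤ r / 2 → ∀ ζ ∈ closedBall (0 : ℂ) (r / 2),
      HasDerivAt (fun ζ : ℂ => f (w + ζ • v)) (fderiv ℂ f (w + ζ • v) v) ζ := fun w hw ζ hζ => by
    have h3 : HasDerivAt (fun ζ : ℂ => w + ζ • v) v ζ := by
      simpa using ((hasDerivAt_id ζ).smul_const v).const_add w
    exact (hf.differentiableAt (hU.mem_nhds (hb (hm w hw ζ hζ)))).hasFDerivAt.comp_hasDerivAt ζ h3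
  have hx0 : dist x x ≤ r / 2 := by rw [dist_self]; positivity
  have h4 := fun ζ hζ => (hd y y2.le ζ hζ).fun_sub (hd x hx0 ζ hζ)
  have h5 := Complex.norm_deriv_le_of_forall_mem_sphere_norm_le (c := 0) (R := r / 2)
    (C := ε / 2 * (r / 2)) (f := fun ζ : ℂ => f (y + ζ • v) - f (x + ζ • v)) (by positivity)
    (DifferentiableOn.diffContOnCl fun ζ hζ => (h4 ζ
      (closure_ball_subset_closedBall hζ)).differentiableAt.differentiableWithinAt) fun ζ hζ => by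
      rw [← dist_eq_norm]
      exact (h1 _ (hm y y2.le ζ (sphere_subset_closedBall hζ)) _
        (hm x hx0 ζ (sphere_subset_closedBall hζ)) (by simpa using y1)).le
  rw [(h4 0 (mem_closedBall_self (by positivity))).deriv, mul_div_cancel_right₀ _ (by positivity)]
    at h5
  simpa using h5

/-- the topological part -/
theorem finz_core {Z : ℝ × ℝ → Prop}
    (loc : ∀ x : ℝ × ℝ, x.2 ∈ Icc (0 : ℝ) 1 →
      (∃ᶠ y in 𝓝 x, y.2 ∈ Icc (0 : ℝ) 1 ∧ Z y ∧ y.1 ≠ x.1) →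
      ∀ᶠ θ in 𝓝 x.1, ∃ τ ∈ Icc (0 : ℝ) 1, Z (θ, τ))
    {θ₁ : ℝ} (h1 : ∀ τ ∈ Icc (0 : ℝ) 1, ¬ Z (θ₁, τ)) :
    {θ | ∃ τ ∈ Icc (0 : ℝ) 1, Z (θ, τ)}.Countable := by
  set A := {θ | ∃ τ ∈ Icc (0 : ℝ) 1, Z (θ, τ)} with hA
  have h2 : ∀ θ, AccPt θ (𝓟 A) → A ∈ 𝓝 θ := fun θ hθ => by
    by_contra hn
    have h3 := isCompact_Icc.eventually_forall_of_forall_eventually (x₀ := θ) (K := Icc (0 : ℝ) 1)
      (P := fun s τ => ¬ (τ ∈ Icc (0 : ℝ) 1 ∧ Z (s, τ) ∧ s ≠ θ)) fun τ hτ =>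
        not_frequently.1 fun h => hn (loc (θ, τ) hτ h)
    obtain ⟨s, ⟨hs, τ, hτ, hz⟩, h4⟩ := ((accPt_iff_frequently.1 hθ).and_eventually h3).exists
    exact h4 τ hτ ⟨hτ, hz, hs⟩
  have h5 : IsClopen (derivedSet A) := ⟨isClosed_derivedSet A, isOpen_iff_mem_nhds.2 fun θ hθ => by
    filter_upwards [eventually_mem_nhds_iff.2 (h2 θ hθ)] with s hs
    exact accPt_iff_frequently.2 (((eventually_mem_nhdsWithin (a := s) (s := {s}ᶜ)).and
      (mem_nhdsWithin_of_mem_nhds hs)).frequently.filter_mono nhdsWithin_le_nhds)⟩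
  have h6 : ∀ θ, ¬ AccPt θ (𝓟 A) := fun θ hθ => by
    have := h5.eq_univ ⟨θ, hθ⟩
    obtain ⟨τ, hτ, hz⟩ := mem_of_mem_nhds (h2 θ₁ (show θ₁ ∈ derivedSet A from this ▸ mem_univ _))
    exact h1 τ hτ hz
  have h7 : ∀ n : ℕ, (A ∩ closedBall 0 n).Finite := fun n => by
    by_contra h
    obtain ⟨θ, -, hθ⟩ := Set.Infinite.exists_accPt_of_subset_isCompact h
      (isCompact_closedBall 0 n) inter_subset_right
    exact h6 θ (hθ.mono (principal_mono.2 inter_subset_left))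
  rw [← iUnion_inter_closedBall_nat A 0]
  exact countable_iUnion fun n => (h7 n).countable

/-- If the real zeros of a holomorphic function of `(θ, τ)` are simple in `τ`, avoid the ends
`τ = 0, 1`, and miss one arc, they meet only countably many arcs. -/
theorem finz {U : Set (ℂ × ℂ)} (hU : IsOpen U) {f : ℂ × ℂ → ℂ} (hf : DifferentiableOn ℂ f U)
    (hR : ∀ θ : ℝ, ∀ τ ∈ Icc (0 : ℝ) 1, ((θ : ℂ), (τ : ℂ)) ∈ U)
    (he : ∀ θ : ℝ, f (θ, 0) ≠ 0 ∧ f (θ, 1) ≠ 0)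
    (hs : ∀ θ : ℝ, ∀ τ ∈ Icc (0 : ℝ) 1, f (θ, τ) = 0 → deriv (fun s : ℝ => f (θ, s)) τ ≠ 0)
    {θ₁ : ℝ} (h1 : ∀ τ ∈ Icc (0 : ℝ) 1, f (θ₁, τ) ≠ 0) :
    {θ : ℝ | ∃ τ ∈ Icc (0 : ℝ) 1, f (θ, τ) = 0}.Countable := by
  refine finz_core (Z := fun x => f (x.1, x.2) = 0) (fun x hx hfr => ?_) h1
  have hc : ContDiffAt ℂ 1 f (x.1, x.2) :=
    (contDiffOn_one hU hf).contDiffAt (hU.mem_nhds (hR _ _ hx))
  have hι : Tendsto (fun y : ℝ × ℝ => ((y.1 : ℂ), (y.2 : ℂ))) (𝓝 x) (𝓝 (x.1, x.2)) :=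
    Continuous.tendsto (by fun_prop) x
  have h0 : f (x.1, x.2) = 0 := by
    by_contra h
    obtain ⟨y, h2, h3⟩ := (hfr.and_eventually ((hc.continuousAt.tendsto.comp hι).eventually_ne h)).exists
    exact h3 h2.2.1
  have hx' : x.2 ∈ Ioo (0 : ℝ) 1 := by
    refine ⟨hx.1.lt_of_ne fun h => (he x.1).1 ?_, hx.2.lt_of_ne fun h => (he x.1).2 ?_⟩
    · simpa [← h] using h0
    · simpa [h] using h0
  have hd : HasDerivAt (fun s : ℝ => f (x.1, s)) (fderiv ℂ f (x.1, x.2) (0, 1)) x.2 := by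
    have h2 : HasDerivAt (fun s : ℂ => ((x.1 : ℂ), s)) (0, 1) (x.2 : ℂ) :=
      (hasDerivAt_const _ _).prodMk (hasDerivAt_id _)
    exact ((hc.differentiableAt one_ne_zero).hasFDerivAt.comp_hasDerivAt (x.2 : ℂ) h2).comp_ofReal
  have hne : fderiv ℂ f (x.1, x.2) (0, 1) ≠ 0 := hd.deriv ▸ hs _ _ hx h0
  have hi : (fderiv ℂ f ((x.1 : ℂ), (x.2 : ℂ)) ∘L .inr ℂ ℂ ℂ).IsInvertible := by
    refine ⟨ContinuousLinearEquiv.unitsEquivAut ℂ (Units.mk0 _ hne), ?_⟩
    ext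
    simp
  set ψ := hc.implicitFunction one_ne_zero hi with hψ
  have p1 : ψ x.1 = x.2 := hc.implicitFunction_apply_self one_ne_zero hi
  have p2 := hc.eventually_apply_implicitFunction one_ne_zero hi
  have p3 := hc.eventually_apply_eq_iff_implicitFunction one_ne_zero hi
  have p4 : ContDiffAt ℂ 1 ψ x.1 := hc.contDiffAt_implicitFunction one_ne_zero hi
  have p5 : AnalyticAt ℂ ψ x.1 := Complex.analyticAt_iff_eventually_differentiableAt.2
    ((p4.eventually (by simp)).mono fun _ h => h.differentiableAt one_ne_zero)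
  have p6 : AnalyticAt ℝ (fun θ : ℝ => ψ θ) x.1 :=
    p5.restrictScalars.comp (f := fun θ : ℝ => (θ : ℂ)) (Complex.ofRealCLM.analyticAt _)
  have p7 : AnalyticAt ℝ (fun θ : ℝ => (ψ θ).im) x.1 := (Complex.imCLM.analyticAt _).comp p6
  have p8 : ∀ᶠ θ : ℝ in 𝓝 x.1, (ψ θ).im = 0 := by
    refine p7.frequently_zero_iff_eventually_zero.1 ?_
    rw [frequently_nhdsWithin_iff]
    refine (continuous_fst.tendsto x).frequently ((hfr.and_eventually (hι.eventually p3)).mono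
      fun y hy => ⟨?_, hy.1.2.2⟩)
    have := hy.2.1 (hy.1.2.1.trans h0.symm)
    rw [show ψ y.1 = y.2 from this, Complex.ofReal_im]
  have p9 : ∀ᶠ θ : ℝ in 𝓝 x.1, (ψ θ).re ∈ Ioo (0 : ℝ) 1 :=
    (Complex.continuous_re.continuousAt.comp p6.continuousAt).eventually
      (isOpen_Ioo.mem_nhds (by simpa [p1] using hx'))
  filter_upwards [p8, p9, (Complex.continuous_ofReal.tendsto x.1).eventually p2] with θ a b c
  refine ⟨(ψ θ).re, Ioo_subset_Icc_self b, ?_⟩
  have : (((ψ θ).re : ℝ) : ℂ) = ψ θ := Complex.ext (by simp) (by simp [a])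
  show f (θ, ((ψ θ).re : ℝ)) = 0
  rw [this, ← h0]
  exact c

end Pool.Agent.MP_1ba41f_an.S2
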