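import Pool.Agent.MP_1ba41f_an.S2.InjA

/-! Row INJ: the matched quantities determine a real state up to rotation. -/

noncomputable section
open Set Complex
open scoped ComplexConjugate

namespace Pool.Agent.MP_1ba41f_an.S2

namespace Inj

/-- The real data of a real state. -/
structure Dat (μ : ℂ) (z : Az) (c2 c3 G2 G3 e X Y x E : ℝ) : Prop where
  p2 : 0 < c2
  p3 : 0 < c3
  pe : 0 < e
  k2 : kk2 z = (c2 : ℂ) ^ 2
  k3 : kk3 z = (c3 : ℂ) ^ 2
  s3 : sq (kk3 z) = c3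
  ee : e ^ 2 = 1 - c3 ^ 2 * G3 ^ 2
  sph : X ^ 2 + Y ^ 2 + (c2 * G2) ^ 2 = 1
  ne : 1 - X ≠ 0
  mu : ‖μ‖ = 1
  uv : UV z = (((c2 * G2 / (1 - X) : ℝ) : ℂ), ((Y / (1 - X) : ℝ) : ℂ))
  ls : LS μ z = (x / c2 + E / c3 : ℝ)
  lp : LP μ z = ((x - (μ * (X - Y * I) * exp (I * x)).im) / c2 ^ 3 -
    (E - (-(e : ℂ) * exp (I * E)).im) / c3 ^ 3 : ℝ)
  an : ∀ a : ℝ, ang a (physA z) = a * G2 + (1 - a) * G3
  aa : aA3 z * conj (aA3 z) = (e : ℂ) ^ 2
  r1 : aA2 z * conj (aA3 z) = e * (X + Y * I)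
  r2 : (c2 * z 0 - I * z 2) ^ 2 * conj (aA3 z) = 2 * (1 + c2 * G2) * e * (μ * exp (I * x))
  r3 : (c3 * z 4 - I * z 6) ^ 2 * conj (aA3 z) = 2 * (1 + c3 * G3) * (-(e : ℂ) * exp (I * E))
  n2 : c2 * z 0 - I * z 2 ≠ 0
  n3 : c3 * z 4 - I * z 6 ≠ 0

theorem dat (hM : AlgMStmt) {j : Fin 3} {κ : ℂ} {z : Az} (hκ : κ.im = 0) (hz : RealZ z)
    (ho : OkA j κ z) : ∃ c2 c3 G2 G3 e X Y x E, Dat (mid j κ (UV z)) z c2 c3 G2 G3 e X Y x E := by
  obtain ⟨z1, z3, z5, z7, -⟩ := hz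
  obtain ⟨o0, -, o4, -, o5, o6, o7, o8, o9, oZ, -, -⟩ := ho
  have K2 : kk2 z = (2 - z 2 * conj (z 2)) / (z 0 * conj (z 0)) := by rw [kk2, rr2, z1, z3]
  have K3 : kk3 z = (2 - z 6 * conj (z 6)) / (z 4 * conj (z 4)) := by rw [kk3, rr3, z5, z7]
  obtain ⟨c2, r2, G2, S2, h2⟩ := one o0 (K2 ▸ o5)
  obtain ⟨c3, r3, G3, S3, h3⟩ := one o4 (K3 ▸ o6)
  rw [← K2] at h2
  rw [← K3] at h3
  have g2 : aG2 z = G2 := by rw [aG2, z1, z3, h2.gg]
  have g3 : aG3 z = G3 := by rw [aG3, z5, z7, h3.gg]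
  have s2 : aS2 z = S2 := by rw [aS2, z1, z3, h2.ss]
  have s3 : aS3 z = S3 := by rw [aS3, z5, z7, h3.ss]
  have t2 : aA2t z = conj (aA2 z) := by rw [aA2t, z1, z3, h2.cj, aA2]
  have t3 : aA3t z = conj (aA3 z) := by rw [aA3t, z5, z7, h3.cj, aA3]
  have a2 : aA2 z * conj (aA2 z) = 1 - c2 ^ 2 * G2 ^ 2 := h2.aa
  have a3 : aA3 z * conj (aA3 z) = 1 - c3 ^ 2 * G3 ^ 2 := h3.aa
  have q2 : (c2 * z 0 - I * z 2) ^ 2 * conj (aA2 z) =
    2 * (1 + c2 * G2) * (1 - c2 ^ 2 * r2 + I * c2 * S2) := h2.pa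
  have q3 : (c3 * z 4 - I * z 6) ^ 2 * conj (aA3 z) =
    2 * (1 + c3 * G3) * (1 - c3 ^ 2 * r3 + I * c3 * S3) := h3.pa
  obtain ⟨e, pe, e1, e2⟩ := sq_pos (t := 1 - kk3 z * aG3 z ^ 2) (by
    rw [h3.k2, g3]; norm_cast) o7
  have e3 : ee3 z = e := e1
  rw [h3.k2, g3] at e2
  have e0 : (e : ℂ) ≠ 0 := by exact_mod_cast pe.ne'
  rw [e2] at a3
  obtain ⟨X, Y, r1⟩ : ∃ X Y : ℝ, aA2 z * conj (aA3 z) = e * (X + Y * I) :=
    ⟨(aA2 z * conj (aA3 z) / e).re, (aA2 z * conj (aA3 z) / e).im, by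
      rw [Complex.re_add_im, mul_div_cancel₀ _ e0]⟩
  have r1' : conj (aA2 z) * aA3 z = e * (X - Y * I) := by
    have := congrArg conj r1
    simp only [map_mul, map_add, Complex.conj_conj, Complex.conj_ofReal, Complex.conj_I] at this
    rw [this]; ring
  have hx : hX z = X := by
    rw [hX, t2, t3, e3, r1, r1']; field_simp; ring
  have hy : hY z = Y := by
    rw [hY, t2, t3, e3, r1, r1']; field_simp; ring
  have sph : X ^ 2 + Y ^ 2 + (c2 * G2) ^ 2 = 1 := by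
    have : (X : ℂ) ^ 2 + Y ^ 2 + (c2 * G2) ^ 2 = 1 := by
      refine mul_left_cancel₀ (pow_ne_zero 2 e0) ?_
      linear_combination -(e * (X - Y * I)) * r1 - aA2 z * conj (aA3 z) * r1' +
        (e : ℂ) ^ 2 * a2 + aA2 z * conj (aA2 z) * a3 + (e : ℂ) ^ 2 * Y ^ 2 * I_sq
    exact_mod_cast this
  have uv : UV z = (((c2 * G2 / (1 - X) : ℝ) : ℂ), ((Y / (1 - X) : ℝ) : ℂ)) := by
    rw [UV, h2.sk, g2, hx, hy]; push_cast; rfl
  have mu : ‖mid j κ (UV z)‖ = 1 :=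
    (hM.2.2.1 κ (UV z) hκ (by rw [uv]; exact ⟨Complex.ofReal_im _, Complex.ofReal_im _⟩) oZ).2.2.1 j
  generalize mid j κ (UV z) = μ at mu
  have m0 : μ ≠ 0 := by
    rintro rfl
    simp at mu
  rw [h2.sk, g2] at o9
  have o3 : (1 : ℂ) + c3 * G3 ≠ 0 := by
    intro h
    apply pow_ne_zero 2 e0
    linear_combination -e2 + (1 - c3 * G3) * h
  have fh : Fh z = (c2 * z 0 - I * z 2) ^ 2 / (2 * (1 + c2 * G2)) * conj (aA3 z) / e := by
    rw [Fh, h2.sk, g2, t3, e3]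
  have nA : ‖aA3 z‖ = e := by
    have h1 := congrArg norm a3
    rw [norm_mul, Complex.norm_conj, norm_pow, Complex.norm_real, Real.norm_of_nonneg pe.le,
      ← pow_two] at h1
    exact (pow_left_inj₀ (norm_nonneg _) pe.le two_ne_zero).1 h1
  have nF : ‖Fh z / μ‖ = 1 := by
    have h1 := congrArg norm h2.pp
    rw [norm_mul, Complex.norm_conj, ← pow_two] at h1
    rw [norm_div, mu, div_one, fh, norm_div, norm_mul, norm_div, norm_pow, h1, Complex.norm_conj,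
      nA, div_self (norm_ne_zero_iff.2 (mul_ne_zero two_ne_zero o9)), one_mul, Complex.norm_real,
      Real.norm_of_nonneg pe.le, div_self pe.ne']
  obtain ⟨x, x1, x2⟩ := ulog nF
  rw [div_eq_iff m0, mul_comm] at x2
  have R3 : rr3 z = r3 := by rw [rr3, z5, h3.rr]
  have nE : ‖-(1 - (c3 : ℂ) ^ 2 * r3 + I * c3 * S3) / e‖ = 1 := by
    apply unit
    rw [map_div₀, map_neg, Complex.conj_ofReal, div_mul_div_comm, neg_mul_neg, h3.ee, e2, pow_two,
      div_self (mul_ne_zero e0 e0)]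
  obtain ⟨E, E1, E2⟩ := ulog nE
  have E3 : 1 - (c3 : ℂ) ^ 2 * r3 + I * c3 * S3 = -(e : ℂ) * exp (I * E) := by
    rw [← E2]; field_simp
  have xp : xph μ z = x := x1
  have ep : Eap z = E := by rw [Eap, h3.sk, h3.k2, R3, s3, e3]; exact E1
  have r2' : (c2 * z 0 - I * z 2) ^ 2 * conj (aA3 z) =
      2 * (1 + c2 * G2) * e * (μ * exp (I * x)) := by
    rw [← x2, fh]; field_simp
  have i2 : μ * (X - Y * I) * exp (I * x) = 1 - c2 ^ 2 * r2 + I * c2 * S2 := by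
    refine mul_left_cancel₀ (mul_ne_zero (mul_ne_zero two_ne_zero o9) (pow_ne_zero 2 e0)) ?_
    linear_combination -(e * (X - Y * I)) * r2' -
      (c2 * z 0 - I * z 2) ^ 2 * conj (aA3 z) * r1' +
      (c2 * z 0 - I * z 2) ^ 2 * conj (aA2 z) * a3 + (e : ℂ) ^ 2 * q2
  have j2 : (μ * (X - Y * I) * exp (I * x)).im = c2 * S2 := by
    rw [i2]; simp [← Complex.ofReal_pow]
  have j3 : (-(e : ℂ) * exp (I * E)).im = c3 * S3 := by
    rw [← E3]; simp [← Complex.ofReal_pow]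
  refine ⟨c2, c3, G2, G3, e, X, Y, x, E, h2.pos, h3.pos, pe, h2.k2, h3.k2, h3.sk, ?_, sph, ?_, mu,
    uv, ?_, ?_, fun a => ?_, a3, r1, r2', by rw [q3, E3], ?_, ?_⟩
  · exact_mod_cast e2.symm
  · rw [hx] at o8
    exact_mod_cast o8
  · rw [LS, xp, ep, h2.sk, h3.sk]; push_cast; rfl
  · rw [LP, xp, ep, h2.sk, h3.sk, s2, s3, j2, j3]; push_cast; rfl
  · simp only [ang, physA]
    rw [z1, z5, h2.im o0, h3.im o4]
  · intro h
    have h1 := h2.pp
    rw [h, zero_mul] at h1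
    exact mul_ne_zero two_ne_zero o9 h1.symm
  · intro h
    have h1 := h3.pp
    rw [h, zero_mul] at h1
    exact mul_ne_zero two_ne_zero o3 h1.symm

theorem stereo {X Y g : ℝ} (h : X ^ 2 + Y ^ 2 + g ^ 2 = 1) (h1 : 1 - X ≠ 0) :
    (g / (1 - X)) ^ 2 + (Y / (1 - X)) ^ 2 + 1 = 2 / (1 - X) := by
  field_simp
  linear_combination h

theorem body {c : ℝ} {w p w' p' l : ℂ} (hc : 0 < c) (hP : c * w - I * p ≠ 0) (hl : ‖l‖ = 1)
    (h1 : conj ((c * w' - I * p') ^ 2) = l * (c * w - I * p) ^ 2)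
    (h2 : conj (-(p' ^ 2 + (c : ℂ) ^ 2 * w' ^ 2) / 2) = l * (-(p ^ 2 + (c : ℂ) ^ 2 * w ^ 2) / 2)) :
    conj (w' ^ 2) = l * w ^ 2 ∧ -conj (p' / conj w') = l * (p / conj w) := by
  simp only [map_div₀, map_neg, map_add, map_sub, map_mul, map_pow, Complex.conj_ofReal,
    Complex.conj_I, map_ofNat] at h1 h2 ⊢
  have := recon (w' := conj w') (p' := -conj p') (by exact_mod_cast hc.ne') hP hl
    (by linear_combination h1) (by linear_combination -2 * h2)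
  rwa [neg_div] at this

end Inj

theorem injS (hM : AlgMStmt) : InjStmt := by
  intro a κ ha _ hκ
  refine ⟨fun j z hz ho i => ?_, fun j j' z z' hj hz hz' ho ho' hang _ hL => ?_⟩
  · obtain ⟨c2, c3, G2, G3, e, X, Y, x, E, D⟩ := Inj.dat hM hκ hz ho
    have h0 : (LH a z).im = 0 := by rw [LH, D.k2, D.k3]; norm_cast
    have h1 : (LK z).im = 0 := by rw [LK, D.s3]; norm_cast
    have h2 : (UV z).1.im = 0 := by rw [D.uv]; exact Complex.ofReal_im _
    have h3 : (UV z).2.im = 0 := by rw [D.uv]; exact Complex.ofReal_im _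
    have h4 : (LS (mid j κ (UV z)) z).im = 0 := by rw [D.ls]; exact Complex.ofReal_im _
    have h5 : (LP (mid j κ (UV z)) z).im = 0 := by rw [D.lp]; exact Complex.ofReal_im _
    fin_cases i
    exacts [h0, h1, h2, h3, h4, h5]
  obtain ⟨c2, c3, G2, G3, e, X, Y, x, E, D⟩ := Inj.dat hM hκ hz ho
  obtain ⟨c2', c3', G2', G3', e', X', Y', x', E', D'⟩ := Inj.dat hM hκ hz' ho'
  have l0 : LH a z' = LH a z := congrFun hL 0
  have l1 : LK z' = LK z := congrFun hL 1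
  have l2 : (UV z').1 = (UV z).1 := congrFun hL 2
  have l3 : (UV z').2 = -(UV z).2 := congrFun hL 3
  have l4 : LS (mid j' κ (UV z')) z' = -LS (mid j κ (UV z)) z := congrFun hL 4
  have l5 : LP (mid j' κ (UV z')) z' = -LP (mid j κ (UV z)) z := congrFun hL 5
  have hm : mid j' κ (UV z') = conj (mid j κ (UV z)) := by
    have h1 : UV z' = Gm (UV z) := Prod.ext l2 l3
    have h2 := (hM.2.2.1 κ (UV z) hκ (by
      rw [D.uv]; exact ⟨Complex.ofReal_im _, Complex.ofReal_im _⟩) ho.2.2.2.2.2.2.2.2.2.1).2.2.2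
    rw [h1]
    rcases hj with ⟨rfl, rfl⟩ | ⟨rfl, rfl⟩
    exacts [h2.1, h2.2]
  rw [hm] at D' l4 l5
  generalize mid j κ (UV z) = μ at D D' l4 l5
  obtain rfl : c3' = c3 := by
    rw [LK, LK, D.s3, D'.s3, one_div, one_div, inv_inj] at l1
    exact (pow_left_inj₀ D'.p3.le D.p3.le three_ne_zero).1 (by exact_mod_cast l1)
  obtain rfl : c2' = c2 := by
    rw [LH, LH, D.k2, D.k3, D'.k2, D'.k3] at l0
    have a0 : (a : ℂ) ≠ 0 := by exact_mod_cast ha.ne'
    have : (c2' : ℂ) ^ 2 = (c2 : ℂ) ^ 2 := mul_left_cancel₀ a0 (by linear_combination -2 * l0)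
    exact (pow_left_inj₀ D'.p2.le D.p2.le two_ne_zero).1 (by exact_mod_cast this)
  rw [D.uv, D'.uv] at l2 l3
  dsimp only at l2 l3
  have u1 : c2' * G2' / (1 - X') = c2' * G2 / (1 - X) := by exact_mod_cast l2
  have u2 : Y' / (1 - X') = -(Y / (1 - X)) := by exact_mod_cast l3
  obtain rfl : X' = X := by
    have h1 := Inj.stereo D.sph D.ne
    have h2 := Inj.stereo D'.sph D'.ne
    rw [u1, u2, neg_sq, h1, div_eq_div_iff D.ne D'.ne] at h2
    linarith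
  obtain rfl : G2' = G2 := mul_left_cancel₀ D.p2.ne' ((div_left_inj' D.ne).1 u1)
  obtain rfl : Y' = -Y := by
    rw [← neg_div] at u2
    exact (div_left_inj' D.ne).1 u2
  obtain rfl : G3' = G3 := by
    rw [D.an, D'.an] at hang
    exact (mul_left_cancel₀ (by linarith : 1 - a ≠ 0) (by linarith)).symm
  obtain rfl : e' = e := (pow_left_inj₀ D'.pe.le D.pe.le two_ne_zero).1 (by rw [D.ee, D'.ee])
  have ce : ∀ t : ℝ, conj (exp (I * (-t : ℝ))) = exp (I * t) := by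
    intro t
    rw [← Complex.exp_conj, map_mul, Complex.conj_I, Complex.conj_ofReal]
    push_cast
    congr 1; ring
  have hxE : x = -x' ∧ E = -E' := by
    rw [D.ls, D'.ls] at l4
    rw [D.lp, D'.lp] at l5
    have v1 : x' / c2' + E' / c3' = -(x / c2' + E / c3') := by exact_mod_cast l4
    have v2 := Complex.ofReal_injective (l5.trans (Complex.ofReal_neg _).symm)
    have w1 : (conj μ * (X' - (-Y : ℝ) * I) * exp (I * x')).im =
        -(μ * (X' - Y * I) * exp (I * (-x' : ℝ))).im := by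
      rw [← Complex.conj_im, map_mul, ce, map_mul]
      simp only [map_sub, map_mul, Complex.conj_ofReal, Complex.conj_I]
      push_cast
      congr 3; ring
    have w2 : (-(e' : ℂ) * exp (I * E')).im = -(-(e' : ℂ) * exp (I * (-E' : ℝ))).im := by
      rw [← Complex.conj_im, map_mul, ce, map_neg, Complex.conj_ofReal]
    rw [w1, w2] at v2
    refine Inj.uniq (B := μ * (X' - Y * I)) (C := -(e' : ℂ)) ?_ ?_ D.p2 D.p3 ?_ ?_
    · rw [norm_mul, D.mu, one_mul, ← sq_le_one_iff₀ (norm_nonneg _), ← Complex.normSq_eq_norm_sq,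
        Complex.normSq_apply]
      have := D.sph
      simp
      nlinarith [sq_nonneg (c2' * G2')]
    · rw [norm_neg, Complex.norm_real, Real.norm_of_nonneg D.pe.le, ← sq_le_one_iff₀ D.pe.le, D.ee]
      nlinarith [sq_nonneg (c3' * G3')]
    · rw [neg_div, neg_div]; linarith
    · linear_combination v2
  obtain ⟨hx, hE⟩ := hxE
  obtain rfl : x' = -x := by linarith
  obtain rfl : E' = -E := by linarith
  have e0 : (e' : ℂ) ≠ 0 := by exact_mod_cast D.pe.ne'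
  have key : ∀ T T' : ℂ, conj (T' * conj (aA3 z')) = T * conj (aA3 z) →
      conj T' = conj (aA3 z') * conj (aA3 z) / (e' : ℂ) ^ 2 * T := by
    intro T T' h
    rw [map_mul, Complex.conj_conj] at h
    rw [div_mul_eq_mul_div, eq_div_iff (pow_ne_zero 2 e0)]
    linear_combination conj (aA3 z') * h - conj T' * D'.aa
  have nA : ∀ u : ℂ, u * conj u = (e' : ℂ) ^ 2 → ‖u‖ = e' := by
    intro u h
    have h1 := congrArg norm h
    rw [norm_mul, Complex.norm_conj, norm_pow, Complex.norm_real, Real.norm_of_nonneg D.pe.le,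
      ← pow_two] at h1
    exact (pow_left_inj₀ (norm_nonneg _) D.pe.le two_ne_zero).1 h1
  have hl : ‖conj (aA3 z') * conj (aA3 z) / (e' : ℂ) ^ 2‖ = 1 := by
    rw [norm_div, norm_mul, Complex.norm_conj, Complex.norm_conj, nA _ D.aa, nA _ D'.aa, norm_pow,
      Complex.norm_real, Real.norm_of_nonneg D.pe.le, pow_two, div_self (by have := D.pe; positivity)]
  have b1 := key (aA2 z) (aA2 z') (by
    rw [D.r1, D'.r1]
    simp only [map_add, map_mul, Complex.conj_ofReal, Complex.conj_I]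
    push_cast; ring)
  have b2 := key _ _ (show conj ((c2' * z' 0 - I * z' 2) ^ 2 * conj (aA3 z')) =
      (c2' * z 0 - I * z 2) ^ 2 * conj (aA3 z) by
    rw [D.r2, D'.r2]
    simp only [map_add, map_mul, map_one, map_ofNat, Complex.conj_ofReal, Complex.conj_conj, ce])
  have b3 := key (aA3 z) (aA3 z') (by rw [D.aa, D'.aa, map_pow, Complex.conj_ofReal])
  have b4 := key _ _ (show conj ((c3' * z' 4 - I * z' 6) ^ 2 * conj (aA3 z')) =
      (c3' * z 4 - I * z 6) ^ 2 * conj (aA3 z) by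
    rw [D.r3, D'.r3]
    simp only [map_add, map_mul, map_one, map_neg, map_ofNat, Complex.conj_ofReal, ce])
  generalize conj (aA3 z') * conj (aA3 z) / (e' : ℂ) ^ 2 = l at hl b1 b2 b3 b4
  rw [aA2, aA2, D.k2, D'.k2] at b1
  rw [aA3, aA3, D.k3, D'.k3] at b3
  obtain ⟨f1, f2⟩ := Inj.body D.p2 D.n2 hl b2 b1
  obtain ⟨f3, f4⟩ := Inj.body D.p3 D.n3 hl b4 b3
  refine ⟨l, hl, ?_⟩
  simp only [mir, physA, cj, Prod.smul_mk, smul_eq_mul, Prod.neg_mk]
  rw [hz.1, hz.2.2.1, hz'.1, hz'.2.2.1, f1, f2, f3, f4]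

end Pool.Agent.MP_1ba41f_an.S2
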