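import Pool.Agent.MP_1ba41f_an.S2.SpecK

/-! Row INJ, first part: the algebra of one real Kepler state. -/

noncomputable section
open Set Complex
open scoped ComplexConjugate

namespace Pool.Agent.MP_1ba41f_an.S2

namespace Inj

theorem sq_pos {t : ℂ} (h1 : t.im = 0) (h2 : 0 < t.re) :
    ∃ c : ℝ, 0 < c ∧ sq t = c ∧ t = (c : ℂ) ^ 2 := by
  obtain ⟨s, rfl⟩ : ∃ s : ℝ, t = s := ⟨t.re, by apply Complex.ext <;> simp [h1]⟩
  have hs : 0 < s := by simpa using h2
  refine ⟨√s, Real.sqrt_pos.2 hs, ?_, ?_⟩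
  · unfold sq
    rw [Real.sqrt_eq_rpow, Complex.ofReal_cpow hs.le]
    norm_num
  · rw [← Complex.ofReal_pow, Real.sq_sqrt hs.le]

theorem unit {u : ℂ} (h : u * conj u = 1) : ‖u‖ = 1 := by
  have h1 := congrArg norm h
  rw [norm_mul, Complex.norm_conj, norm_one] at h1
  nlinarith [norm_nonneg u]

theorem unit' {u : ℂ} (h : ‖u‖ = 1) : u * conj u = 1 := by
  rw [Complex.mul_conj, Complex.normSq_eq_norm_sq, h]; simp

theorem ulog {u : ℂ} (h : ‖u‖ = 1) : ∃ x : ℝ, -I * log u = x ∧ u = exp (I * x) := by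
  refine ⟨arg u, ?_, ?_⟩
  · rw [Complex.log, h, Real.log_one]
    push_cast
    linear_combination (-(arg u : ℂ)) * I_sq
  · have := Complex.norm_mul_exp_arg_mul_I u
    rw [h, mul_comm (arg u : ℂ)] at this
    simpa using this.symm

theorem mono {B : ℂ} (hB : ‖B‖ ≤ 1) {x y : ℝ} (h : x < y) :
    x - (B * exp (I * x)).im < y - (B * exp (I * y)).im := by
  have h1 : B * exp (I * y) - B * exp (I * x) = B * exp (I * x) * (exp (I * (y - x : ℝ)) - 1) := by
    have : exp (I * y) = exp (I * x) * exp (I * (y - x : ℝ)) := by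
      rw [← Complex.exp_add]; congr 1; push_cast; ring
    rw [this]; ring
  have h2 : ‖B * exp (I * y) - B * exp (I * x)‖ < y - x := by
    rw [h1, norm_mul, norm_mul, Complex.norm_exp_I_mul_ofReal, mul_one,
      Complex.norm_exp_I_mul_ofReal_sub_one, Real.norm_eq_abs, abs_mul, abs_two]
    have h3 := Real.abs_sin_lt_abs (x := (y - x) / 2) (by linarith)
    rw [abs_of_pos (by linarith : 0 < (y - x) / 2)] at h3
    nlinarith [abs_nonneg (Real.sin ((y - x) / 2)), norm_nonneg B]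
  have h3 := (le_abs_self _).trans (Complex.abs_im_le_norm (B * exp (I * y) - B * exp (I * x)))
  rw [Complex.sub_im] at h3
  linarith

theorem uniq {B C : ℂ} (hB : ‖B‖ ≤ 1) (hC : ‖C‖ ≤ 1) {c d x y E F : ℝ} (hc : 0 < c) (hd : 0 < d)
    (h1 : x / c + E / d = y / c + F / d)
    (h2 : (x - (B * exp (I * x)).im) / c ^ 3 - (E - (C * exp (I * E)).im) / d ^ 3 =
      (y - (B * exp (I * y)).im) / c ^ 3 - (F - (C * exp (I * F)).im) / d ^ 3) : x = y ∧ E = F := by
  have key : ∀ x y E F : ℝ, x / c + E / d = y / c + F / d → x < y →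
      (x - (B * exp (I * x)).im) / c ^ 3 - (E - (C * exp (I * E)).im) / d ^ 3 <
      (y - (B * exp (I * y)).im) / c ^ 3 - (F - (C * exp (I * F)).im) / d ^ 3 := by
    intro x y E F h1 h
    have a1 := div_lt_div_of_pos_right h hc
    have a2 : F < E := (div_lt_div_iff_of_pos_right hd).1 (by linarith)
    have a3 := div_lt_div_of_pos_right (mono hB h) (pow_pos hc 3)
    have a4 := div_lt_div_of_pos_right (mono hC a2) (pow_pos hd 3)
    linarith
  have hxy : x = y := by
    rcases lt_trichotomy x y with h | h | h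
    · exact absurd h2 (key x y E F h1 h).ne
    · exact h
    · exact absurd h2 (key y x F E h1.symm h).ne'
  refine ⟨hxy, ?_⟩
  rw [hxy] at h1
  exact (div_left_inj' hd.ne').1 (by linarith)

theorem recon {c w p w' p' l : ℂ} (hc : c ≠ 0) (hP : c * w - I * p ≠ 0) (hl : ‖l‖ = 1)
    (h1 : (c * w' - I * p') ^ 2 = l * (c * w - I * p) ^ 2)
    (h2 : p' ^ 2 + c ^ 2 * w' ^ 2 = l * (p ^ 2 + c ^ 2 * w ^ 2)) :
    w' ^ 2 = l * w ^ 2 ∧ p' / conj w' = l * (p / conj w) := by
  obtain ⟨m, hm⟩ : ∃ m, c * w' - I * p' = m * (c * w - I * p) := ⟨_, (div_mul_cancel₀ _ hP).symm⟩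
  have m2 : m ^ 2 = l := by
    refine mul_right_cancel₀ (pow_ne_zero 2 hP) ?_
    rw [← h1, hm]; ring
  have m1 : ‖m‖ = 1 := by
    rw [← m2, norm_pow] at hl
    exact (pow_eq_one_iff_of_nonneg (norm_nonneg m) two_ne_zero).1 hl
  have m0 : m ≠ 0 := by
    rintro rfl
    simp at m1
  have hh : c * w' + I * p' = m * (c * w + I * p) := by
    refine mul_left_cancel₀ (mul_ne_zero m0 hP) ?_
    rw [← hm]
    linear_combination h2 - (p ^ 2 + c ^ 2 * w ^ 2) * m2 - m * (c * w + I * p) * hm +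
      (m ^ 2 * p ^ 2 - p' ^ 2) * I_sq
  have e1 : w' = m * w := by
    refine mul_left_cancel₀ (mul_ne_zero two_ne_zero hc) ?_
    linear_combination hm + hh
  have e2 : p' = m * p := by
    refine mul_left_cancel₀ (mul_ne_zero two_ne_zero I_ne_zero) ?_
    linear_combination hh - hm
  have m3 : conj m = m⁻¹ := (eq_inv_of_mul_eq_one_right (unit' m1))
  refine ⟨by rw [e1, ← m2]; ring, ?_⟩
  rw [e1, e2, map_mul, m3, ← m2, mul_div_mul_comm, div_inv_eq_mul, pow_two]

/-- One real Kepler state. -/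
structure One (w p k : ℂ) (c r G S : ℝ) : Prop where
  pos : 0 < c
  sk : sq k = c
  k2 : k = (c : ℂ) ^ 2
  rr : w * conj w = r
  en : (c : ℂ) ^ 2 * (w * conj w) + p * conj p = 2
  cw : conj w * p = S + G * I
  cw' : w * conj p = S - G * I

theorem one {w p : ℂ} (hw : w ≠ 0) (hk : 0 < ((2 - p * conj p) / (w * conj w)).re) :
    ∃ c r G S, One w p ((2 - p * conj p) / (w * conj w)) c r G S := by
  have h0 : w * conj w ≠ 0 := mul_ne_zero hw ((map_ne_zero _).2 hw)
  obtain ⟨c, h1, h2, h3⟩ := sq_pos (t := (2 - p * conj p) / (w * conj w)) (by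
    rw [Complex.mul_conj, Complex.mul_conj]
    have : ((2 : ℂ) - (normSq p : ℝ)) / (normSq w : ℝ) = ((2 - normSq p) / normSq w : ℝ) := by
      push_cast; rfl
    rw [this, Complex.ofReal_im]) hk
  refine ⟨c, normSq w, (conj w * p).im, (conj w * p).re, h1, h2, h3, Complex.mul_conj w, ?_,
    (Complex.re_add_im _).symm, ?_⟩
  · rw [← h3, div_mul_cancel₀ _ h0]; ring
  · apply Complex.ext <;> simp
    ring

variable {w p k : ℂ} {c r G S : ℝ}

theorem One.gg (h : One w p k c r G S) : (conj w * p - w * conj p) / (2 * I) = G := by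
  rw [h.cw, h.cw', div_eq_iff (mul_ne_zero two_ne_zero I_ne_zero)]; ring

theorem One.ss (h : One w p k c r G S) : (conj w * p + w * conj p) / 2 = S := by
  rw [h.cw, h.cw']; ring

theorem One.cj (h : One w p k c r G S) :
    -(conj p ^ 2 + k * conj w ^ 2) / 2 = conj (-(p ^ 2 + k * w ^ 2) / 2) := by
  rw [h.k2]
  simp only [map_div₀, map_neg, map_add, map_mul, map_pow, Complex.conj_ofReal, map_ofNat]

theorem One.pp (h : One w p k c r G S) : (c * w - I * p) * conj (c * w - I * p) = 2 * (1 + c * G) := by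
  simp only [map_sub, map_mul, Complex.conj_ofReal, Complex.conj_I]
  linear_combination h.en + I * c * h.cw' - I * c * h.cw - (p * conj p + 2 * c * G) * I_sq

theorem One.aa (h : One w p k c r G S) :
    -(p ^ 2 + k * w ^ 2) / 2 * conj (-(p ^ 2 + k * w ^ 2) / 2) = 1 - c ^ 2 * G ^ 2 := by
  rw [← h.cj, h.k2]
  have hG : conj w * p - w * conj p = 2 * G * I := by rw [h.cw, h.cw']; ring
  linear_combination (((c : ℂ) ^ 2 * (w * conj w) + p * conj p + 2) / 4) * h.en +
    ((c : ℂ) ^ 2 / 4 * (conj w * p - w * conj p + 2 * G * I)) * hG + ((c : ℂ) ^ 2 * G ^ 2) * I_sq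

theorem One.pa (h : One w p k c r G S) :
    (c * w - I * p) ^ 2 * conj (-(p ^ 2 + k * w ^ 2) / 2) =
      2 * (1 + c * G) * (1 - c ^ 2 * r + I * c * S) := by
  have h1 := h.pp
  simp only [map_sub, map_mul, Complex.conj_ofReal, Complex.conj_I] at h1
  have h2 : (c * w - I * p) * (c * conj w - I * conj p) = -2 * (1 - c ^ 2 * r + I * c * S) := by
    linear_combination -h.en + 2 * (c : ℂ) ^ 2 * h.rr - I * c * h.cw' - I * c * h.cw +
      p * conj p * I_sq
  rw [← h.cj, h.k2, ← h1]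
  linear_combination (-(1 / 2) * (c * w - I * p) * (c * conj w + I * conj p)) * h2 -
    (1 / 2 * (c * w - I * p) ^ 2 * conj p ^ 2) * I_sq

theorem One.ee (h : One w p k c r G S) :
    (1 - c ^ 2 * r + I * c * S) * conj (1 - (c : ℂ) ^ 2 * r + I * c * S) = 1 - c ^ 2 * G ^ 2 := by
  simp only [map_add, map_sub, map_mul, map_pow, map_one, Complex.conj_ofReal, Complex.conj_I]
  have h1 : (S : ℂ) ^ 2 + G ^ 2 = r * (2 - c ^ 2 * r) := by
    linear_combination -(S - G * I) * h.cw - conj w * p * h.cw' + G ^ 2 * I_sq +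
      w * conj w * h.en + (2 - c ^ 2 * r - c ^ 2 * (w * conj w)) * h.rr
  linear_combination (c : ℂ) ^ 2 * h1 - (c : ℂ) ^ 2 * S ^ 2 * I_sq

theorem One.im (h : One w p k c r G S) (hw : w ≠ 0) : (conj (w ^ 2) * (p / conj w)).im = G := by
  have h0 : conj w ≠ 0 := (map_ne_zero _).2 hw
  have : conj (w ^ 2) * (p / conj w) = conj w * p := by
    rw [map_pow]; field_simp
  rw [this, h.cw]; simp

end Inj

end Pool.Agent.MP_1ba41f_an.S2
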