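import Pool.Agent.MP_1ba41f_an.S2.SpecT

/-! The main statement from tori, gluing and covering. -/

noncomputable section
open Set Complex Filter Topology

namespace Pool.Agent.MP_1ba41f_an.S2

/-- The two directions of the limit differ at the angle `π`. -/
def EbStmt : Prop := ∀ Mb : ℝ, Mb < 1 → ∃ μ : ℝ, 0 < μ ∧ ∀ M ∈ Icc (9 / 10 : ℝ) Mb,
  ∀ H ∈ Icc (0 : ℝ) He, ∀ σ : ℝ, σ = 1 ∨ σ = -1 →
    2 * μ < ‖eb σ σ (fK M H) (r2c (fx M H Real.pi)) - eb σ (-σ) (fK M H) (r2c (fx M H Real.pi))‖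

namespace Fnl

variable {a e η S : ℝ} {K : Set (Xi × ℂ)} {enc : Xi × ℂ → En} {arc : Xi × ℂ → Az}

/-- the families never pass through the triple collision -/
theorem pcs_ne (h : Half a e η K S enc arc) {ξ : Fin 3 → ℝ → Xi} {T : Fin 3 → ℝ → ℝ}
    (f : Fam3 η K arc ξ T) (j : Fin 3 × Bool) (θ : ℝ) {τ : ℝ} (hτ : τ ∈ Icc (0 : ℝ) 1) :
    pcs a S enc arc ξ T j (θ, τ) ≠ 0 := by
  obtain ⟨hK, hr, T0, hη⟩ := f.mem j.1 θ
  unfold pcs
  split_ifs with hj
  · obtain ⟨A, -, hA⟩ := h.encR _ hK hr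
    have h1 := (hA (τ * S) ⟨mul_nonneg hτ.1 h.spos.le, by nlinarith [hτ.2, h.spos]⟩).2.1
    intro h0
    have h2 : enc (ξ j.1 θ, ((τ * S : ℝ) : ℂ)) 0 = 0 := congrArg Prod.fst h0
    simp only [h2, zero_sub, norm_neg] at h1
    have := (Complex.re_le_norm _).trans h1
    nlinarith [sq_nonneg η]
  · have h1 := (h.arcR _ hK hr _ rfl (τ * T j.1 θ) ⟨mul_nonneg hτ.1 T0.le,
      by nlinarith [hτ.2]⟩).2.1
    intro h0
    have h2 : arc (ξ j.1 θ, ((τ * T j.1 θ : ℝ) : ℂ)) 0 ^ 2 = 0 := congrArg Prod.fst h0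
    have h3 : arc (ξ j.1 θ, ((τ * T j.1 θ : ℝ) : ℂ)) 4 ^ 2 = 0 := congrArg Prod.snd h0
    apply h1
    simp only [nn, rr2, rr3, pow_eq_zero_iff two_ne_zero |>.1 h2,
      pow_eq_zero_iff two_ne_zero |>.1 h3, zero_mul, add_zero]

def pE (z : En) : ℂ × ℂ := (z 0, z 0 + z 2 ^ 2)
def pA (z : Az) : ℂ × ℂ := (z 0 ^ 2, z 4 ^ 2)

theorem pE_diff : Differentiable ℂ pE := by unfold pE; fun_prop
theorem pA_diff : Differentiable ℂ pA := by unfold pA; fun_prop

theorem atE (h : Half a e η K S enc arc) {k : Xi × ℂ} (hk : k ∈ K) {τ : ℝ}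
    (hτ : τ ∈ Icc (0 : ℝ) 1) :
    DifferentiableAt ℝ (fun x => pE (enc x)) (k.1, ((τ * S : ℝ) : ℂ)) := by
  obtain ⟨U, V, hU, -, dU, -, hm⟩ := h.hol
  have := (hm k hk).1 (τ * S) ⟨mul_nonneg hτ.1 h.spos.le, by nlinarith [hτ.2, h.spos]⟩
  exact ((pE_diff _).comp _ (dU.differentiableAt (hU.mem_nhds this))).restrictScalars ℝ

theorem atA (h : Half a e η K S enc arc) {x : Xi} {T : ℝ} (hk : (x, (T : ℂ)) ∈ K) {τ : ℝ}
    (hτ : τ ∈ Icc (0 : ℝ) 1) :
    DifferentiableAt ℝ (fun x => pA (arc x)) (x, ((τ * T : ℝ) : ℂ)) := by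
  obtain ⟨U, V, -, hV, -, dV, hm⟩ := h.hol
  have := (hm _ hk).2 τ hτ
  rw [Complex.ofReal_mul]
  exact ((pA_diff _).comp _ (dV.differentiableAt (hV.mem_nhds this))).restrictScalars ℝ

theorem pcs_diff (h : Half a e η K S enc arc) {ξ : Fin 3 → ℝ → Xi} {T : Fin 3 → ℝ → ℝ}
    (f : Fam3 η K arc ξ T) (j : Fin 3 × Bool) :
    DifferentiableOn ℝ (pcs a S enc arc ξ T j) KK := by
  intro x hx
  have d1 : DifferentiableAt ℝ (fun y : ℝ × ℝ => ξ j.1 y.1) x :=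
    ((f.ana j.1).1 x.1 (mem_univ _)).differentiableAt.comp x differentiableAt_fst
  have d2 : DifferentiableAt ℝ (fun y : ℝ × ℝ => T j.1 y.1) x :=
    ((f.ana j.1).2 x.1 (mem_univ _)).differentiableAt.comp x differentiableAt_fst
  have hK := (f.mem j.1 x.1).1
  refine DifferentiableAt.differentiableWithinAt ?_
  unfold pcs
  split_ifs with hj
  · exact DifferentiableAt.comp (g := fun x => pE (enc x))
      (f := fun y : ℝ × ℝ => (ξ j.1 y.1, ((y.2 * S : ℝ) : ℂ))) x (atE h hK hx.2)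
      (d1.prodMk (Complex.ofRealCLM.differentiableAt.comp x (differentiableAt_snd.mul_const S)))
  · exact DifferentiableAt.comp (g := fun x => pA (arc x))
      (f := fun y : ℝ × ℝ => (ξ j.1 y.1, ((y.2 * T j.1 y.1 : ℝ) : ℂ))) x (atA h hK hx.2)
      (d1.prodMk (Complex.ofRealCLM.differentiableAt.comp x (differentiableAt_snd.mul d2)))

theorem pcs_cont {P : Type} [TopologicalSpace P] (h : Half a e η K S enc arc)
    {ξ : P → Fin 3 → ℝ → Xi} {T : P → Fin 3 → ℝ → ℝ} (f : ∀ p, Fam3 η K arc (ξ p) (T p))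
    (hc : ∀ j, Continuous (fun x : P × ℝ => ξ x.1 j x.2) ∧ Continuous fun x : P × ℝ => T x.1 j x.2)
    (j : Fin 3 × Bool) :
    ContinuousOn (fun q : P × ℝ × ℝ => pcs a S enc arc (ξ q.1) (T q.1) j q.2) (univ ×ˢ KK) := by
  intro x hx
  have d1 : Continuous fun y : P × ℝ × ℝ => ξ y.1 j.1 y.2.1 :=
    (hc j.1).1.comp (f := fun y : P × ℝ × ℝ => (y.1, y.2.1)) (by fun_prop)
  have d2 : Continuous fun y : P × ℝ × ℝ => T y.1 j.1 y.2.1 :=
    (hc j.1).2.comp (f := fun y : P × ℝ × ℝ => (y.1, y.2.1)) (by fun_prop)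
  have hK := ((f x.1).mem j.1 x.2.1).1
  refine ContinuousAt.continuousWithinAt ?_
  unfold pcs
  split_ifs with hj
  · exact ContinuousAt.comp (g := fun x => pE (enc x))
      (f := fun y : P × ℝ × ℝ => (ξ y.1 j.1 y.2.1, ((y.2.2 * S : ℝ) : ℂ)))
      (atE h hK hx.2.2).continuousAt (d1.prodMk (by fun_prop)).continuousAt
  · exact ContinuousAt.comp (g := fun x => pA (arc x))
      (f := fun y : P × ℝ × ℝ => (ξ y.1 j.1 y.2.1, ((y.2.2 * T y.1 j.1 y.2.1 : ℝ) : ℂ)))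
      (atA h hK hx.2.2).continuousAt
      (d1.prodMk (continuous_ofReal.comp (continuous_snd.snd.mul d2))).continuousAt

theorem hit (h : Half a e η K S enc arc) {ξ : Fin 3 → ℝ → Xi} {T : Fin 3 → ℝ → ℝ}
    (f : Fam3 η K arc ξ T) {sa : ℝ} {chi : ℝ → ℝ} {j : Fin 3} (hs : ∀ θ, sa ≤ T j θ) {x : ℂ × ℂ}
    (hx : Hits sa S (fun x => enc (ξ j (chi x.1), x.2) 0) (fun x => enc (ξ j (chi x.1), x.2) 2)
      (fun x => arc (ξ j (chi x.1), x.2) 0) (fun x => arc (ξ j (chi x.1), x.2) 4) x) :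
    ∃ i θ, ∃ τ ∈ Icc (0 : ℝ) 1,
      x.2 * (pcs a S enc arc ξ T i (θ, τ)).1 = x.1 * (pcs a S enc arc ξ T i (θ, τ)).2 := by
  obtain ⟨φ, ⟨s, hs', e1⟩ | ⟨s, hs', e1⟩⟩ := hx
  · refine ⟨(j, true), chi φ, s / S, ⟨div_nonneg hs'.1 h.spos.le, (div_le_one h.spos).2 hs'.2⟩, ?_⟩
    simp only [pcs, if_true, div_mul_cancel₀ s h.spos.ne', physE]
    exact e1
  · have T0 := (f.mem j (chi φ)).2.2.1
    refine ⟨(j, false), chi φ, s / T j (chi φ), ⟨div_nonneg hs'.1 T0.le,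
      (div_le_one T0).2 (hs'.2.trans (hs _))⟩, ?_⟩
    simp only [pcs, Bool.false_eq_true, if_false, div_mul_cancel₀ s T0.ne', physA]
    exact e1

theorem He_nonneg : 0 ≤ He := Real.sqrt_nonneg _

/-- retraction of the plane onto the box -/
def pr {δ : ℝ} (hδ : 0 < δ) (x : ℝ × ℝ) : PB δ :=
  ⟨(projIcc (1 - δ) 1 (by linarith) x.1, projIcc 0 He He_nonneg x.2),
    (projIcc (1 - δ) 1 (by linarith) x.1).2, (projIcc 0 He He_nonneg x.2).2⟩

theorem pr_cont {δ : ℝ} (hδ : 0 < δ) : Continuous (pr hδ) := by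
  refine Continuous.subtype_mk (Continuous.prodMk ?_ ?_) _
  · exact continuous_subtype_val.comp (continuous_projIcc.comp continuous_fst)
  · exact continuous_subtype_val.comp (continuous_projIcc.comp continuous_snd)

theorem pr_val {δ : ℝ} (hδ : 0 < δ) {x : ℝ × ℝ} (h1 : x.1 ∈ Icc (1 - δ) 1) (h2 : x.2 ∈ Icc 0 He) :
    (pr hδ x).1 = x := by
  simp only [pr, projIcc_of_mem _ h1, projIcc_of_mem _ h2]

/-- choice of the rotation and of the right side of the rectangle -/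
theorem choose_w (hD : DioStmt) {δ : ℝ} (hδ : 0 < δ) {om : PB δ → ℝ} (hc : Continuous om)
    (h1 : ∀ p, om p = -Real.pi ↔ p.1.1 = 1) :
    ∃ w g η Mb ς : ℝ, DioW w g ∧ 0 < η ∧ 1 - δ ≤ Mb ∧ Mb < 1 ∧ (ς = 1 ∨ ς = -1) ∧
      (∀ p : PB δ, p.1.1 = 1 - δ → 2 * η ≤ ς * (om p - w)) ∧
      ∀ p : PB δ, p.1.1 = Mb → ς * (om p - w) ≤ -(2 * η) := by
  have hl : (1 - δ) ∈ Icc (1 - δ) 1 := ⟨le_rfl, by linarith⟩
  let F : ℝ → ℝ := fun H => om (pr hδ (1 - δ, H)) + Real.pi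
  have cF : Continuous F := (hc.comp ((pr_cont hδ).comp (by fun_prop))).add continuous_const
  have F0 : ∀ H ∈ Icc 0 He, F H ≠ 0 := fun H hH h0 => by
    have := (h1 (pr hδ (1 - δ, H))).1 (by simp only [F] at h0; linarith)
    rw [pr_val hδ hl hH] at this
    simp only at this
    linarith
  have hF : ∀ p : PB δ, p.1.1 = 1 - δ → om p + Real.pi = F p.1.2 := fun p hp => by
    have : pr hδ (1 - δ, p.1.2) = p := Subtype.ext (by
      rw [pr_val hδ (x := (1 - δ, p.1.2)) hl p.2.2]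
      exact Prod.ext hp.symm rfl)
    simp only [F, this]
  have z : (0 : ℝ) ∈ Icc 0 He := ⟨le_rfl, He_nonneg⟩
  obtain ⟨ς, hς, hpos⟩ : ∃ ς : ℝ, (ς = 1 ∨ ς = -1) ∧ ∀ H ∈ Icc 0 He, 0 < ς * F H := by
    rcases lt_or_gt_of_ne (F0 0 z) with h | h
    · refine ⟨-1, Or.inr rfl, fun H hH => ?_⟩
      by_contra hn
      obtain ⟨y, hy, e⟩ := isPreconnected_Icc.intermediate_value z hH cF.continuousOn
        (show (0 : ℝ) ∈ Icc (F 0) (F H) from ⟨h.le, by linarith⟩)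
      exact F0 y hy e
    · refine ⟨1, Or.inl rfl, fun H hH => ?_⟩
      by_contra hn
      obtain ⟨y, hy, e⟩ := isPreconnected_Icc.intermediate_value hH z cF.continuousOn
        (show (0 : ℝ) ∈ Icc (F H) (F 0) from ⟨by linarith, h.le⟩)
      exact F0 y hy e
  obtain ⟨m, m0, hm⟩ := isCompact_Icc.exists_forall_le' (a := (0 : ℝ))
    (f := fun H => ς * F H) (continuous_const.mul cF).continuousOn hpos
  have : CompactSpace (PB δ) := isCompact_iff_compactSpace.1 (isCompact_Icc.prod isCompact_Icc)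
  have hC : IsCompact {p : PB δ | m / 12 ≤ |om p + Real.pi|} :=
    (isClosed_le continuous_const (hc.add continuous_const).abs).isCompact
  obtain ⟨c, c0, hcc⟩ := hC.exists_forall_le' (a := (0 : ℝ)) (f := fun p : PB δ => 1 - p.1.1)
    (Continuous.continuousOn (by fun_prop)) fun p hp => by
      have h2 : p.1.1 ≠ 1 := fun h => by
        have := (h1 p).2 h
        simp only [mem_ofPred_eq, this, neg_add_cancel, abs_zero] at hp
        linarith
      exact sub_pos.2 (lt_of_le_of_ne p.2.1.2 h2)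
  obtain ⟨w, g, w1, w2, hw⟩ := hD.1 (-Real.pi + ς * (m / 2) - m / 12)
    (-Real.pi + ς * (m / 2) + m / 12) (by linarith)
  refine ⟨w, g, m / 12, max (1 - δ) (1 - c / 2), ς, hw, by positivity, le_max_left _ _,
    max_lt (by linarith) (by linarith), hς, fun p hp => ?_, fun p hp => ?_⟩
  · have := hm _ p.2.2
    rw [← hF p hp] at this
    rcases hς with rfl | rfl <;> linarith
  · have h3 : |om p + Real.pi| < m / 12 := by
      by_contra hn
      have h4 := hcc p (not_lt.1 hn)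
      have h5 : 1 - c / 2 ≤ p.1.1 := hp ▸ le_max_right _ _
      linarith
    have := abs_lt.1 h3
    rcases hς with rfl | rfl <;> linarith [this.1, this.2]

end Fnl

open Fnl in
theorem mainOf (hD : DioStmt) (hE : EbStmt) (hT : TorusStmt) (hG : GlueStmt) (hC : CoverStmt) :
    MainStmt := by
  obtain ⟨s1, c0, hs1, hc0, hT⟩ := hT
  obtain ⟨sa, δ1, sa0, δ10, hC⟩ := hC s1 c0 hs1 hc0
  obtain ⟨δ, δ0, δδ, δ9, om, chi, omc, om1, -, hT⟩ := hT sa δ1 sa0 δ10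
  obtain ⟨w, g, η, Mb, ς, hw, η0, Mb0, Mb1, hς, hL, hR⟩ := choose_w hD δ0 omc om1
  obtain ⟨μ1, μ10, hC⟩ := hC Mb Mb1
  obtain ⟨μ2, μ20, hE⟩ := hE Mb Mb1
  obtain ⟨da, e0, da0, e00, hT⟩ := hT w g η (min μ1 μ2) hw η0 (lt_min μ10 μ20)
  refine ⟨min (1 / 10) (min da (e0 / 2)), by positivity, fun m m0 m1 hm2 hm1 A A0 Aπ => ?_⟩
  have b1 : |m 2 / m 1 - 3 / 5| < 1 / 10 := hm2.trans_le (min_le_left _ _)
  have b2 : |m 2 / m 1 - 3 / 5| < da := hm2.trans_le ((min_le_right _ _).trans (min_le_left _ _))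
  have b3 : m 1 < e0 / 2 * m 0 := hm1.trans_le
    (mul_le_mul_of_nonneg_right ((min_le_right _ _).trans (min_le_right _ _)) m0.le)
  obtain ⟨x, hx⟩ : ∃ x, x = m 2 / m 1 := ⟨_, rfl⟩
  have hx2 : m 2 = x * m 1 := by rw [hx]; field_simp
  rw [← hx] at b1 b2
  obtain ⟨b4, b5⟩ := abs_lt.1 b1
  have x0 : 0 < x := by linarith
  have a0 : 0 < 1 / (1 + x) := by positivity
  have a1 : 1 / (1 + x) < 1 := (div_lt_one (by linarith)).2 (by linarith)
  have ee0 : 0 < (1 + x) * m 1 / m 0 := by positivity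
  have ha : |1 / (1 + x) - 5 / 8| < da := by
    have e1 : 1 / (1 + x) - 5 / 8 = (x - 3 / 5) * (-(5 / 8) / (1 + x)) := by field_simp; ring
    have e2 : |-(5 / 8) / (1 + x)| ≤ 1 := by
      rw [abs_div, abs_neg, abs_of_pos (by norm_num), abs_of_pos (by linarith), div_le_one
        (by linarith)]
      linarith
    rw [e1, abs_mul]
    exact (mul_le_of_le_one_right (abs_nonneg _) e2).trans_lt b2
  have he : (1 + x) * m 1 / m 0 < e0 := by
    rw [div_lt_iff₀ m0]; nlinarith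
  obtain ⟨η', S, K, enc, arc, ξ, T, sig, η'0, η'1, hH, sc, sb, hc, hp⟩ := hT _ _ ha ee0 he
  set a := 1 / (1 + x) with hadef
  set e := (1 + x) * m 1 / m 0 with hedef
  have mp := mass_pos (mul_pos ee0 a0) (mul_pos ee0 (sub_pos.2 a1))
  have cA : Continuous fun p : PB δ =>
      area (Img ![1, e * a, e * (1 - a)] (pcs a S enc arc (ξ p) (T p))) :=
    img_cont mp (pcs_cont hH (fun p => (hp p).1) hc) (fun p => pcs_diff hH (hp p).1)
      fun p j y hy => pcs_ne hH (hp p).1 j y.1 hy.2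
  have box : ∀ y ∈ Icc (1 - δ) Mb ×ˢ Icc 0 He, (pr δ0 y).1 = y := fun y hy =>
    pr_val δ0 ⟨hy.1.1, hy.1.2.trans Mb1.le⟩ hy.2
  have sgn : ∀ p, |ς * (2 * sig p)| ≤ 2 * η := fun p => by
    have := sb p
    rcases hς with rfl | rfl <;> simp only [abs_mul, abs_one, abs_neg, abs_two] <;> linarith
  obtain ⟨y, hy, f0, g0⟩ := miranda Mb0 He_nonneg
    (f := fun y => -(ς * (om (pr δ0 y) - w - 2 * sig (pr δ0 y))))
    (g := fun y => area (Img ![1, e * a, e * (1 - a)]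
      (pcs a S enc arc (ξ (pr δ0 y)) (T (pr δ0 y)))) - A)
    (Continuous.continuousOn (continuous_const.mul (((omc.comp (pr_cont δ0)).sub
      continuous_const).sub (continuous_const.mul (sc.comp (pr_cont δ0))))).neg)
    ((cA.comp (pr_cont δ0)).sub continuous_const).continuousOn
    (fun t ht => by
      have h1 := hL (pr δ0 (1 - δ, t)) (by rw [box _ ⟨⟨le_rfl, Mb0⟩, ht⟩])
      have h2 := abs_le.1 (sgn (pr δ0 (1 - δ, t)))
      linarith [h2.1, h2.2])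
    (fun t ht => by
      have h1 := hR (pr δ0 (Mb, t)) (by rw [box _ ⟨⟨Mb0, le_rfl⟩, ht⟩])
      have h2 := abs_le.1 (sgn (pr δ0 (Mb, t)))
      linarith [h2.1, h2.2])
    (fun s hs => by
      have h1 := (hp (pr δ0 (s, 0))).2.2.1 (by rw [box _ ⟨hs, le_rfl, He_nonneg⟩])
      rw [img_zero mp (pcs_diff hH (hp _).1) (fun j y hy => pcs_ne hH (hp _).1 j y.1 hy.2)
        fun j y _ => ⟨1, one_ne_zero, by
          simp only [pcs, (h1 j.1 y.1).1, (h1 j.1 y.1).2, one_smul]⟩]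
      linarith)
    (fun s hs => by
      have hb := box (s, He) ⟨hs, He_nonneg, le_rfl⟩
      obtain ⟨f, -, -, -, h2, h3⟩ := hp (pr δ0 (s, He))
      have h4 := h3 (by rw [hb])
      have mono : ∀ σ q w w2 w3, CovFam σ (pr δ0 (s, He)).1.1 (min μ1 μ2) δ1 c0 sa S s1 q w w2 w3 →
          CovFam σ s μ1 δ1 c0 sa S s1 q w w2 w3 := fun σ q w w2 w3 c => by
        rw [hb] at c
        refine ⟨c.spos, c.ce, c.ca, c.join, fun φ => ?_, c.near⟩
        obtain ⟨B, R, ρ, ep, em, B0, n1, n2, n3, n4, n5, R0, n6, n7, n8, n9⟩ := c.enc φ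
        have l := min_le_left μ1 μ2
        refine ⟨B, R, ρ, ep, em, B0, n1, n2, n3.trans l, n4.trans l, fun t ht => ?_, R0,
          n6.trans l, n7, n8, fun e e0 t ht ht' => (n9 e e0 t ht ht').trans ?_⟩
        · obtain ⟨k1, k2, k3⟩ := n5 t ht
          refine ⟨k1.trans l, k2.trans l, k3.trans ?_⟩
          have := Real.sinh_nonneg_iff.2 ht.1
          gcongr
        · have := ht.1
          gcongr
      have c2 := mono _ _ _ _ _ (h4 2 (by decide))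
      have c0' := mono _ _ _ _ _ (h4 0 (by decide))
      simp only [sg, if_true, show ((2 : Fin 3) = 0) = False by decide, if_false] at c2 c0'
      have h5 := hC s ⟨by linarith [hs.1], hs.2⟩ S _ _ _ _ _ _ _ _ c2 c0'
      rw [img_full mp (fun j θ τ hτ => pcs_ne hH f j θ hτ) (fun j θ τ _ => ⟨1, one_ne_zero, by
        simp only [pcs, (f.per j.1 θ).1, (f.per j.1 θ).2, one_smul]⟩) fun v hv => ?_]
      · linarith
      · rcases h5 v hv with h | h | h | h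
        · obtain ⟨i, θ, τ, hτ, e⟩ := hit hH f (h2 2) h; exact ⟨i, θ, τ, hτ, Or.inl e⟩
        · obtain ⟨i, θ, τ, hτ, e⟩ := hit hH f (h2 2) h; exact ⟨i, θ, τ, hτ, Or.inr e⟩
        · obtain ⟨i, θ, τ, hτ, e⟩ := hit hH f (h2 0) h; exact ⟨i, θ, τ, hτ, Or.inl e⟩
        · obtain ⟨i, θ, τ, hτ, e⟩ := hit hH f (h2 0) h; exact ⟨i, θ, τ, hτ, Or.inr e⟩)
  obtain ⟨f, hM, -, h1, -⟩ := hp (pr δ0 y)
  have hom : om (pr δ0 y) = w + 2 * sig (pr δ0 y) := by
    rcases hς with rfl | rfl <;> linarith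
  have hne : ∀ j : Fin 3, j ≠ 1 → ∃ θ, ξ (pr δ0 y) j θ 4 ≠ ξ (pr δ0 y) j θ 5 := fun j hj => by
    refine ⟨chi (pr δ0 y) Real.pi, fun h => ?_⟩
    obtain ⟨k1, k2⟩ := h1 j hj Real.pi
    rw [box y hy] at k1 k2
    have k3 := hE y.1 ⟨by linarith [hy.1.1], hy.1.2⟩ y.2 hy.2 (sg j) (by
      unfold sg; split_ifs <;> simp)
    rw [h] at k1
    have k4 := norm_sub_le_norm_sub_add_norm_sub
      (eb (sg j) (sg j) (fK y.1 y.2) (r2c (fx y.1 y.2 Real.pi)))
      (ξ (pr δ0 y) j (chi (pr δ0 y) Real.pi) 5)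
      (eb (sg j) (-sg j) (fK y.1 y.2) (r2c (fx y.1 y.2 Real.pi)))
    rw [norm_sub_rev] at k1
    linarith [min_le_right μ1 μ2]
  have hA := hG a e η' w g S K enc arc _ _ a0 a1 ee0 η'0 η'1 hw hH f (hM hom) (hne 0 (by decide))
    (hne 2 (by decide))
  rw [sub_eq_zero.1 g0] at hA
  have := hA.scale mp m0
  convert this using 1
  funext i
  fin_cases i
  · simp
  · simp only [hadef, hedef, Fin.mk_one, Fin.isValue, Matrix.cons_val_one, Matrix.cons_val_zero]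
    field_simp
  · simp only [hadef, hedef, Fin.reduceFinMk, Matrix.cons_val, hx2]
    field_simp
    ring

end Pool.Agent.MP_1ba41f_an.S2
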