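import Mathlib
import Pool.Agent.MP_1ba41f_an.S2.CV.Defs

/-! The attained areas do not depend on the labelling of the bodies. -/

noncomputable section
open Finset MeasureTheory
open scoped Pointwise

namespace Pool.Agent.MP_1ba41f_an.S2

namespace Perm

abbrev E3 := EuclideanSpace ℝ (Fin 3)

theorem area_image (O : E3 ≃ₗᵢ[ℝ] E3) {E : Set E3} (hE : IsClosed E) : area (O '' E) = area E := by
  have key : ∀ {E : Set E3}, IsClosed E → (volume : Measure E3).toSphere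
      {x | (1 / 2 : ℝ) • (x : E3) ∈ E} = Module.finrank ℝ E3 * volume
        (Set.Ioo (0 : ℝ) 1 • {x : E3 | ‖x‖ = 1 ∧ (1 / 2 : ℝ) • x ∈ E}) := fun {E} hE => by
    refine (Measure.toSphere_apply' _ (hE.preimage (f := fun x : Metric.sphere (0 : E3) 1 =>
      (1 / 2 : ℝ) • (x : E3)) (by fun_prop)).measurableSet).trans ?_
    congr 3
    ext x; simp [and_comm]
  have e : Set.Ioo (0 : ℝ) 1 • {x : E3 | ‖x‖ = 1 ∧ (1 / 2 : ℝ) • x ∈ O '' E} =
      O.symm ⁻¹' (Set.Ioo (0 : ℝ) 1 • {x : E3 | ‖x‖ = 1 ∧ (1 / 2 : ℝ) • x ∈ E}) := by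
    ext v
    constructor
    · rintro ⟨r, hr, x, ⟨h1, y, hy, h2⟩, rfl⟩
      refine ⟨r, hr, O.symm x, ⟨by simpa using h1, ?_⟩, by simp⟩
      rw [← map_smul, ← h2, O.symm_apply_apply]; exact hy
    · rintro ⟨r, hr, x, ⟨h1, h2⟩, h3⟩
      refine ⟨r, hr, O x, ⟨by simpa using h1, _, h2, by simp⟩, ?_⟩
      have : r • x = O.symm v := h3
      show r • O x = v
      rw [← map_smul, this, O.apply_symm_apply]
  unfold area
  rw [key hE, key (E := O '' E) (O.toHomeomorph.isClosedMap _ hE), e,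
    O.symm.measurePreserving.measure_preimage_emb O.symm.toHomeomorph.measurableEmbedding]

/-- the reflection of the shape space induced by a transposition -/
def refl (p q : ℝ) : E3 →ₗ[ℝ] E3 where
  toFun v := !₂[p * v 0 + q * v 1, q * v 0 - p * v 1, -v 2]
  map_add' u v := by ext i; fin_cases i <;> simp <;> ring
  map_smul' a v := by ext i; fin_cases i <;> simp <;> ring

def reflI (p q : ℝ) (h : p ^ 2 + q ^ 2 = 1) : E3 ≃ₗᵢ[ℝ] E3 :=
  LinearIsometry.toLinearIsometryEquiv ⟨refl p q, fun v => by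
    rw [EuclideanSpace.norm_eq, EuclideanSpace.norm_eq]
    congr 1
    simp only [Fin.sum_univ_three, Real.norm_eq_abs, sq_abs]
    show (p * v 0 + q * v 1) ^ 2 + (q * v 0 - p * v 1) ^ 2 + (-v 2) ^ 2 = _
    linear_combination (v 0 ^ 2 + v 1 ^ 2) * h⟩ rfl

theorem wv_rot {α β : ℝ} (h : α ^ 2 + β ^ 2 = 1) (z1 z2 : ℂ) :
    wv (α * z1 + β * z2) (β * z1 - α * z2) = refl (α ^ 2 - β ^ 2) (2 * α * β) (wv z1 z2) := by
  ext i
  fin_cases i
  · simp [wv, refl, Complex.sq_norm, Complex.normSq_apply]; ring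
  · simp [wv, refl, Complex.sq_norm, Complex.normSq_apply]; ring
  · simp [wv, refl]; linear_combination (z1.re * z2.im - z1.im * z2.re) * h

theorem att_of (σ : Equiv.Perm (Fin 3)) {m : Fin 3 → ℝ} {α β : ℝ} (h : α ^ 2 + β ^ 2 = 1) (s : ℝ)
    (hs : s ^ 2 = 1)
    (h1 : ∀ c, jac1 m c = s * (α * jac1 (m ∘ σ) (c ∘ σ) + β * jac2 (m ∘ σ) (c ∘ σ)))
    (h2 : ∀ c, jac2 m c = s * (β * jac1 (m ∘ σ) (c ∘ σ) - α * jac2 (m ∘ σ) (c ∘ σ))) {A : ℝ}
    (hA : Att (m ∘ σ) A) : Att m A := by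
  obtain ⟨q, ⟨c1, c2, v, a, c3⟩, hA⟩ := hA
  have hpq : (α ^ 2 - β ^ 2) ^ 2 + (2 * α * β) ^ 2 = 1 := by
    linear_combination (α ^ 2 + β ^ 2 + 1) * h
  refine ⟨fun t => q t ∘ σ.symm, ⟨fun t i j hij => c1 t _ _ (σ.symm.injective.ne hij), fun t => ?_,
    fun t => v t ∘ σ.symm, fun t => a t ∘ σ.symm, fun t i => ⟨(c3 t _).1, (c3 t _).2.1, ?_⟩⟩, ?_⟩
  · rw [← c2 t, ← Equiv.sum_comp σ]; simp
  · have := (c3 t (σ.symm i)).2.2
    simp only [Function.comp_apply, Equiv.apply_symm_apply] at this ⊢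
    rw [this]
    exact sum_equiv σ (fun j => by simp [Equiv.eq_symm_apply])
      fun j _ => by simp
  · have e : ∀ t, shape m (q t ∘ σ.symm) = reflI _ _ hpq (shape (m ∘ σ) (q t)) := fun t => by
      have e0 : (q t ∘ σ.symm) ∘ σ = q t := by ext; simp
      have e1 : wv (jac1 m (q t ∘ σ.symm)) (jac2 m (q t ∘ σ.symm)) =
          reflI _ _ hpq (wv (jac1 (m ∘ σ) (q t)) (jac2 (m ∘ σ) (q t))) := by
        have h' : (s * α) ^ 2 + (s * β) ^ 2 = 1 := by linear_combination s ^ 2 * h + hs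
        have := wv_rot h' (jac1 (m ∘ σ) (q t)) (jac2 (m ∘ σ) (q t))
        rw [show (s * α) ^ 2 - (s * β) ^ 2 = α ^ 2 - β ^ 2 by
            linear_combination (α ^ 2 - β ^ 2) * hs,
          show 2 * (s * α) * (s * β) = 2 * α * β by linear_combination (2 * α * β) * hs] at this
        rw [h1, h2, e0]
        refine Eq.trans ?_ this
        congr 1 <;> (push_cast; ring)
      rw [shape, e1, LinearIsometryEquiv.norm_map, shape, map_smul]
    have e2 : (Set.range fun t => shape m (q t ∘ σ.symm)) =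
        reflI _ _ hpq '' Set.range fun t => shape (m ∘ σ) (q t) := by
      rw [← Set.range_comp]; exact congrArg _ (funext e)
    rw [e2, ← hA, ← area_image (reflI _ _ hpq)
      (isClosed_closure (s := Set.range fun t => shape (m ∘ σ) (q t)))]
    exact congrArg _ ((reflI _ _ hpq).toHomeomorph.image_closure _).symm

theorem att01 {m : Fin 3 → ℝ} {A : ℝ} (hA : Att (m ∘ Equiv.swap 0 1) A) : Att m A := by
  have e2 : Equiv.swap (0 : Fin 3) 1 2 = 2 := by decide
  refine att_of _ (α := 1) (β := 0) (by norm_num) (-1) (by norm_num) (fun c => ?_) (fun c => ?_) hA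
  · simp only [jac1, Function.comp_apply, Equiv.swap_apply_left, Equiv.swap_apply_right,
      mul_comm (m 1), add_comm (m 1)]
    push_cast; ring
  · simp only [jac2, Function.comp_apply, Equiv.swap_apply_left, Equiv.swap_apply_right, e2,
      add_comm (m 1)]
    push_cast; ring

theorem att12 {m : Fin 3 → ℝ} (hm : ∀ i, 0 < m i) {A : ℝ} (hA : Att (m ∘ Equiv.swap 1 2) A) :
    Att m A := by
  have e0 : Equiv.swap (1 : Fin 3) 2 0 = 0 := by decide
  have p0 := hm 0; have p1 := hm 1; have p2 := hm 2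
  have sq : ∀ {x y z r : ℝ}, 0 ≤ x → 0 ≤ y → 0 ≤ r → x * y = z * r ^ 2 → √x * √y = √z * r :=
    fun {x y z r} hx hy hr e => by
      rw [← Real.sqrt_mul hx, e, Real.sqrt_mul' _ (sq_nonneg r), Real.sqrt_sq hr]
  have a1 := sq (x := m 1 * m 2 / ((m 0 + m 1) * (m 0 + m 2))) (y := m 0 * m 2 / (m 0 + m 2))
    (z := m 0 * m 1 / (m 0 + m 1)) (r := m 2 / (m 0 + m 2)) (by positivity) (by positivity)
    (by positivity) (by field_simp)
  have a2 := sq (x := m 0 * (m 0 + m 1 + m 2) / ((m 0 + m 1) * (m 0 + m 2)))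
    (y := m 1 * (m 0 + m 2) / (m 0 + m 2 + m 1)) (z := m 0 * m 1 / (m 0 + m 1)) (r := 1)
    (by positivity) (by positivity) (by positivity) (by field_simp; ring)
  have a3 := sq (x := m 0 * (m 0 + m 1 + m 2) / ((m 0 + m 1) * (m 0 + m 2)))
    (y := m 0 * m 2 / (m 0 + m 2)) (z := m 2 * (m 0 + m 1) / (m 0 + m 1 + m 2))
    (r := m 0 * (m 0 + m 1 + m 2) / ((m 0 + m 1) * (m 0 + m 2))) (by positivity) (by positivity)
    (by positivity) (by field_simp)
  have a4 := sq (x := m 1 * m 2 / ((m 0 + m 1) * (m 0 + m 2)))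
    (y := m 1 * (m 0 + m 2) / (m 0 + m 2 + m 1)) (z := m 2 * (m 0 + m 1) / (m 0 + m 1 + m 2))
    (r := m 1 / (m 0 + m 1)) (by positivity) (by positivity) (by positivity) (by field_simp; ring)
  have n1 : (m 0 : ℂ) + m 1 ≠ 0 := by exact_mod_cast (add_pos p0 p1).ne'
  have n2 : (m 0 : ℂ) + m 2 ≠ 0 := by exact_mod_cast (add_pos p0 p2).ne'
  refine att_of _ (α := √(m 1 * m 2 / ((m 0 + m 1) * (m 0 + m 2))))
    (β := √(m 0 * (m 0 + m 1 + m 2) / ((m 0 + m 1) * (m 0 + m 2)))) ?_ 1 (by norm_num)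
    (fun c => ?_) (fun c => ?_) hA
  · rw [Real.sq_sqrt (by positivity), Real.sq_sqrt (by positivity)]; field_simp; ring
  · simp only [jac1, jac2, Function.comp_apply, Equiv.swap_apply_left, Equiv.swap_apply_right, e0,
      ← mul_assoc, ← Complex.ofReal_mul, a1, a2]
    push_cast; field_simp; ring
  · simp only [jac1, jac2, Function.comp_apply, Equiv.swap_apply_left, Equiv.swap_apply_right, e0,
      ← mul_assoc, ← Complex.ofReal_mul, a3, a4]
    push_cast; field_simp; ring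

end Perm

theorem att_perm (σ : Equiv.Perm (Fin 3)) {m : Fin 3 → ℝ} (hm : ∀ i, 0 < m i) {A : ℝ}
    (hA : Att (m ∘ σ) A) : Att m A := by
  have h : ∀ σ : Equiv.Perm (Fin 3), σ = 1 ∨ σ = Equiv.swap 0 1 ∨ σ = Equiv.swap 1 2 ∨
      σ = Equiv.swap 0 1 * Equiv.swap 1 2 ∨ σ = Equiv.swap 1 2 * Equiv.swap 0 1 ∨
      σ = Equiv.swap 0 1 * Equiv.swap 1 2 * Equiv.swap 0 1 := by decide
  rcases h σ with rfl | rfl | rfl | rfl | rfl | rfl
  · exact hA
  · exact Perm.att01 hA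
  · exact Perm.att12 hm hA
  · exact Perm.att01 (Perm.att12 (fun _ => hm _) hA)
  · exact Perm.att12 hm (Perm.att01 hA)
  · exact Perm.att01 (Perm.att12 (fun _ => hm _) (Perm.att01 hA))

end Pool.Agent.MP_1ba41f_an.S2
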